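import Mathlib

/-! # MP_467638_an: the final statement and the Moore-Penrose inverse (helper202) -/

set_option autoImplicit false

namespace Pool.Agent.Q202.SK

open MeasureTheory ProbabilityTheory Matrix
open scoped ENNReal

/-- squared Frobenius norm -/
noncomputable def frob {𝕜 : Type} [RCLike 𝕜] {a b : ℕ} (M : Matrix (Fin a) (Fin b) 𝕜) : ℝ := ∑ i, ∑ j, ‖M i j‖ ^ 2

/-- `P` is the Moore-Penrose pseudoinverse of `A` -/
def IsPenrose {𝕜 : Type} [RCLike 𝕜] {n d : ℕ} (A : Matrix (Fin n) (Fin d) 𝕜) (P : Matrix (Fin d) (Fin n) 𝕜) : Prop :=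
  A * P * A = A ∧ P * A * P = P ∧ (A * P)ᴴ = A * P ∧ (P * A)ᴴ = P * A

/-- existence of the pseudoinverse (spectral theorem for `Aᴴ A`, or projections / minimal norm solutions) -/
def TaskPenEx : Prop := ∀ (𝕜 : Type) [RCLike 𝕜] (n d : ℕ) (A : Matrix (Fin n) (Fin d) 𝕜), ∃ P, IsPenrose A P

/-- `A P B` is the best approximation -/
def TaskPen : Prop := ∀ (𝕜 : Type) [RCLike 𝕜] (n d p : ℕ) (A : Matrix (Fin n) (Fin d) 𝕜) (P : Matrix (Fin d) (Fin n) 𝕜)
  (B : Matrix (Fin n) (Fin p) 𝕜), IsPenrose A P → ∀ X : Matrix (Fin d) (Fin p) 𝕜, frob (B - A * P * B) ≤ frob (B - A * X)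

end Pool.Agent.Q202.SK
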