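import Pool.Agent.Q202.SK.Stmts
import Pool.Agent.Q202.SK.Stmts2

set_option autoImplicit false

namespace Pool.Agent.Q202.SK

open MeasureTheory ProbabilityTheory Matrix
open scoped ENNReal

variable {𝕜 : Type} [RCLike 𝕜] [MeasurableSpace 𝕜] [BorelSpace 𝕜] {γ : Measure 𝕜} {m : ℝ}

theorem lim (hG : Gau 𝕜 γ m)
    (hcol : ∀ (l s : ℕ) (j : Fin (s + 1)), s ≤ l → 2 < m * ((l : ℝ) - s) →
      ENNReal.ofReal (1 / (m * ((l : ℝ) - s) - 2)) ≤
      ⨆ N : ℕ, ∫⁻ A : Fin (s + 1) → Fin l → 𝕜, low A j ((N : ℝ) + 1) ∂GM γ (s + 1) (Fin l))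
    (hsup : TaskSup) (l k r : ℕ) (hr : r ≤ l) (h2 : 2 < m * ((l : ℝ) - r + 1)) (W : ℝ≥0∞)
    (hW : ∀ N : ℕ, ENNReal.ofReal (m * ((l : ℝ) - r) + m * k) + ENNReal.ofReal (m * k) *
      ∑ j : Fin r, ENNReal.ofReal m * ∫⁻ A : Fin r → Fin l → 𝕜, low A j ((N : ℝ) + 1) ∂GM γ r (Fin l) ≤ W) :
    ENNReal.ofReal (m * ((l : ℝ) - r) + m * k + m * k * (r * (m * (1 / (m * ((l : ℝ) - r + 1) - 2))))) ≤ W := by
  have hm := hG.pos
  have hr' : (0 : ℝ) ≤ (l : ℝ) - r := by
    have : (r : ℝ) ≤ l := by exact_mod_cast hr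
    linarith
  rcases r with _ | s
  · have := hW 0
    refine le_trans (le_of_eq ?_) this
    simp
  have hmon : ∀ j : Fin (s + 1), Monotone fun N : ℕ =>
      ENNReal.ofReal m * ∫⁻ A : Fin (s + 1) → Fin l → 𝕜, low A j ((N : ℝ) + 1) ∂GM γ (s + 1) (Fin l) := by
    intro j M N h
    apply mul_le_mul_right
    exact lintegral_mono fun A => (hsup 𝕜 l (s + 1) j A).1 h
  have h3 : m * ((l : ℝ) - s) - 2 = m * ((l : ℝ) - (s + 1 : ℕ) + 1) - 2 := by push_cast; ring
  have hs : s ≤ l := by omega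
  have h2' : 2 < m * ((l : ℝ) - s) := by linarith [h3]
  have hL : ∀ j : Fin (s + 1), ENNReal.ofReal (m * (1 / (m * ((l : ℝ) - s) - 2))) ≤
      ⨆ N : ℕ, ENNReal.ofReal m * ∫⁻ A : Fin (s + 1) → Fin l → 𝕜, low A j ((N : ℝ) + 1) ∂GM γ (s + 1) (Fin l) := by
    intro j
    rw [ENNReal.ofReal_mul hm.le, ← ENNReal.mul_iSup]
    exact mul_le_mul_right (hcol l s j hs h2') _
  have h5 : 0 ≤ m * (1 / (m * ((l : ℝ) - s) - 2)) := by
    apply mul_nonneg hm.le
    apply div_nonneg zero_le_one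
    linarith
  have key : ENNReal.ofReal (m * ((l : ℝ) - (s + 1 : ℕ)) + m * k) + ENNReal.ofReal (m * k) *
      ∑ j : Fin (s + 1), ENNReal.ofReal (m * (1 / (m * ((l : ℝ) - s) - 2))) ≤ W := by
    calc _ ≤ ENNReal.ofReal (m * ((l : ℝ) - (s + 1 : ℕ)) + m * k) + ENNReal.ofReal (m * k) *
        ∑ j : Fin (s + 1), ⨆ N : ℕ, ENNReal.ofReal m *
          ∫⁻ A : Fin (s + 1) → Fin l → 𝕜, low A j ((N : ℝ) + 1) ∂GM γ (s + 1) (Fin l) := by
          gcongr with j _
          exact hL j
      _ ≤ W := by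
          rw [ENNReal.finsetSum_iSup_of_monotone hmon, ENNReal.mul_iSup, ENNReal.add_iSup]
          exact iSup_le hW
  refine le_trans (le_of_eq ?_) key
  rw [← ENNReal.ofReal_sum_of_nonneg (fun _ _ => h5), ← ENNReal.ofReal_mul (by positivity),
    ← ENNReal.ofReal_add (by positivity) (by
      apply mul_nonneg (by positivity)
      exact Finset.sum_nonneg fun _ _ => h5)]
  congr 1
  rw [Finset.sum_const, Finset.card_univ, Fintype.card_fin, h3, nsmul_eq_mul]

theorem swap {T α β δ : Type} [MeasurableSpace T] [MeasurableSpace α] [MeasurableSpace β] [MeasurableSpace δ]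
    (μ : Measure T) (a : Measure α) (b : Measure β) (d : Measure δ) [IsProbabilityMeasure μ] [IsProbabilityMeasure a]
    [IsProbabilityMeasure b] [IsProbabilityMeasure d] (F : T → α → β → δ → ℝ≥0∞)
    (hmF : Measurable fun z : T × α × β × δ => F z.1 z.2.1 z.2.2.1 z.2.2.2) (V : ℝ≥0∞)
    (hV : ∀ ω, V ≤ ∫⁻ A, ∫⁻ x, ∫⁻ g, F ω A x g ∂d ∂b ∂a) : V ≤ ∫⁻ A, ∫⁻ x, ∫⁻ g, ∫⁻ ω, F ω A x g ∂μ ∂d ∂b ∂a := by
  have hint : ∀ ω, ∫⁻ A, ∫⁻ x, ∫⁻ g, F ω A x g ∂d ∂b ∂a = ∫⁻ z, F ω z.1 z.2.1 z.2.2 ∂(a.prod (b.prod d)) := by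
    intro ω
    have h1 : Measurable fun z : α × β × δ => F ω z.1 z.2.1 z.2.2 :=
      hmF.comp (measurable_const.prodMk measurable_id)
    rw [lintegral_prod _ h1.aemeasurable]
    refine lintegral_congr fun A => ?_
    have h2 : Measurable fun z : β × δ => F ω A z.1 z.2 :=
      h1.comp (measurable_const.prodMk measurable_id)
    rw [lintegral_prod _ h2.aemeasurable]
  calc V = ∫⁻ _ω, V ∂μ := by simp
    _ ≤ ∫⁻ ω, ∫⁻ z, F ω z.1 z.2.1 z.2.2 ∂(a.prod (b.prod d)) ∂μ := lintegral_mono fun ω => (hV ω).trans (hint ω).le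
    _ = ∫⁻ z, ∫⁻ ω, F ω z.1 z.2.1 z.2.2 ∂μ ∂(a.prod (b.prod d)) := by
        apply lintegral_lintegral_swap
        exact hmF.aemeasurable
    _ = ∫⁻ A, ∫⁻ x, ∫⁻ g, ∫⁻ ω, F ω A x g ∂μ ∂d ∂b ∂a := by
        have h0 : Measurable fun z : α × β × δ => ∫⁻ ω, F ω z.1 z.2.1 z.2.2 ∂μ :=
          Measurable.lintegral_prod_left' (f := fun z : T × α × β × δ => F z.1 z.2.1 z.2.2.1 z.2.2.2) hmF
        rw [lintegral_prod _ h0.aemeasurable]
        refine lintegral_congr fun A => ?_
        have h2 : Measurable fun z : β × δ => ∫⁻ ω, F ω A z.1 z.2 ∂μ :=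
          h0.comp (measurable_const.prodMk measurable_id)
        rw [lintegral_prod _ h2.aemeasurable]

theorem upper (hG : Gau 𝕜 γ m) (hLI : TaskLI) (hmomL : TaskMomL) (hFull : TaskFull) {ι : Type} [Fintype ι] [DecidableEq ι]
    {r : ℕ} (hr : r < Fintype.card ι) {T : Type} [MeasurableSpace T] (μ : Measure T) [IsProbabilityMeasure μ]
    (X : T → (Fin r → ι → 𝕜) → (ι → 𝕜) → Fin r → 𝕜)
    (hX : Measurable fun z : T × (Fin r → ι → 𝕜) × (ι → 𝕜) => X z.1 z.2.1 z.2.2) (C : ℝ≥0∞)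
    (hC : ∀ (A : Fin r → ι → 𝕜) (b : ι → 𝕜), LinearIndependent 𝕜 A → (∀ c, b ≠ app A c) →
      ∫⁻ ω, ENNReal.ofReal (sq (fun i => b i - app A (X ω A b) i)) ∂μ ≤
        C * ENNReal.ofReal (⨅ c : Fin r → 𝕜, sq (fun i => b i - app A c i)))
    (τ : ℝ) (V : ℝ≥0∞)
    (hV : ∀ ω, V ≤ ∫⁻ A, ∫⁻ x, ∫⁻ g, ENNReal.ofReal (sq (fun i => app A (fun j => (τ : 𝕜) * x j) i + g i -
      app A (X ω A (fun i => app A (fun j => (τ : 𝕜) * x j) i + g i)) i)) ∂G γ ι ∂G γ (Fin r) ∂GM γ r ι) :
    V ≤ C * ENNReal.ofReal (m * ((Fintype.card ι : ℝ) - r)) := by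
  have ip := hG.prob
  have i1 : ∀ (κ : Type) [Fintype κ], IsProbabilityMeasure (G γ κ) := fun κ _ => by unfold G; infer_instance
  have i2 := i1 ι
  have i3 := i1 (Fin r)
  have i4 : IsProbabilityMeasure (GM γ r ι) := by unfold GM; infer_instance
  -- joint measurability
  set F : T → (Fin r → ι → 𝕜) → (Fin r → 𝕜) → (ι → 𝕜) → ℝ≥0∞ := fun ω A x g =>
    ENNReal.ofReal (sq (fun i => app A (fun j => (τ : 𝕜) * x j) i + g i -
      app A (X ω A (fun i => app A (fun j => (τ : 𝕜) * x j) i + g i)) i)) with hF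
  have hmF : Measurable fun z : T × (Fin r → ι → 𝕜) × (Fin r → 𝕜) × (ι → 𝕜) => F z.1 z.2.1 z.2.2.1 z.2.2.2 := by
    have hb : Measurable fun z : T × (Fin r → ι → 𝕜) × (Fin r → 𝕜) × (ι → 𝕜) =>
        (fun i => app z.2.1 (fun j => (τ : 𝕜) * z.2.2.1 j) i + z.2.2.2 i : ι → 𝕜) := by
      refine measurable_pi_lambda _ fun i => ?_
      simp only [app]
      fun_prop
    have hX2 : Measurable fun z : T × (Fin r → ι → 𝕜) × (Fin r → 𝕜) × (ι → 𝕜) =>
        X z.1 z.2.1 (fun i => app z.2.1 (fun j => (τ : 𝕜) * z.2.2.1 j) i + z.2.2.2 i) :=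
      hX.comp (f := fun z : T × (Fin r → ι → 𝕜) × (Fin r → 𝕜) × (ι → 𝕜) => (z.1, z.2.1,
        (fun i => app z.2.1 (fun j => (τ : 𝕜) * z.2.2.1 j) i + z.2.2.2 i : ι → 𝕜)))
        (measurable_fst.prodMk ((measurable_fst.comp measurable_snd).prodMk hb))
    simp only [hF]
    apply ENNReal.measurable_ofReal.comp
    unfold sq
    refine Finset.measurable_sum _ fun i _ => ?_
    apply Measurable.pow_const
    apply Measurable.norm
    apply Measurable.sub
    · exact (measurable_pi_apply i).comp hb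
    · simp only [app]
      refine Finset.measurable_sum _ fun j _ => ?_
      apply Measurable.mul
      · exact (measurable_pi_apply j).comp hX2
      · fun_prop
  have hsw := swap μ (GM γ r ι) (G γ (Fin r)) (G γ ι) F hmF V hV
  calc V ≤ ∫⁻ A, ∫⁻ x, ∫⁻ g, ∫⁻ ω, F ω A x g ∂μ ∂G γ ι ∂G γ (Fin r) ∂GM γ r ι := hsw
    _ ≤ ∫⁻ A, ∫⁻ _x, C * ENNReal.ofReal (m * ((Fintype.card ι : ℝ) - r)) ∂G γ (Fin r) ∂GM γ r ι := by
        have hli : ∀ᵐ A ∂GM γ r ι, LinearIndependent 𝕜 A ∧ ∀ᵐ g ∂G γ ι, ∀ c, g ≠ app A c := by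
          have h1 := hLI 𝕜 γ m hG ι (r + 1) hr
          have h2 : ∀ᵐ z ∂((G γ ι).prod (GM γ r ι)), LinearIndependent 𝕜 (Fin.cons z.1 z.2 : Fin (r + 1) → ι → 𝕜) := by
            have mp := measurePreserving_piFinSuccAbove (fun _ : Fin (r + 1) => G γ ι) 0
            have mp' := mp.symm
            have := mp'.quasiMeasurePreserving.ae h1
            filter_upwards [this] with z hz
            simpa [MeasurableEquiv.piFinSuccAbove, Fin.insertNthEquiv] using hz
          have h3 : ∀ᵐ z ∂((GM γ r ι).prod (G γ ι)), LinearIndependent 𝕜 (Fin.cons z.2 z.1 : Fin (r + 1) → ι → 𝕜) :=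
            (Measure.measurePreserving_swap (μ := GM γ r ι) (ν := G γ ι)).quasiMeasurePreserving.ae h2
          have h4 := Measure.ae_ae_of_ae_prod h3
          filter_upwards [h4] with A hA
          constructor
          · obtain ⟨g, hg⟩ := hA.exists
            exact (linearIndependent_finCons.1 hg).1
          · filter_upwards [hA] with g hg c hc
            apply (linearIndependent_finCons.1 hg).2
            rw [hc]
            have : app A c = ∑ j, c j • A j := by
              funext i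
              simp [app]
            rw [this]
            exact Submodule.sum_mem _ fun j _ => Submodule.smul_mem _ _ (Submodule.subset_span ⟨j, rfl⟩)
        apply lintegral_mono_ae
        filter_upwards [hli] with A hA
        apply lintegral_mono
        intro x
        have hshift : ∀ g : ι → 𝕜, (⨅ c : Fin r → 𝕜, sq (fun i => app A (fun j => (τ : 𝕜) * x j) i + g i - app A c i)) =
            ⨅ c : Fin r → 𝕜, sq (fun i => g i - app A c i) := by
          intro g
          refine Equiv.iInf_congr (Equiv.subRight (fun j => (τ : 𝕜) * x j)) fun c => ?_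
          congr 1
          funext i
          simp only [Equiv.subRight_apply, app, Pi.sub_apply, sub_mul, Finset.sum_sub_distrib]
          ring
        calc ∫⁻ g, ∫⁻ ω, F ω A x g ∂μ ∂G γ ι ≤
            ∫⁻ g, C * ENNReal.ofReal (⨅ c : Fin r → 𝕜, sq (fun i => g i - app A c i)) ∂G γ ι := by
              apply lintegral_mono_ae
              filter_upwards [hA.2] with g hg
              have := hC A (fun i => app A (fun j => (τ : 𝕜) * x j) i + g i) hA.1 (fun c hc => by
                apply hg (fun j => c j - (τ : 𝕜) * x j)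
                funext i
                have := congrFun hc i
                simp only [app, sub_mul, Finset.sum_sub_distrib] at this ⊢
                rw [← this]
                ring)
              rw [hshift g] at this
              exact this
          _ ≤ C * ENNReal.ofReal (m * ((Fintype.card ι : ℝ) - r)) := by
              by_cases hCt : C = ∞
              · have : 0 < m * ((Fintype.card ι : ℝ) - r) := by
                  apply mul_pos hG.pos
                  have : (r : ℝ) < Fintype.card ι := by exact_mod_cast hr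
                  linarith
                rw [hCt, ENNReal.top_mul (by simpa using this)]
                exact le_top
              · rw [lintegral_const_mul' _ _ hCt]
                exact mul_le_mul_right (hFull hmomL 𝕜 γ m hG ι r A hA.1) _
    _ = C * ENNReal.ofReal (m * ((Fintype.card ι : ℝ) - r)) := by simp

end Pool.Agent.Q202.SK
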