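import Pool.Agent.Q202.SK.Stmts
import Pool.Agent.Q202.SK.Stmts2

set_option autoImplicit false

namespace Pool.Agent.Q202.SK

open MeasureTheory ProbabilityTheory Matrix
open scoped ENNReal

variable {𝕜 : Type} [RCLike 𝕜]

/-- matrix with the columns `S j` and zero columns -/
def mkA {α : Type} {r : ℕ} (q : ℕ) (S : Fin r → α → 𝕜) : α → Fin (r + q) → 𝕜 :=
  fun i => Fin.append (fun j => S j i) (fun _ => 0)

/-- matrix with the first column `y` and zero columns -/
def mkB {α : Type} (p : ℕ) (y : α → 𝕜) : α → Fin (p + 1) → 𝕜 := fun i => Fin.cons (y i) (fun _ => 0)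

theorem sketchA {l k r q : ℕ} (e : Fin (l + k) ≃ Fin l ⊕ Fin k) (Ω : Matrix (Fin (l + k)) (Fin l) 𝕜)
    (A : Fin r → Fin l ⊕ Fin k → 𝕜) :
    Ωᴴ * (Matrix.of (mkA q (fun j i => A j (e i))) : Matrix (Fin (l + k)) (Fin (r + q)) 𝕜) =
      Matrix.of (mkA q (fun j => (Ω.submatrix e.symm id)ᴴ *ᵥ A j)) := by
  ext a j
  refine Fin.addCases (fun j => ?_) (fun j => ?_) j
  · simp only [Matrix.mul_apply, Matrix.of_apply, mkA, Fin.append_left, Matrix.mulVec, dotProduct,
      Matrix.conjTranspose_apply, Matrix.submatrix_apply, id]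
    rw [← Equiv.sum_comp e]
    simp
  · simp only [Matrix.mul_apply, Matrix.of_apply, mkA, Fin.append_right, mul_zero, Finset.sum_const_zero]

theorem sketchB {l k p : ℕ} (e : Fin (l + k) ≃ Fin l ⊕ Fin k) (Ω : Matrix (Fin (l + k)) (Fin l) 𝕜)
    (b : Fin l ⊕ Fin k → 𝕜) :
    Ωᴴ * (Matrix.of (mkB p (fun i => b (e i))) : Matrix (Fin (l + k)) (Fin (p + 1)) 𝕜) =
      Matrix.of (mkB p ((Ω.submatrix e.symm id)ᴴ *ᵥ b)) := by
  ext a j
  refine Fin.cases ?_ (fun j => ?_) j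
  · simp only [Matrix.mul_apply, Matrix.of_apply, mkB, Fin.cons_zero, Matrix.mulVec, dotProduct,
      Matrix.conjTranspose_apply, Matrix.submatrix_apply, id]
    rw [← Equiv.sum_comp e]
    simp
  · simp only [Matrix.mul_apply, Matrix.of_apply, mkB, Fin.cons_succ, mul_zero, Finset.sum_const_zero]

theorem entry {l k r q p : ℕ} (e : Fin (l + k) ≃ Fin l ⊕ Fin k) (A : Fin r → Fin l ⊕ Fin k → 𝕜)
    (b : Fin l ⊕ Fin k → 𝕜) (Z : Matrix (Fin (r + q)) (Fin (p + 1)) 𝕜) (i : Fin (l + k)) :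
    ((Matrix.of (mkB p (fun i => b (e i))) : Matrix (Fin (l + k)) (Fin (p + 1)) 𝕜) -
      (Matrix.of (mkA q (fun j i => A j (e i))) : Matrix (Fin (l + k)) (Fin (r + q)) 𝕜) * Z) i 0 =
      b (e i) - app A (fun j => Z (Fin.castAdd q j) 0) (e i) := by
  simp only [Matrix.sub_apply, Matrix.mul_apply, Matrix.of_apply, mkB, mkA, Fin.cons_zero, Fin.sum_univ_add,
    Fin.append_left, Fin.append_right, zero_mul, Finset.sum_const_zero, add_zero, app]
  congr 1
  exact Finset.sum_congr rfl fun j _ => mul_comm _ _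

theorem lowerFrob {l k r q p : ℕ} (e : Fin (l + k) ≃ Fin l ⊕ Fin k) (A : Fin r → Fin l ⊕ Fin k → 𝕜)
    (b : Fin l ⊕ Fin k → 𝕜) (Z : Matrix (Fin (r + q)) (Fin (p + 1)) 𝕜) :
    sq (fun i => b i - app A (fun j => Z (Fin.castAdd q j) 0) i) ≤
      frob ((Matrix.of (mkB p (fun i => b (e i))) : Matrix (Fin (l + k)) (Fin (p + 1)) 𝕜) -
        (Matrix.of (mkA q (fun j i => A j (e i))) : Matrix (Fin (l + k)) (Fin (r + q)) 𝕜) * Z) := by
  unfold sq frob
  rw [← Equiv.sum_comp e]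
  refine Finset.sum_le_sum fun i _ => ?_
  have h0 := entry (q := q) (p := p) e A b Z i
  change ‖b (e i) - app A (fun j => Z (Fin.castAdd q j) 0) (e i)‖ ^ 2 ≤ _
  rw [← h0]
  exact Finset.single_le_sum (f := fun j => ‖((Matrix.of (mkB p (fun i => b (e i))) : Matrix (Fin (l + k)) (Fin (p + 1)) 𝕜) -
        (Matrix.of (mkA q (fun j i => A j (e i))) : Matrix (Fin (l + k)) (Fin (r + q)) 𝕜) * Z) i j‖ ^ 2)
    (fun j _ => by positivity) (Finset.mem_univ 0)

theorem eqFrob {l k r q p : ℕ} (e : Fin (l + k) ≃ Fin l ⊕ Fin k) (A : Fin r → Fin l ⊕ Fin k → 𝕜)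
    (b : Fin l ⊕ Fin k → 𝕜) (c : Fin r → 𝕜) :
    frob ((Matrix.of (mkB p (fun i => b (e i))) : Matrix (Fin (l + k)) (Fin (p + 1)) 𝕜) -
        (Matrix.of (mkA q (fun j i => A j (e i))) : Matrix (Fin (l + k)) (Fin (r + q)) 𝕜) *
          (Matrix.of (mkB p (Fin.append c (fun _ => 0) : Fin (r + q) → 𝕜)))) = sq (fun i => b i - app A c i) := by
  unfold sq frob
  rw [← Equiv.sum_comp e]
  refine Finset.sum_congr rfl fun i _ => ?_
  rw [Fin.sum_univ_succ, entry]
  have h0 : ∀ j : Fin p, ((Matrix.of (mkB p (fun i => b (e i))) : Matrix (Fin (l + k)) (Fin (p + 1)) 𝕜) -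
        (Matrix.of (mkA q (fun j i => A j (e i))) : Matrix (Fin (l + k)) (Fin (r + q)) 𝕜) *
          (Matrix.of (mkB p (Fin.append c (fun _ => 0) : Fin (r + q) → 𝕜)))) i j.succ = 0 := by
    intro j
    simp [Matrix.sub_apply, Matrix.mul_apply, mkB]
  simp only [h0, norm_zero]
  simp [mkB]

theorem rankA {l k r q : ℕ} (e : Fin (l + k) ≃ Fin l ⊕ Fin k) (A : Fin r → Fin l ⊕ Fin k → 𝕜)
    (hA : LinearIndependent 𝕜 A) :
    (Matrix.of (mkA q (fun j i => A j (e i))) : Matrix (Fin (l + k)) (Fin (r + q)) 𝕜).rank = r := by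
  rw [Matrix.rank_eq_finrank_span_cols]
  have h1 : Submodule.span 𝕜 (Set.range
      (Matrix.of (mkA q (fun j i => A j (e i))) : Matrix (Fin (l + k)) (Fin (r + q)) 𝕜).col) =
      Submodule.span 𝕜 (Set.range fun (j : Fin r) (i : Fin (l + k)) => A j (e i)) := by
    apply le_antisymm
    · rw [Submodule.span_le]
      rintro _ ⟨j, rfl⟩
      refine Fin.addCases (fun j => ?_) (fun j => ?_) j
      · apply Submodule.subset_span
        refine ⟨j, ?_⟩
        funext i
        simp [mkA, Matrix.col]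
      · have : (Matrix.of (mkA q (fun j i => A j (e i))) : Matrix (Fin (l + k)) (Fin (r + q)) 𝕜).col (Fin.natAdd r j) = 0 := by
          funext i
          simp [mkA, Matrix.col]
        rw [this]
        exact Submodule.zero_mem _
    · rw [Submodule.span_le]
      rintro _ ⟨j, rfl⟩
      apply Submodule.subset_span
      refine ⟨Fin.castAdd q j, ?_⟩
      funext i
      simp [mkA, Matrix.col]
  rw [h1]
  have h2 : LinearIndependent 𝕜 (fun (j : Fin r) (i : Fin (l + k)) => A j (e i)) := by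
    have := hA.map' (LinearEquiv.funCongrLeft 𝕜 𝕜 e).toLinearMap (LinearEquiv.ker _)
    exact this
  rw [finrank_span_eq_card h2, Fintype.card_fin]

end Pool.Agent.Q202.SK
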