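import Pool.Agent.Q202.SK.Stmts

set_option autoImplicit false

namespace Pool.Agent.Q202.SK.TaskCol

open MeasureTheory ProbabilityTheory Matrix Pool.Agent.Q202.SK
open scoped ENNReal

theorem main : Pool.Agent.Q202.SK.TaskCol := by
  intro hMeas hSup hUni hInv hInv2 hTop hLI 𝕜 _ _ _ γ m hG l s j hsl hm
  have hprob : IsProbabilityMeasure γ := hG.prob
  have hpG : IsProbabilityMeasure (G γ (Fin l)) := by
    unfold G
    infer_instance
  have hpGM : IsProbabilityMeasure (GM γ s (Fin l)) := by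
    unfold GM
    infer_instance
  have htopm : Measurable (fun A : Fin (s + 1) → Fin l → 𝕜 => top A j) := by
    have h1 : (fun A : Fin (s + 1) → Fin l → 𝕜 => top A j) =
        fun A => ⨆ N : ℕ, low A j ((N : ℝ) + 1) := by
      funext A
      exact ((hSup 𝕜 l (s + 1) j A).2).symm
    rw [h1]
    exact Measurable.iSup fun N => hMeas 𝕜 l (s + 1) j ((N : ℝ) + 1) (by positivity)
  have h2 : (⨆ N : ℕ, ∫⁻ A : Fin (s + 1) → Fin l → 𝕜, low A j ((N : ℝ) + 1) ∂GM γ (s + 1) (Fin l)) =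
      ∫⁻ A : Fin (s + 1) → Fin l → 𝕜, top A j ∂GM γ (s + 1) (Fin l) := by
    rw [← lintegral_iSup (fun N => hMeas 𝕜 l (s + 1) j ((N : ℝ) + 1) (by positivity))]
    · exact lintegral_congr fun A => (hSup 𝕜 l (s + 1) j A).2
    · intro N N' h A
      exact (hSup 𝕜 l (s + 1) j A).1 h
  rw [h2]
  have hmp := measurePreserving_piFinSuccAbove (n := s) (α := fun _ => Fin l → 𝕜)
    (fun _ => G γ (Fin l)) j
  set e := MeasurableEquiv.piFinSuccAbove (fun _ : Fin (s + 1) => Fin l → 𝕜) j with he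
  have h3 : ∫⁻ A : Fin (s + 1) → Fin l → 𝕜, top A j ∂GM γ (s + 1) (Fin l) =
      ∫⁻ p, top (e.symm p) j ∂((G γ (Fin l)).prod (GM γ s (Fin l))) := by
    have h4 := hmp.lintegral_comp (f := fun p => top (e.symm p) j)
      (htopm.comp e.symm.measurable)
    have h5 : ∀ A, e.symm (e A) = A := fun A => e.symm_apply_apply A
    simp only [h5] at h4
    exact h4
  have hmm : Measurable (fun p : (Fin l → 𝕜) × (Fin s → Fin l → 𝕜) => top (e.symm p) j) :=
    htopm.comp e.symm.measurable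
  rw [h3, lintegral_prod_symm _ hmm.aemeasurable]
  have h6 : ∀ᵐ S ∂GM γ s (Fin l), ENNReal.ofReal (1 / (m * ((l : ℝ) - s) - 2)) ≤
      ∫⁻ v, top (e.symm (v, S)) j ∂G γ (Fin l) := by
    have h7 := hLI 𝕜 γ m hG (Fin l) s (by simpa using hsl)
    filter_upwards [h7] with S hS
    exact hTop hUni hInv hInv2 𝕜 γ m hG l s j S hS hm
  calc ENNReal.ofReal (1 / (m * ((l : ℝ) - s) - 2))
      = ∫⁻ _, ENNReal.ofReal (1 / (m * ((l : ℝ) - s) - 2)) ∂GM γ s (Fin l) := by
        rw [lintegral_const, measure_univ, mul_one]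
    _ ≤ ∫⁻ S, ∫⁻ v, top (e.symm (v, S)) j ∂G γ (Fin l) ∂GM γ s (Fin l) := lintegral_mono_ae h6

end Pool.Agent.Q202.SK.TaskCol
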