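import Pool.Agent.Q202.SK.Stmts

set_option autoImplicit false

namespace Pool.Agent.Q202.SK.TaskFull

open MeasureTheory ProbabilityTheory Matrix Pool.Agent.Q202.SK
open scoped ENNReal

private lemma sq_nonneg' {𝕜 : Type} [RCLike 𝕜] {ι : Type} [Fintype ι] (v : ι → 𝕜) : 0 ≤ sq v :=
  Finset.sum_nonneg fun _ _ => by positivity

private lemma sq_eq {𝕜 : Type} [RCLike 𝕜] {ι : Type} [Fintype ι] (x : EuclideanSpace 𝕜 ι) :
    sq (fun i => x i) = ‖x‖ ^ 2 := by
  rw [EuclideanSpace.norm_sq_eq]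
  rfl

theorem main : Pool.Agent.Q202.SK.TaskFull := by
  intro hM 𝕜 _ _ _ γ m hγ ι _ _ r A hA
  classical
  set v : Fin r → EuclideanSpace 𝕜 ι := fun j => WithLp.toLp 2 (A j) with hv
  have hli : LinearIndependent 𝕜 v :=
    hA.map' (WithLp.linearEquiv 2 𝕜 (ι → 𝕜)).symm.toLinearMap (LinearEquiv.ker _)
  set K : Submodule 𝕜 (EuclideanSpace 𝕜 ι) := Submodule.span 𝕜 (Set.range v) with hK
  have hKr : Module.finrank 𝕜 K = r := by
    rw [hK, finrank_span_eq_card hli, Fintype.card_fin]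
  have hdim : r + Module.finrank 𝕜 Kᗮ = Fintype.card ι := by
    rw [← hKr, K.finrank_add_finrank_orthogonal, finrank_euclideanSpace]
  set b := stdOrthonormalBasis 𝕜 Kᗮ with hb
  set d := Module.finrank 𝕜 Kᗮ with hd
  set L : Matrix (Fin d) ι 𝕜 := fun k i => star ((b k : EuclideanSpace 𝕜 ι) i) with hL
  have hLz : ∀ (z : ι → 𝕜) (k : Fin d), (L *ᵥ z) k =
      inner 𝕜 (b k) (Kᗮ.orthogonalProjectionOnto (WithLp.toLp 2 z)) := by
    intro z k
    rw [Submodule.inner_orthogonalProjectionOnto_eq_of_mem_left, PiLp.inner_apply]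
    simp only [Matrix.mulVec, dotProduct, hL]
    refine Finset.sum_congr rfl fun i _ => ?_
    rw [RCLike.inner_apply, mul_comm]
    rfl
  have hsq : ∀ z : ι → 𝕜, sq (L *ᵥ z) = ‖Kᗮ.orthogonalProjectionOnto (WithLp.toLp 2 z)‖ ^ 2 := by
    intro z
    rw [← b.sum_sq_norm_inner_right]
    unfold sq
    exact Finset.sum_congr rfl fun k _ => by rw [hLz]
  have hHS : ∑ k, ∑ i, ‖L k i‖ ^ 2 = (Fintype.card ι : ℝ) - r := by
    have h1 : ∀ k, ∑ i, ‖L k i‖ ^ 2 = 1 := by
      intro k
      have h2 : ‖(b k : EuclideanSpace 𝕜 ι)‖ = 1 := b.orthonormal.1 k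
      have h3 := EuclideanSpace.norm_sq_eq (b k : EuclideanSpace 𝕜 ι)
      rw [h2, one_pow] at h3
      rw [h3]
      refine Finset.sum_congr rfl fun i _ => ?_
      rw [hL, norm_star]
    rw [Finset.sum_congr rfl fun k _ => h1 k, Finset.sum_const, Finset.card_univ, Fintype.card_fin,
      nsmul_eq_mul, mul_one]
    rw [← hdim]
    push_cast
    ring
  rw [← hHS, ← hM 𝕜 γ m hγ (Fin d) ι L]
  refine lintegral_mono fun g => ENNReal.ofReal_le_ofReal ?_
  have hmem : K.starProjection (WithLp.toLp 2 g) ∈ K := by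
    rw [Submodule.starProjection_apply]
    exact Submodule.coe_mem _
  rw [hK, Submodule.mem_span_range_iff_exists_fun, ← hK] at hmem
  obtain ⟨c, hc⟩ := hmem
  refine (ciInf_le ⟨0, ?_⟩ c).trans ?_
  · rintro _ ⟨c', rfl⟩
    exact sq_nonneg' _
  · rw [hsq]
    have h1 : (fun i => g i - app A c i) = fun i => (Kᗮ.starProjection (WithLp.toLp 2 g)) i := by
      funext i
      have h2 := K.starProjection_add_starProjection_orthogonal (WithLp.toLp 2 g)
      have h3 : (K.starProjection (WithLp.toLp 2 g)) i + (Kᗮ.starProjection (WithLp.toLp 2 g)) i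
          = g i := by
        have := congrArg (fun x : EuclideanSpace 𝕜 ι => x i) h2
        simpa using this
      have h4 : (K.starProjection (WithLp.toLp 2 g)) i = app A c i := by
        rw [← hc]
        simp [app, hv]
      rw [← h4, ← h3]
      ring
    rw [h1, sq_eq, Submodule.starProjection_apply]
    exact le_of_eq rfl

end Pool.Agent.Q202.SK.TaskFull
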