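import Pool.Agent.Q202.SK.Stmts

set_option autoImplicit false

namespace Pool.Agent.Q202.SK.TaskHouse

open MeasureTheory ProbabilityTheory Matrix
open scoped ENNReal

theorem main : Pool.Agent.Q202.SK.TaskHouse := by
  intro hmom 𝕜 _ _ _ γ m hγ ι _ _ w a haw Φ hΦ hinv
  set W : ℝ := sq w with hW
  have hW0 : 0 < W := by
    have h0 : 0 ≤ W := Finset.sum_nonneg fun i _ => sq_nonneg _
    rcases h0.lt_or_eq with h | h
    · exact h
    · exfalso
      have h1 : ∀ i, w i = 0 := by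
        intro i
        have h2 := (Finset.sum_eq_zero_iff_of_nonneg (fun i _ => sq_nonneg (‖w i‖))).1 h.symm i
          (Finset.mem_univ i)
        simpa using h2
      simp [h1] at haw
  have hW1 : (W : 𝕜) ≠ 0 := by exact_mod_cast hW0.ne'
  set lw : ι → 𝕜 := fun i => (starRingEnd 𝕜 (w i)) / (W : 𝕜) with hlw
  set L : Matrix Unit ι 𝕜 := fun _ i => lw i with hL
  set h : (ι → 𝕜) → 𝕜 := fun z => ∑ i, lw i * z i with hh
  have hlww : ∑ i, lw i * w i = 1 := by
    have h1 : ∀ i, lw i * w i = ((‖w i‖ ^ 2 : ℝ) : 𝕜) / (W : 𝕜) := by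
      intro i
      simp only [hlw]
      rw [div_mul_eq_mul_div, RCLike.conj_mul]
      push_cast
      rfl
    rw [Finset.sum_congr rfl (fun i _ => h1 i), ← Finset.sum_div, ← RCLike.ofReal_sum]
    exact div_self hW1
  set P : Matrix ι ι 𝕜 := fun i j => w i * lw j with hP
  have hPP : P * P = P := by
    ext i k
    rw [Matrix.mul_apply]
    have h1 : ∀ j, P i j * P j k = (w i * lw k) * (lw j * w j) := by
      intro j
      simp only [hP]
      ring
    rw [Finset.sum_congr rfl (fun j _ => h1 j), ← Finset.mul_sum, hlww, mul_one]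
  have hPs : star P = P := by
    ext i j
    rw [Matrix.star_apply]
    simp only [hP, hlw, RCLike.star_def, map_mul, map_div₀, RCLike.conj_conj, RCLike.conj_ofReal]
    ring
  set U : Matrix ι ι 𝕜 := 1 - (P + P) with hU
  have hUU : U ∈ Matrix.unitaryGroup ι 𝕜 := by
    rw [Matrix.mem_unitaryGroup_iff]
    have h1 : star U = U := by rw [hU, star_sub, star_one, star_add, hPs]
    rw [h1, hU]
    have h2 : (1 - (P + P)) * (1 - (P + P)) = 1 - (4 : ℕ) • P + (4 : ℕ) • (P * P) := by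
      noncomm_ring
    rw [h2, hPP]
    abel
  have hUz : ∀ z : ι → 𝕜, U *ᵥ z = fun i => z i + (-2 * h z) * w i := by
    intro z
    have h1 : P *ᵥ z = fun i => w i * h z := by
      ext i
      simp only [Matrix.mulVec, dotProduct, hP, hh, Finset.mul_sum, mul_assoc]
    rw [hU, Matrix.sub_mulVec, Matrix.one_mulVec, Matrix.add_mulVec, h1]
    ext i
    simp only [Pi.sub_apply, Pi.add_apply]
    ring
  set pf : (ι → 𝕜) → 𝕜 := fun z => (∑ i, a i * z i) - Φ z with hpf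
  have hpU : ∀ z, pf (U *ᵥ z) = pf z - 2 * h z := by
    intro z
    rw [hUz z]
    simp only [hpf]
    rw [hinv z (-2 * h z)]
    have h1 : ∀ t : 𝕜, ∑ i, a i * (z i + t * w i) =
        ∑ i, a i * z i + t * ∑ i, a i * w i := by
      intro t
      rw [Finset.mul_sum, ← Finset.sum_add_distrib]
      exact Finset.sum_congr rfl fun i _ => by ring
    rw [h1, haw]
    ring
  have hml : ∀ v : ι → 𝕜, Measurable fun z : ι → 𝕜 => ∑ i, v i * z i := by
    intro v
    exact Finset.measurable_sum _ fun i _ => (measurable_pi_apply i).const_mul _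
  have hmU : Measurable fun z : ι → 𝕜 => U *ᵥ z := by
    refine measurable_pi_lambda _ fun i => ?_
    exact hml (fun j => U i j)
  have hmp : Measurable pf := (hml a).sub hΦ
  have hmf : Measurable fun z => ENNReal.ofReal (‖pf z‖ ^ 2) :=
    (hmp.norm.pow_const 2).ennreal_ofReal
  have hrot : ∫⁻ z, ENNReal.ofReal (‖pf (U *ᵥ z)‖ ^ 2) ∂G γ ι =
      ∫⁻ z, ENNReal.ofReal (‖pf z‖ ^ 2) ∂G γ ι := by
    have h1 := lintegral_map (μ := G γ ι) hmf hmU
    rw [hγ.rot ι U hUU] at h1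
    exact h1.symm
  have hpt : ∀ z, ENNReal.ofReal (‖h z‖ ^ 2) + ENNReal.ofReal (‖h z‖ ^ 2) ≤
      ENNReal.ofReal (‖pf z‖ ^ 2) + ENNReal.ofReal (‖pf (U *ᵥ z)‖ ^ 2) := by
    intro z
    rw [← ENNReal.ofReal_add (by positivity) (by positivity),
      ← ENNReal.ofReal_add (by positivity) (by positivity)]
    refine ENNReal.ofReal_le_ofReal ?_
    rw [hpU z]
    have h1 : 2 * ‖h z‖ ≤ ‖pf z‖ + ‖pf z - 2 * h z‖ := by
      calc 2 * ‖h z‖ = ‖(2 : 𝕜) * h z‖ := by
            rw [norm_mul]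
            congr 1
            simp
        _ = ‖pf z - (pf z - 2 * h z)‖ := by
            congr 1
            ring
        _ ≤ _ := norm_sub_le _ _
    nlinarith [norm_nonneg (h z), norm_nonneg (pf z), norm_nonneg (pf z - 2 * h z),
      sq_nonneg (‖pf z‖ - ‖pf z - 2 * h z‖)]
  have hmh : Measurable fun z => ENNReal.ofReal (‖h z‖ ^ 2) :=
    ((hml lw).norm.pow_const 2).ennreal_ofReal
  have hsum : ∫⁻ z, ENNReal.ofReal (‖h z‖ ^ 2) ∂G γ ι + ∫⁻ z, ENNReal.ofReal (‖h z‖ ^ 2) ∂G γ ι ≤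
      ∫⁻ z, ENNReal.ofReal (‖pf z‖ ^ 2) ∂G γ ι + ∫⁻ z, ENNReal.ofReal (‖pf z‖ ^ 2) ∂G γ ι := by
    calc _ = ∫⁻ z, (ENNReal.ofReal (‖h z‖ ^ 2) + ENNReal.ofReal (‖h z‖ ^ 2)) ∂G γ ι :=
          (lintegral_add_left hmh _).symm
      _ ≤ ∫⁻ z, (ENNReal.ofReal (‖pf z‖ ^ 2) + ENNReal.ofReal (‖pf (U *ᵥ z)‖ ^ 2)) ∂G γ ι :=
          lintegral_mono hpt
      _ = _ := by rw [lintegral_add_left hmf, hrot]
  have hfin : ∫⁻ z, ENNReal.ofReal (‖h z‖ ^ 2) ∂G γ ι ≤
      ∫⁻ z, ENNReal.ofReal (‖pf z‖ ^ 2) ∂G γ ι :=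
    le_of_not_gt fun hlt => absurd hsum (not_le.2 (ENNReal.add_lt_add hlt hlt))
  have hm := hmom 𝕜 γ m hγ Unit ι L
  have h1 : ∀ z : ι → 𝕜, sq (L *ᵥ z) = ‖h z‖ ^ 2 := by
    intro z
    unfold sq
    simp only [Finset.univ_unique, Finset.sum_singleton]
    rfl
  have h2 : ∑ i : Unit, ∑ j, ‖L i j‖ ^ 2 = 1 / W := by
    simp only [Finset.univ_unique, Finset.sum_singleton]
    have h3 : ∀ j, ‖L default j‖ ^ 2 = ‖w j‖ ^ 2 / W ^ 2 := by
      intro j
      simp only [hL, hlw]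
      rw [norm_div, RCLike.norm_conj, RCLike.norm_ofReal, abs_of_pos hW0, div_pow]
    rw [Finset.sum_congr rfl (fun j _ => h3 j), ← Finset.sum_div]
    change W / W ^ 2 = 1 / W
    field_simp
  simp only [h1, h2] at hm
  rw [mul_one_div] at hm
  rw [← hm]
  exact hfin

end Pool.Agent.Q202.SK.TaskHouse
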