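import Mathlib

/-! # MP_467638_an: sketch-and-solve is optimal among all algorithms. Blueprint (helper202)

Idea: fix the embedding. Columns `A j` (j : Fin r) iid Gaussian vectors, `b = A (τ x) + g` with `x, g` Gaussian, `τ → ∞`. Only a
rotated half (`Fin ℓ`) of the rows is observed. All functions are `lintegral`s of `ENNReal.ofReal` of squares. -/

set_option autoImplicit false

namespace Pool.Agent.Q202.SK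

open MeasureTheory ProbabilityTheory Matrix
open scoped ENNReal

/-- squared Euclidean norm -/
noncomputable def sq {𝕜 : Type} [RCLike 𝕜] {ι : Type} [Fintype ι] (v : ι → 𝕜) : ℝ := ∑ i, ‖v i‖ ^ 2

/-- iid vector with the law `γ` -/
noncomputable def G {𝕜 : Type} [MeasurableSpace 𝕜] (γ : Measure 𝕜) (ι : Type) [Fintype ι] : Measure (ι → 𝕜) :=
  Measure.pi fun _ => γ

/-- `r` iid columns -/
noncomputable def GM {𝕜 : Type} [MeasurableSpace 𝕜] (γ : Measure 𝕜) (r : ℕ) (ι : Type) [Fintype ι] :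
    Measure (Fin r → ι → 𝕜) :=
  Measure.pi fun _ => G γ ι

/-- the vector `A c` for a matrix given by its columns `A j` -/
def app {𝕜 : Type} [RCLike 𝕜] {ι : Type} {r : ℕ} (A : Fin r → ι → 𝕜) (c : Fin r → 𝕜) : ι → 𝕜 := fun i => ∑ j, c j * A j i

/-- standard Gaussian of real dimension `m` -/
structure Gau (𝕜 : Type) [RCLike 𝕜] [MeasurableSpace 𝕜] (γ : Measure 𝕜) (m : ℝ) : Prop where
  prob : IsProbabilityMeasure γ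
  pos : 0 < m
  rot : ∀ (ι : Type) [Fintype ι] [DecidableEq ι] (U : Matrix ι ι 𝕜), U ∈ Matrix.unitaryGroup ι 𝕜 →
    (G γ ι).map (fun z => U *ᵥ z) = G γ ι
  mom : ∫⁻ z, ENNReal.ofReal (‖z‖ ^ 2) ∂γ = ENNReal.ofReal m
  lap : ∀ t : ℝ, 0 ≤ t → ∫⁻ z, ENNReal.ofReal (Real.exp (-t * ‖z‖ ^ 2)) ∂γ = ENNReal.ofReal ((1 + 2 * t) ^ (-m / 2))
  null : ∀ z, γ {z} = 0

/-- complex Gaussian, both coordinates standard -/
noncomputable def gC : Measure ℂ :=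
  ((gaussianReal 0 1).prod (gaussianReal 0 1)).map (fun p : ℝ × ℝ => (p.1 : ℂ) + (p.2 : ℂ) * Complex.I)

/-- real: `stdGaussian_map`, `map_pi_eq_stdGaussian` in Mathlib (Gaussian/Multivariate) -/
def TaskRotR : Prop := ∀ (ι : Type) [Fintype ι] [DecidableEq ι] (U : Matrix ι ι ℝ), U ∈ Matrix.unitaryGroup ι ℝ →
    (G (gaussianReal 0 1) ι).map (fun z => U *ᵥ z) = G (gaussianReal 0 1) ι

/-- complex: real and imaginary parts, real orthogonal matrix on `ι ⊕ ι`; or via `stdGaussian (EuclideanSpace ℂ ι)` -/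
def TaskRotC : Prop := TaskRotR → ∀ (ι : Type) [Fintype ι] [DecidableEq ι] (U : Matrix ι ι ℂ), U ∈ Matrix.unitaryGroup ι ℂ →
    (G gC ι).map (fun z => U *ᵥ z) = G gC ι

def TaskMomR : Prop := ∫⁻ z, ENNReal.ofReal (‖z‖ ^ 2) ∂(gaussianReal 0 1) = ENNReal.ofReal 1

def TaskMomC : Prop := TaskMomR → ∫⁻ z, ENNReal.ofReal (‖z‖ ^ 2) ∂gC = ENNReal.ofReal 2

def TaskLapR : Prop := ∀ t : ℝ, 0 ≤ t →
  ∫⁻ z, ENNReal.ofReal (Real.exp (-t * ‖z‖ ^ 2)) ∂(gaussianReal 0 1) = ENNReal.ofReal ((1 + 2 * t) ^ (-(1 : ℝ) / 2))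

def TaskLapC : Prop := TaskLapR → ∀ t : ℝ, 0 ≤ t →
  ∫⁻ z, ENNReal.ofReal (Real.exp (-t * ‖z‖ ^ 2)) ∂gC = ENNReal.ofReal ((1 + 2 * t) ^ (-(2 : ℝ) / 2))

/-- `1/s = ∫_0^∞ exp(-t s) dt`, Tonelli, product of the Laplace transforms, `∫_0^∞ (1+2t)^(-K/2) dt = 1/(K-2)`, `K = m k` -/
def TaskInv : Prop := ∀ (𝕜 : Type) [RCLike 𝕜] [MeasurableSpace 𝕜] [BorelSpace 𝕜] (γ : Measure 𝕜) (m : ℝ), Gau 𝕜 γ m →
  ∀ k : ℕ, 2 < m * k → ENNReal.ofReal (1 / (m * k - 2)) ≤ ∫⁻ z, (ENNReal.ofReal (sq z))⁻¹ ∂G γ (Fin k)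

/-- the same for the coordinates `≥ s` of a vector (marginal; `n = s + k`) -/
def TaskInv2 : Prop := TaskInv → ∀ (𝕜 : Type) [RCLike 𝕜] [MeasurableSpace 𝕜] [BorelSpace 𝕜] (γ : Measure 𝕜) (m : ℝ),
  Gau 𝕜 γ m → ∀ (s n : ℕ), s ≤ n → 2 < m * ((n : ℝ) - s) → ENNReal.ofReal (1 / (m * ((n : ℝ) - s) - 2)) ≤
    ∫⁻ z : Fin n → 𝕜, (ENNReal.ofReal (∑ i : Fin n, if s ≤ (i : ℕ) then ‖z i‖ ^ 2 else 0))⁻¹ ∂G γ (Fin n)

/-- second moment of a linear image (cross terms vanish by the rotation `diag(1,..,-1,..,1)`, or by mean zero) -/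
def TaskMomL : Prop := ∀ (𝕜 : Type) [RCLike 𝕜] [MeasurableSpace 𝕜] [BorelSpace 𝕜] (γ : Measure 𝕜) (m : ℝ), Gau 𝕜 γ m →
  ∀ (κ ι : Type) [Fintype κ] [Fintype ι] [DecidableEq ι] (L : Matrix κ ι 𝕜),
    ∫⁻ z, ENNReal.ofReal (sq (L *ᵥ z)) ∂G γ ι = ENNReal.ofReal (m * ∑ i, ∑ j, ‖L i j‖ ^ 2)

/-- the unobserved rows -/
def TaskInner : Prop := TaskMomL → ∀ (𝕜 : Type) [RCLike 𝕜] [MeasurableSpace 𝕜] [BorelSpace 𝕜] (γ : Measure 𝕜) (m : ℝ),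
  Gau 𝕜 γ m → ∀ (r k : ℕ) (v : Fin r → 𝕜),
    ∫⁻ A, ∫⁻ g, ENNReal.ofReal (sq (fun i => g i + app A v i)) ∂G γ (Fin k) ∂GM γ r (Fin k) =
      ENNReal.ofReal (m * k * (1 + sq v))

/-- Gaussian columns are linearly independent (a proper subspace is a null set; induction on `r`) -/
def TaskLI : Prop := ∀ (𝕜 : Type) [RCLike 𝕜] [MeasurableSpace 𝕜] [BorelSpace 𝕜] (γ : Measure 𝕜) (m : ℝ), Gau 𝕜 γ m →
  ∀ (ι : Type) [Fintype ι] [DecidableEq ι] (r : ℕ), r ≤ Fintype.card ι → ∀ᵐ A ∂GM γ r ι, LinearIndependent 𝕜 A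

/-- Householder: `Φ` does not see the direction `w`, so the component of a linear functional in this direction cannot be
estimated. Reflect `z ↦ z - 2 <w,z> w/‖w‖²` (unitary), `‖p‖² + ‖p - 2h‖² ≥ 2‖h‖²`, `h = <w,z>/‖w‖²`, `E|h|² = m/‖w‖²` (TaskMomL). -/
def TaskHouse : Prop := TaskMomL → ∀ (𝕜 : Type) [RCLike 𝕜] [MeasurableSpace 𝕜] [BorelSpace 𝕜] (γ : Measure 𝕜) (m : ℝ),
  Gau 𝕜 γ m → ∀ (ι : Type) [Fintype ι] [DecidableEq ι] (w a : ι → 𝕜), ∑ i, a i * w i = 1 →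
    ∀ Φ : (ι → 𝕜) → 𝕜, Measurable Φ → (∀ (z : ι → 𝕜) (t : 𝕜), Φ (fun i => z i + t * w i) = Φ z) →
      ENNReal.ofReal (m / sq w) ≤ ∫⁻ z, ENNReal.ofReal (‖(∑ i, a i * z i) - Φ z‖ ^ 2) ∂G γ ι

/-- apply `TaskHouse` on `Fin r ⊕ Fin ℓ` to `w = (c/τ, -A c)`, `a = τ e_j` (the measure of `(x, g)` is `G γ (Fin r ⊕ Fin ℓ)`) -/
def TaskRefl : Prop := TaskHouse → TaskMomL → ∀ (𝕜 : Type) [RCLike 𝕜] [MeasurableSpace 𝕜] [BorelSpace 𝕜] (γ : Measure 𝕜)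
  (m : ℝ), Gau 𝕜 γ m → ∀ (l r : ℕ) (A : Fin r → Fin l → 𝕜) (τ : ℝ), 0 < τ → ∀ (j : Fin r) (c : Fin r → 𝕜), c j = 1 →
    ∀ f : (Fin l → 𝕜) → 𝕜, Measurable f → ENNReal.ofReal (m / (sq (app A c) + sq c / τ ^ 2)) ≤
      ∫⁻ x, ∫⁻ g, ENNReal.ofReal (‖(τ : 𝕜) * x j - f (fun i => app A (fun j => (τ : 𝕜) * x j) i + g i)‖ ^ 2)
        ∂G γ (Fin l) ∂G γ (Fin r)

/-- lower bound for the Bayes risk of the coordinate `j` (up to the factor `m`) -/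
noncomputable def low {𝕜 : Type} [RCLike 𝕜] {ι : Type} [Fintype ι] {r : ℕ} (A : Fin r → ι → 𝕜) (j : Fin r) (τ : ℝ) : ℝ≥0∞ :=
  ⨆ c : {c : Fin r → 𝕜 // c j = 1}, ENNReal.ofReal (1 / (sq (app A c.1) + sq c.1 / τ ^ 2))

/-- its limit -/
noncomputable def top {𝕜 : Type} [RCLike 𝕜] {ι : Type} [Fintype ι] {r : ℕ} (A : Fin r → ι → 𝕜) (j : Fin r) : ℝ≥0∞ :=
  ⨆ c : {c : Fin r → 𝕜 // c j = 1}, (ENNReal.ofReal (sq (app A c.1)))⁻¹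

/-- supremum of continuous functions: lower semicontinuous, `LowerSemicontinuous.measurable` -/
def TaskMeas : Prop := ∀ (𝕜 : Type) [RCLike 𝕜] [MeasurableSpace 𝕜] [BorelSpace 𝕜] (l r : ℕ) (j : Fin r) (τ : ℝ), 0 < τ →
  Measurable (fun A : Fin r → Fin l → 𝕜 => low A j τ)

def TaskSup : Prop := ∀ (𝕜 : Type) [RCLike 𝕜] (l r : ℕ) (j : Fin r) (A : Fin r → Fin l → 𝕜),
  (Monotone fun N : ℕ => low A j ((N : ℝ) + 1)) ∧ ⨆ N : ℕ, low A j ((N : ℝ) + 1) = top A j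

/-- a unitary matrix which maps the span of `S` onto the first `s` coordinates -/
def TaskUni : Prop := ∀ (𝕜 : Type) [RCLike 𝕜] (s n : ℕ) (S : Fin s → Fin n → 𝕜), LinearIndependent 𝕜 S →
  ∃ U ∈ Matrix.unitaryGroup (Fin n) 𝕜, ∀ v : Fin n → 𝕜, ∃ c : Fin s → 𝕜, ∀ i : Fin n,
    (U *ᵥ (fun i => v i - app S c i)) i = if s ≤ (i : ℕ) then (U *ᵥ v) i else 0

/-- inverse squared distance of a Gaussian vector from the span of `s` independent vectors -/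
def TaskTop : Prop := TaskUni → TaskInv → TaskInv2 → ∀ (𝕜 : Type) [RCLike 𝕜] [MeasurableSpace 𝕜] [BorelSpace 𝕜]
  (γ : Measure 𝕜) (m : ℝ), Gau 𝕜 γ m → ∀ (l s : ℕ) (j : Fin (s + 1)) (S : Fin s → Fin l → 𝕜), LinearIndependent 𝕜 S →
    2 < m * ((l : ℝ) - s) → ENNReal.ofReal (1 / (m * ((l : ℝ) - s) - 2)) ≤
      ∫⁻ v, top (j.insertNth v S : Fin (s + 1) → Fin l → 𝕜) j ∂G γ (Fin l)

/-- monotone convergence, `measurePreserving_piFinSuccAbove`, TaskLI for the other columns -/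
def TaskCol : Prop := TaskMeas → TaskSup → TaskUni → TaskInv → TaskInv2 → TaskTop → TaskLI → ∀ (𝕜 : Type) [RCLike 𝕜]
  [MeasurableSpace 𝕜] [BorelSpace 𝕜] (γ : Measure 𝕜) (m : ℝ), Gau 𝕜 γ m → ∀ (l s : ℕ) (j : Fin (s + 1)), s ≤ l →
    2 < m * ((l : ℝ) - s) → ENNReal.ofReal (1 / (m * ((l : ℝ) - s) - 2)) ≤
      ⨆ N : ℕ, ∫⁻ A : Fin (s + 1) → Fin l → 𝕜, low A j ((N : ℝ) + 1) ∂GM γ (s + 1) (Fin l)

/-- the observed rows: orthogonal projection onto the complement of the span of the columns -/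
def TaskProj : Prop := TaskMomL → ∀ (𝕜 : Type) [RCLike 𝕜] [MeasurableSpace 𝕜] [BorelSpace 𝕜] (γ : Measure 𝕜) (m : ℝ),
  Gau 𝕜 γ m → ∀ (l r : ℕ) (A : Fin r → Fin l → 𝕜) (x : Fin r → 𝕜) (F : (Fin l → 𝕜) → Fin r → 𝕜),
    ENNReal.ofReal (m * ((l : ℝ) - r)) ≤ ∫⁻ g, ENNReal.ofReal (sq (fun i => app A x i + g i -
      app A (F (fun i => app A x i + g i)) i)) ∂G γ (Fin l)

/-- the optimal residual -/
def TaskFull : Prop := TaskMomL → ∀ (𝕜 : Type) [RCLike 𝕜] [MeasurableSpace 𝕜] [BorelSpace 𝕜] (γ : Measure 𝕜) (m : ℝ),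
  Gau 𝕜 γ m → ∀ (ι : Type) [Fintype ι] [DecidableEq ι] (r : ℕ) (A : Fin r → ι → 𝕜), LinearIndependent 𝕜 A →
    ∫⁻ g, ENNReal.ofReal (⨅ c : Fin r → 𝕜, sq (fun i => g i - app A c i)) ∂G γ ι ≤
      ENNReal.ofReal (m * ((Fintype.card ι : ℝ) - r))

/-- `QR`: the data `Ωᴴ v` depend only on the first `ℓ` coordinates of `Q v` (no rank condition) -/
def TaskOmega : Prop := ∀ (𝕜 : Type) [RCLike 𝕜] (l k : ℕ) (Ω : Matrix (Fin l ⊕ Fin k) (Fin l) 𝕜),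
  ∃ Q ∈ Matrix.unitaryGroup (Fin l ⊕ Fin k) 𝕜, ∃ R : Matrix (Fin l) (Fin l) 𝕜, ∀ v : Fin l ⊕ Fin k → 𝕜,
    Ωᴴ *ᵥ v = R *ᵥ (fun i => (Q *ᵥ v) (Sum.inl i))

def TaskRotAll : Prop := ∀ (𝕜 : Type) [RCLike 𝕜] [MeasurableSpace 𝕜] [BorelSpace 𝕜] (γ : Measure 𝕜) (m : ℝ), Gau 𝕜 γ m →
  ∀ (ι : Type) [Fintype ι] [DecidableEq ι] (r : ℕ) (Q : Matrix ι ι 𝕜), Q ∈ Matrix.unitaryGroup ι 𝕜 →
    ∀ Ψ : (Fin r → ι → 𝕜) → (ι → 𝕜) → ℝ≥0∞, Measurable (Function.uncurry Ψ) →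
      ∫⁻ A, ∫⁻ g, Ψ (fun j => Q *ᵥ A j) (Q *ᵥ g) ∂G γ ι ∂GM γ r ι = ∫⁻ A, ∫⁻ g, Ψ A g ∂G γ ι ∂GM γ r ι

def TaskSplit : Prop := ∀ (𝕜 : Type) [RCLike 𝕜] [MeasurableSpace 𝕜] [BorelSpace 𝕜] (γ : Measure 𝕜) (m : ℝ), Gau 𝕜 γ m →
  ∀ (l k r : ℕ) (Ψ : (Fin r → (Fin l ⊕ Fin k) → 𝕜) → ((Fin l ⊕ Fin k) → 𝕜) → ℝ≥0∞), Measurable (Function.uncurry Ψ) →
    ∫⁻ A, ∫⁻ g, Ψ A g ∂G γ (Fin l ⊕ Fin k) ∂GM γ r (Fin l ⊕ Fin k) =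
      ∫⁻ A₁, ∫⁻ g₁, ∫⁻ A₂, ∫⁻ g₂, Ψ (fun j => Sum.elim (A₁ j) (A₂ j)) (Sum.elim g₁ g₂)
        ∂G γ (Fin k) ∂GM γ r (Fin k) ∂G γ (Fin l) ∂GM γ r (Fin l)

/-- the core: Bayes risk for one embedding `Ω` (TaskOmega, TaskRotAll, TaskSplit, TaskInner, TaskProj, TaskRefl) -/
def TaskCore : Prop := TaskOmega → TaskRotAll → TaskSplit → TaskMomL → TaskInner → TaskProj → TaskHouse → TaskRefl →
  TaskMeas → ∀ (𝕜 : Type) [RCLike 𝕜] [MeasurableSpace 𝕜] [BorelSpace 𝕜] (γ : Measure 𝕜) (m : ℝ), Gau 𝕜 γ m →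
  ∀ (l k r : ℕ), r ≤ l → ∀ (Ω : Matrix (Fin l ⊕ Fin k) (Fin l) 𝕜) (X : (Fin r → Fin l → 𝕜) → (Fin l → 𝕜) → Fin r → 𝕜),
    Measurable (Function.uncurry X) → ∀ τ : ℝ, 0 < τ →
    ENNReal.ofReal (m * ((l : ℝ) - r) + m * k) +
        ENNReal.ofReal (m * k) * ∑ j, ENNReal.ofReal m * ∫⁻ A : Fin r → Fin l → 𝕜, low A j τ ∂GM γ r (Fin l) ≤
      ∫⁻ A, ∫⁻ x, ∫⁻ g, ENNReal.ofReal (sq (fun i => app A (fun j => (τ : 𝕜) * x j) i + g i - app A (X (fun j => Ωᴴ *ᵥ A j)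
        (Ωᴴ *ᵥ (fun i => app A (fun j => (τ : 𝕜) * x j) i + g i))) i))
        ∂G γ (Fin l ⊕ Fin k) ∂G γ (Fin r) ∂GM γ r (Fin l ⊕ Fin k)

end Pool.Agent.Q202.SK
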