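import Mathlib
import Pool.Agent.Q202.SK.Stmts

/-! # TaskInner of the blueprint Q202/SK (helper161) -/

open MeasureTheory ProbabilityTheory Matrix
open scoped ENNReal

namespace Pool.Agent.Q202.SK.TaskInner

variable {𝕜 : Type} [RCLike 𝕜]

lemma sq_nonneg' {ι : Type} [Fintype ι] (a : ι → 𝕜) : 0 ≤ sq a :=
  Finset.sum_nonneg fun i _ => by positivity

lemma para {ι : Type} [Fintype ι] (a b : ι → 𝕜) :
    sq (fun i => a i + b i) + sq (fun i => -(a i) + b i) = 2 * (sq a + sq b) := by
  unfold sq
  rw [← Finset.sum_add_distrib, ← Finset.sum_add_distrib, Finset.mul_sum]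
  refine Finset.sum_congr rfl fun i _ => ?_
  have h := parallelogram_law_with_norm 𝕜 (b i) (a i)
  have h1 : a i + b i = b i + a i := add_comm _ _
  have h2 : -(a i) + b i = b i - a i := by ring
  show ‖a i + b i‖ ^ 2 + ‖-(a i) + b i‖ ^ 2 = _
  rw [h1, h2]
  linarith [h]

variable [MeasurableSpace 𝕜] [BorelSpace 𝕜]

lemma meas_sq {α : Type} [MeasurableSpace α] {ι : Type} [Fintype ι] (f : α → ι → 𝕜)
    (hf : ∀ i, Measurable (fun x => f x i)) :
    Measurable (fun x => ENNReal.ofReal (sq (f x))) := by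
  unfold sq
  apply ENNReal.measurable_ofReal.comp
  exact Finset.measurable_sum _ (fun i _ => ((hf i).norm).pow_const 2)

lemma shift (hM : TaskMomL) (γ : Measure 𝕜) (m : ℝ) (hγ : Gau 𝕜 γ m) (k : ℕ) (c : 𝕜)
    (a : Fin k → 𝕜) :
    ∫⁻ g, ENNReal.ofReal (sq (fun i => c * g i + a i)) ∂G γ (Fin k) =
      ENNReal.ofReal (m * k * ‖c‖ ^ 2) + ENNReal.ofReal (sq a) := by
  haveI := hγ.prob
  haveI hp : IsProbabilityMeasure (G γ (Fin k)) := by unfold G; infer_instance
  have hI : ∫⁻ g, ENNReal.ofReal (sq (fun i => c * g i + a i)) ∂G γ (Fin k) =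
      ∫⁻ g, ENNReal.ofReal (sq (fun i => -(c * g i) + a i)) ∂G γ (Fin k) := by
    have hrot := hγ.rot (Fin k) (-1) (by simp [Matrix.mem_unitaryGroup_iff])
    have hneg : (fun z : Fin k → 𝕜 => (-1 : Matrix (Fin k) (Fin k) 𝕜) *ᵥ z) =
        fun z i => -(z i) := by
      funext z i
      simp [Matrix.neg_mulVec]
    rw [hneg] at hrot
    conv_lhs => rw [← hrot]
    rw [lintegral_map]
    · refine lintegral_congr fun g => ?_
      congr 2
      funext i
      ring
    · exact meas_sq _ (fun i => (measurable_const.mul (measurable_pi_apply i)).add measurable_const)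
    · exact measurable_pi_lambda _ (fun i => (measurable_pi_apply i).neg)
  have hL := hM 𝕜 γ m hγ (Fin k) (Fin k) (c • (1 : Matrix (Fin k) (Fin k) 𝕜))
  have hsum : ∑ i, ∑ j, ‖(c • (1 : Matrix (Fin k) (Fin k) 𝕜)) i j‖ ^ 2 = k * ‖c‖ ^ 2 := by
    have : ∀ i : Fin k, ∑ j, ‖(c • (1 : Matrix (Fin k) (Fin k) 𝕜)) i j‖ ^ 2 = ‖c‖ ^ 2 := by
      intro i
      rw [Finset.sum_eq_single i]
      · simp
      · intro j _ hj
        simp [Matrix.one_apply_ne hj.symm]
      · simp
    rw [Finset.sum_congr rfl (fun i _ => this i)]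
    simp
  rw [hsum] at hL
  have hL' : ∫⁻ z, ENNReal.ofReal (sq (fun i => c * z i)) ∂G γ (Fin k) =
      ENNReal.ofReal (m * k * ‖c‖ ^ 2) := by
    rw [mul_assoc, ← hL]
    refine lintegral_congr fun g => ?_
    congr 2
    funext i
    simp [Matrix.smul_mulVec]
  have hm1 : Measurable fun g : Fin k → 𝕜 => ENNReal.ofReal (sq (fun i => c * g i + a i)) :=
    meas_sq _ (fun i => (measurable_const.mul (measurable_pi_apply i)).add measurable_const)
  have hm0 : Measurable fun g : Fin k → 𝕜 => ENNReal.ofReal (sq (fun i => c * g i)) :=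
    meas_sq _ (fun i => measurable_const.mul (measurable_pi_apply i))
  have hII : 2 * ∫⁻ g, ENNReal.ofReal (sq (fun i => c * g i + a i)) ∂G γ (Fin k) =
      2 * (ENNReal.ofReal (m * k * ‖c‖ ^ 2) + ENNReal.ofReal (sq a)) := by
    calc 2 * ∫⁻ g, ENNReal.ofReal (sq (fun i => c * g i + a i)) ∂G γ (Fin k)
        = ∫⁻ g, ENNReal.ofReal (sq (fun i => c * g i + a i)) ∂G γ (Fin k) +
          ∫⁻ g, ENNReal.ofReal (sq (fun i => -(c * g i) + a i)) ∂G γ (Fin k) := by
          rw [← hI, two_mul]
      _ = ∫⁻ g, (ENNReal.ofReal (sq (fun i => c * g i + a i)) +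
            ENNReal.ofReal (sq (fun i => -(c * g i) + a i))) ∂G γ (Fin k) := by
          rw [lintegral_add_left hm1]
      _ = ∫⁻ g, (2 * ENNReal.ofReal (sq (fun i => c * g i)) + 2 * ENNReal.ofReal (sq a))
            ∂G γ (Fin k) := by
          refine lintegral_congr fun g => ?_
          rw [← ENNReal.ofReal_add (sq_nonneg' _) (sq_nonneg' _), para (fun i => c * g i) a,
            ENNReal.ofReal_mul (by norm_num), ENNReal.ofReal_add (sq_nonneg' _) (sq_nonneg' _),
            mul_add]
          simp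
      _ = 2 * (ENNReal.ofReal (m * k * ‖c‖ ^ 2) + ENNReal.ofReal (sq a)) := by
          rw [lintegral_add_right _ measurable_const, lintegral_const_mul _ hm0, hL',
            lintegral_const, measure_univ, mul_one, mul_add]
  exact (ENNReal.mul_right_inj two_ne_zero ENNReal.ofNat_ne_top).mp hII

lemma cols (hM : TaskMomL) (γ : Measure 𝕜) (m : ℝ) (hγ : Gau 𝕜 γ m) (k : ℕ) :
    ∀ (r : ℕ) (v : Fin r → 𝕜), ∫⁻ A, ENNReal.ofReal (sq (app A v)) ∂GM γ r (Fin k) =
      ENNReal.ofReal (m * k * sq v) := by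
  haveI := hγ.prob
  haveI hp : IsProbabilityMeasure (G γ (Fin k)) := by unfold G; infer_instance
  have hmk : 0 ≤ m * k := mul_nonneg hγ.pos.le (Nat.cast_nonneg k)
  intro r
  induction r with
  | zero =>
    intro v
    have : ∀ A : Fin 0 → Fin k → 𝕜, sq (app A v) = 0 := by
      intro A
      simp [app, sq]
    simp only [this]
    simp [sq]
  | succ r ih =>
    intro v
    haveI hp2 : IsProbabilityMeasure (GM γ r (Fin k)) := by unfold GM; infer_instance
    have hmp := measurePreserving_piFinSuccAbove (fun _ : Fin (r + 1) => G γ (Fin k)) 0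
    have hmeas : Measurable fun p : (Fin k → 𝕜) × (Fin r → Fin k → 𝕜) =>
        ENNReal.ofReal (sq (fun i => v 0 * p.1 i + app p.2 (fun j => v j.succ) i)) := by
      apply meas_sq
      intro i
      apply Measurable.add
      · have h0 : Measurable fun p : (Fin k → 𝕜) × (Fin r → Fin k → 𝕜) => p.1 i :=
          (measurable_pi_apply i).comp measurable_fst
        exact measurable_const.mul h0
      · unfold app
        refine Finset.measurable_sum _ (fun j _ => ?_)
        have h0 : Measurable fun p : (Fin k → 𝕜) × (Fin r → Fin k → 𝕜) => p.2 j :=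
          (measurable_pi_apply j).comp measurable_snd
        have h00 : Measurable fun p : (Fin k → 𝕜) × (Fin r → Fin k → 𝕜) => p.2 j i :=
          (measurable_pi_apply i).comp h0
        exact measurable_const.mul h00
    have h1 := hmp.lintegral_comp hmeas
    have h2 : ∫⁻ A, ENNReal.ofReal (sq (app A v)) ∂GM γ (r + 1) (Fin k) =
        ∫⁻ p : (Fin k → 𝕜) × (Fin r → Fin k → 𝕜),
          ENNReal.ofReal (sq (fun i => v 0 * p.1 i + app p.2 (fun j => v j.succ) i))
          ∂((G γ (Fin k)).prod (GM γ r (Fin k))) := by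
      refine Eq.trans ?_ h1
      refine lintegral_congr fun A => ?_
      congr 2
      funext i
      simp [app, Fin.sum_univ_succ, MeasurableEquiv.piFinSuccAbove, Fin.tail]
    rw [h2, lintegral_prod_symm' _ hmeas]
    simp only [shift hM γ m hγ k]
    rw [lintegral_add_left measurable_const, lintegral_const, measure_univ, mul_one, ih,
      ← ENNReal.ofReal_add (by positivity) (mul_nonneg hmk (sq_nonneg' _))]
    congr 1
    rw [← mul_add]
    congr 1
    simp [sq, Fin.sum_univ_succ]

theorem main : Pool.Agent.Q202.SK.TaskInner := by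
  intro hM 𝕜 _ _ _ γ m hγ r k v
  haveI := hγ.prob
  haveI hp : IsProbabilityMeasure (G γ (Fin k)) := by unfold G; infer_instance
  haveI hp2 : IsProbabilityMeasure (GM γ r (Fin k)) := by unfold GM; infer_instance
  have hmk : 0 ≤ m * k := mul_nonneg hγ.pos.le (Nat.cast_nonneg k)
  have h : ∀ A : Fin r → Fin k → 𝕜,
      ∫⁻ g, ENNReal.ofReal (sq (fun i => g i + app A v i)) ∂G γ (Fin k) =
        ENNReal.ofReal (m * k) + ENNReal.ofReal (sq (app A v)) := by
    intro A
    have := shift hM γ m hγ k 1 (app A v)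
    simpa using this
  simp only [h]
  rw [lintegral_add_left measurable_const, lintegral_const, measure_univ, mul_one,
    cols hM γ m hγ k r v, ← ENNReal.ofReal_add hmk (mul_nonneg hmk (sq_nonneg' _))]
  congr 1
  ring

end Pool.Agent.Q202.SK.TaskInner
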