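import Pool.Agent.Q202.SK.Stmts

set_option autoImplicit false

namespace Pool.Agent.Q202.SK.TaskInv

open MeasureTheory ProbabilityTheory Matrix Set Filter Topology
open scoped ENNReal

theorem gen (g g' : ℝ → ℝ) (h : ∀ x ∈ Ici (0:ℝ), HasDerivAt g (g' x) x) (hp : ∀ x ∈ Ioi (0:ℝ), 0 ≤ g' x)
    (hl : Tendsto g atTop (𝓝 0)) : ∫⁻ t in Ioi (0:ℝ), ENNReal.ofReal (g' t) = ENNReal.ofReal (-(g 0)) := by
  have hi := integrableOn_Ioi_deriv_of_nonneg' h hp hl
  have he := integral_Ioi_of_hasDerivAt_of_nonneg' h hp hl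
  rw [← ofReal_integral_eq_lintegral_ofReal hi
    ((ae_restrict_iff' measurableSet_Ioi).2 (Eventually.of_forall hp)), he, zero_sub]

theorem expo (s : ℝ) (hs : 0 < s) :
    ∫⁻ t in Ioi (0:ℝ), ENNReal.ofReal (Real.exp (-t * s)) = (ENNReal.ofReal s)⁻¹ := by
  rw [gen (fun t => -(Real.exp (-t * s)) / s) (fun t => Real.exp (-t * s))]
  · simp only [neg_zero, zero_mul, Real.exp_zero]
    rw [← ENNReal.ofReal_inv_of_pos hs]
    congr 1
    field_simp
  · intro x _
    have h1 : HasDerivAt (fun t : ℝ => -t * s) (-1 * s) x := (hasDerivAt_neg x).mul_const s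
    have h2 := (h1.exp.neg).div_const s
    refine h2.congr_deriv ?_
    field_simp
  · intro x _
    exact (Real.exp_pos _).le
  · have h1 : Tendsto (fun t : ℝ => -t * s) atTop atBot :=
      Tendsto.atBot_mul_const hs tendsto_neg_atTop_atBot
    have h2 := (Real.tendsto_exp_atBot.comp h1).neg.div_const s
    simpa using h2

theorem pow (K : ℝ) (hK : 2 < K) :
    ∫⁻ t in Ioi (0:ℝ), ENNReal.ofReal ((1 + 2 * t) ^ (-K / 2)) = ENNReal.ofReal (1 / (K - 2)) := by
  have hK2 : K - 2 ≠ 0 := by linarith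
  rw [gen (fun t => -(1 / (K - 2)) * (1 + 2 * t) ^ (-((K - 2) / 2))) (fun t => (1 + 2 * t) ^ (-K / 2))]
  · simp
  · intro x hx
    have hx' : (0:ℝ) ≤ x := hx
    have h1 : HasDerivAt (fun t : ℝ => 1 + 2 * t) 2 x := by
      simpa using ((hasDerivAt_id x).const_mul 2).const_add 1
    have h2 := (h1.rpow_const (p := -((K - 2) / 2)) (Or.inl (by positivity))).const_mul (-(1 / (K - 2)))
    refine h2.congr_deriv ?_
    have e1 : -((K - 2) / 2) - 1 = -K / 2 := by ring
    rw [e1]
    field_simp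
  · intro x hx
    have hx' : (0:ℝ) < x := hx
    positivity
  · have h1 : Tendsto (fun t : ℝ => 1 + 2 * t) atTop atTop :=
      tendsto_atTop_add_const_left _ _ (tendsto_id.const_mul_atTop (by norm_num))
    have h2 := ((tendsto_rpow_neg_atTop (y := (K - 2) / 2) (by linarith)).comp h1).const_mul (-(1 / (K - 2)))
    simpa using h2

theorem main : TaskInv := by
  intro 𝕜 _ _ _ γ m hγ k hk
  haveI := hγ.prob
  haveI : IsProbabilityMeasure (G γ (Fin k)) := by unfold G; infer_instance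
  have hsqm : Measurable (fun z : Fin k → 𝕜 => sq z) := by
    unfold sq
    exact Finset.measurable_sum _ fun i _ => ((measurable_pi_apply i).norm).pow_const 2
  have hprod : ∀ t : ℝ, 0 ≤ t → ∫⁻ z, ENNReal.ofReal (Real.exp (-t * sq z)) ∂G γ (Fin k) =
      ENNReal.ofReal ((1 + 2 * t) ^ (-(m * k) / 2)) := by
    intro t ht
    have hbd : ∀ x : ℝ, 0 ≤ x → Real.exp (-t * x) ≤ 1 := by
      intro x hx
      rw [Real.exp_le_one_iff]
      nlinarith [mul_nonneg ht hx]
    have hmeas : Measurable (fun z : 𝕜 => Real.exp (-t * ‖z‖ ^ 2)) :=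
      (measurable_const.mul (measurable_norm.pow_const 2)).exp
    have hint : Integrable (fun z : 𝕜 => Real.exp (-t * ‖z‖ ^ 2)) γ := by
      refine Integrable.of_bound hmeas.aestronglyMeasurable 1 (Eventually.of_forall fun z => ?_)
      rw [Real.norm_of_nonneg (Real.exp_pos _).le]
      exact hbd _ (by positivity)
    have hint2 : Integrable (fun z : Fin k → 𝕜 => Real.exp (-t * sq z)) (G γ (Fin k)) := by
      refine Integrable.of_bound (measurable_const.mul hsqm).exp.aestronglyMeasurable 1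
        (Eventually.of_forall fun z => ?_)
      rw [Real.norm_of_nonneg (Real.exp_pos _).le]
      exact hbd _ (by unfold sq; positivity)
    rw [← ofReal_integral_eq_lintegral_ofReal hint2 (Eventually.of_forall fun z => (Real.exp_pos _).le)]
    have e1 : ∫ z, Real.exp (-t * sq z) ∂G γ (Fin k) = ∏ _i : Fin k, ∫ z, Real.exp (-t * ‖z‖ ^ 2) ∂γ := by
      rw [← integral_fintype_prod_eq_prod (𝕜 := ℝ) (μ := fun _ : Fin k => γ)
        (f := fun (_ : Fin k) (z : 𝕜) => Real.exp (-t * ‖z‖ ^ 2))]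
      unfold G sq
      congr 1
      funext z
      rw [← Real.exp_sum, Finset.mul_sum]
    have e2 : ∫ z, Real.exp (-t * ‖z‖ ^ 2) ∂γ = (1 + 2 * t) ^ (-m / 2) := by
      have h := hγ.lap t ht
      rw [← ofReal_integral_eq_lintegral_ofReal hint (Eventually.of_forall fun z => (Real.exp_pos _).le)] at h
      have hp1 : (0:ℝ) ≤ (1 + 2 * t) ^ (-m / 2) := by positivity
      rwa [ENNReal.ofReal_eq_ofReal_iff (integral_nonneg fun z => (Real.exp_pos _).le) hp1] at h
    rw [e1, e2]
    simp only [Finset.prod_const, Finset.card_univ, Fintype.card_fin]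
    congr 1
    rw [← Real.rpow_natCast, ← Real.rpow_mul (by positivity)]
    congr 1
    ring
  have hsw : ∫⁻ z, (∫⁻ t in Ioi (0:ℝ), ENNReal.ofReal (Real.exp (-t * sq z))) ∂G γ (Fin k) =
      ∫⁻ t in Ioi (0:ℝ), (∫⁻ z, ENNReal.ofReal (Real.exp (-t * sq z)) ∂G γ (Fin k)) := by
    apply lintegral_lintegral_swap
    apply Measurable.aemeasurable
    apply ENNReal.measurable_ofReal.comp
    apply Real.measurable_exp.comp
    exact (measurable_snd.neg).mul (hsqm.comp measurable_fst)
  calc ENNReal.ofReal (1 / (m * k - 2))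
      = ∫⁻ t in Ioi (0:ℝ), ENNReal.ofReal ((1 + 2 * t) ^ (-(m * k) / 2)) := (pow (m * k) hk).symm
    _ = ∫⁻ t in Ioi (0:ℝ), (∫⁻ z, ENNReal.ofReal (Real.exp (-t * sq z)) ∂G γ (Fin k)) := by
        refine setLIntegral_congr_fun measurableSet_Ioi fun t ht => ?_
        exact (hprod t (le_of_lt ht)).symm
    _ = ∫⁻ z, (∫⁻ t in Ioi (0:ℝ), ENNReal.ofReal (Real.exp (-t * sq z))) ∂G γ (Fin k) := hsw.symm
    _ ≤ ∫⁻ z, (ENNReal.ofReal (sq z))⁻¹ ∂G γ (Fin k) := by
        refine lintegral_mono fun z => ?_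
        have hs0 : 0 ≤ sq z := by unfold sq; positivity
        rcases hs0.eq_or_lt with h | h
        · rw [← h]
          simp
        · exact (expo _ h).le

end Pool.Agent.Q202.SK.TaskInv
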