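import Pool.Agent.Q202.SK.Stmts

set_option autoImplicit false

namespace Pool.Agent.Q202.SK.TaskInv2

open MeasureTheory ProbabilityTheory Matrix
open scoped ENNReal

private theorem marg {𝕜 : Type} [MeasurableSpace 𝕜] (γ : Measure 𝕜) [IsProbabilityMeasure γ]
    (s k : ℕ) : (G γ (Fin (s + k))).map (fun z (i : Fin k) => z (Fin.natAdd s i)) = G γ (Fin k) := by
  unfold G
  symm
  apply Measure.pi_eq
  intro S hS
  have hf : Measurable (fun (z : Fin (s + k) → 𝕜) (i : Fin k) => z (Fin.natAdd s i)) :=
    measurable_pi_lambda _ fun i => measurable_pi_apply _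
  rw [Measure.map_apply hf (MeasurableSet.univ_pi hS)]
  set T : Fin (s + k) → Set 𝕜 := fun i => Fin.addCases (fun _ => Set.univ) S i with hT
  have h1 : (fun (z : Fin (s + k) → 𝕜) (i : Fin k) => z (Fin.natAdd s i)) ⁻¹' (Set.univ.pi S) =
      Set.univ.pi T := by
    ext z
    simp only [Set.mem_preimage, Set.mem_pi, Set.mem_univ, true_implies]
    constructor
    · intro h i
      refine Fin.addCases (fun j => ?_) (fun j => ?_) i
      · simp [hT]
      · simpa [hT] using h j
    · intro h i
      simpa [hT] using h (Fin.natAdd s i)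
  rw [h1, Measure.pi_pi, Fin.prod_univ_add]
  simp [hT]

theorem main : Pool.Agent.Q202.SK.TaskInv2 := by
  intro hInv 𝕜 _ _ _ γ m hG s n hsn hm
  obtain ⟨k, rfl⟩ := Nat.exists_eq_add_of_le hsn
  have := hG.prob
  have e1 : (((s + k : ℕ) : ℝ) - s) = k := by
    push_cast
    ring
  rw [e1] at hm ⊢
  have h := hInv 𝕜 γ m hG k hm
  rw [← marg γ s k, lintegral_map] at h
  · refine h.trans (le_of_eq ?_)
    refine lintegral_congr fun z => ?_
    congr 2
    unfold sq
    rw [Fin.sum_univ_add]
    have h2 : ∀ i : Fin s, (if s ≤ ((Fin.castAdd k i : Fin (s + k)) : ℕ) then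
        ‖z (Fin.castAdd k i)‖ ^ 2 else 0) = 0 := by
      intro i
      rw [if_neg]
      simp
    rw [Finset.sum_eq_zero fun i _ => h2 i, zero_add]
    simp
  · have : Measurable (fun w : Fin k → 𝕜 => sq w) := by
      unfold sq
      fun_prop
    exact this.ennreal_ofReal.inv
  · exact measurable_pi_lambda _ fun i => measurable_pi_apply _

end Pool.Agent.Q202.SK.TaskInv2
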