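import Pool.Agent.Q202.SK.Stmts

set_option autoImplicit false

namespace Pool.Agent.Q202.SK.TaskLI

open MeasureTheory ProbabilityTheory Matrix
open scoped ENNReal

lemma hyper {𝕜 : Type} [RCLike 𝕜] [MeasurableSpace 𝕜] [BorelSpace 𝕜] {γ : Measure 𝕜}
    [IsProbabilityMeasure γ] (hγ : ∀ z, γ {z} = 0) {ι : Type} [Fintype ι] [DecidableEq ι]
    (V : Submodule 𝕜 (ι → 𝕜)) (hV : V ≠ ⊤) : (Measure.pi fun _ : ι => γ) (V : Set (ι → 𝕜)) = 0 := by
  obtain ⟨f, hf, hVf⟩ := V.exists_le_ker_of_lt_top (lt_top_iff_ne_top.2 hV)
  obtain ⟨i, hi⟩ : ∃ i, f (Pi.single i 1) ≠ 0 := by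
    by_contra hcon
    push Not at hcon
    apply hf
    apply LinearMap.pi_ext'
    intro i
    ext
    simpa using hcon i
  have hcont : Continuous f := LinearMap.continuous_of_finiteDimensional f
  set S : Set (ι → 𝕜) := f ⁻¹' {0} with hS
  have hmeas : MeasurableSet S := (isClosed_singleton.preimage hcont).measurableSet
  refine measure_mono_null (t := S) (fun z hz => hVf hz) ?_
  have hupd : ∀ (x : ι → 𝕜) (t : 𝕜), f (Function.update x i t) =
      f (Function.update x i 0) + t * f (Pi.single i 1) := by
    intro x t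
    have e : Function.update x i t = Function.update x i 0 + t • Pi.single i (1 : 𝕜) := by
      funext j
      by_cases hj : j = i
      · subst hj
        simp
      · simp [Function.update_of_ne hj, Pi.single_eq_of_ne hj]
    rw [e, map_add, map_smul, smul_eq_mul]
  have key : ∫⁻ z, S.indicator 1 z ∂(Measure.pi fun _ : ι => γ) =
      ∫⁻ z, (fun _ => 0 : (ι → 𝕜) → ℝ≥0∞) z ∂(Measure.pi fun _ : ι => γ) := by
    apply lintegral_eq_of_lmarginal_eq {i} (measurable_one.indicator hmeas) measurable_const
    rw [lmarginal_singleton, lmarginal_singleton]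
    funext x
    apply lintegral_congr_ae
    filter_upwards [compl_mem_ae_iff.2 (hγ (-(f (Function.update x i 0)) / f (Pi.single i 1)))]
      with t ht
    apply Set.indicator_of_notMem
    intro h
    apply ht
    rw [Set.mem_singleton_iff, eq_div_iff hi]
    have h2 : f (Function.update x i t) = 0 := h
    rw [hupd] at h2
    linear_combination h2
  rw [lintegral_indicator_one hmeas] at key
  rw [key]
  simp

theorem main : Pool.Agent.Q202.SK.TaskLI := by
  intro 𝕜 _ _ _ γ m hγ ι _ _ r
  have := hγ.prob
  have hG : IsProbabilityMeasure (G γ ι) := by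
    unfold G
    infer_instance
  induction r with
  | zero =>
    intro _
    exact Filter.Eventually.of_forall fun A => linearIndependent_empty_type
  | succ r ih =>
    intro hr
    have ih' := ih (by omega)
    unfold GM at ih' ⊢
    have hmp := measurePreserving_piFinSuccAbove (fun _ : Fin (r + 1) => G γ ι) 0
    have hS : MeasurableSet {A : Fin (r + 1) → ι → 𝕜 | ¬ LinearIndependent 𝕜 A} :=
      (isOpen_setOfPred_linearIndependent (𝕜 := 𝕜)).isClosed_compl.measurableSet
    rw [ae_iff, ← (hmp.symm _).measure_preimage_equiv, Measure.prod_apply_symm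
      ((MeasurableEquiv.measurable _) hS)]
    rw [lintegral_eq_zero_iff' ?_]
    · filter_upwards [ih'] with B hB
      have hne : Submodule.span 𝕜 (Set.range B) ≠ ⊤ := by
        intro h
        have h1 := finrank_span_eq_card hB
        rw [h, finrank_top, Module.finrank_fintype_fun_eq_card, Fintype.card_fin] at h1
        omega
      refine measure_mono_null ?_ (hyper hγ.null _ hne)
      intro x hx
      by_contra hxs
      apply hx
      have h2 : LinearIndependent 𝕜 (Fin.cons x B : Fin (r + 1) → ι → 𝕜) :=
        linearIndependent_finCons.2 ⟨hB, hxs⟩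
      have h3 : (MeasurableEquiv.piFinSuccAbove (fun _ : Fin (r + 1) => ι → 𝕜) 0).symm (x, B) =
          (Fin.cons x B : Fin (r + 1) → ι → 𝕜) := Fin.insertNth_zero' x B
      rw [h3]
      exact h2
    · exact (measurable_measure_prodMk_right ((MeasurableEquiv.measurable _) hS)).aemeasurable

end Pool.Agent.Q202.SK.TaskLI
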