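import Pool.Agent.Q202.SK.Stmts

/-! # TaskLapC: Laplace transform of the complex Gaussian (by helper252) -/

set_option autoImplicit false

open MeasureTheory ProbabilityTheory Matrix
open scoped ENNReal

namespace Pool.Agent.Q202.SK.TaskLapC
open Pool.Agent.Q202.SK

theorem main : TaskLapC := by
  intro hR t ht
  have hmeas : Measurable (fun p : ℝ × ℝ => (p.1 : ℂ) + (p.2 : ℂ) * Complex.I) := by fun_prop
  unfold gC
  rw [lintegral_map (by fun_prop) hmeas]
  have h1 : ∀ p : ℝ × ℝ,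
      ENNReal.ofReal (Real.exp (-t * ‖(p.1 : ℂ) + (p.2 : ℂ) * Complex.I‖ ^ 2)) =
        ENNReal.ofReal (Real.exp (-t * ‖p.1‖ ^ 2)) * ENNReal.ofReal (Real.exp (-t * ‖p.2‖ ^ 2)) := by
    intro p
    rw [← ENNReal.ofReal_mul (Real.exp_pos _).le, ← Real.exp_add]
    congr 2
    rw [← Complex.normSq_eq_norm_sq, Complex.normSq_add_mul_I]
    simp only [Real.norm_eq_abs, sq_abs]
    ring
  simp_rw [h1]
  rw [lintegral_prod_mul (f := fun x : ℝ => ENNReal.ofReal (Real.exp (-t * ‖x‖ ^ 2)))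
    (g := fun y : ℝ => ENNReal.ofReal (Real.exp (-t * ‖y‖ ^ 2)))
    (Measurable.aemeasurable (by fun_prop)) (Measurable.aemeasurable (by fun_prop)),
    hR t ht, ← ENNReal.ofReal_mul (by positivity)]
  congr 1
  rw [← Real.rpow_add (by linarith)]
  norm_num

end Pool.Agent.Q202.SK.TaskLapC
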