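import Pool.Agent.Q202.SK.Stmts

set_option autoImplicit false

namespace Pool.Agent.Q202.SK.TaskLapR

open MeasureTheory ProbabilityTheory Pool.Agent.Q202.SK

theorem main : Pool.Agent.Q202.SK.TaskLapR := by
  intro t ht
  have hint : Integrable (fun z : ℝ => Real.exp (-t * ‖z‖ ^ 2)) (gaussianReal 0 1) := by
    refine Integrable.of_bound (C := 1) (by fun_prop) (Filter.Eventually.of_forall fun z => ?_)
    rw [Real.norm_eq_abs, abs_of_pos (Real.exp_pos _)]
    refine Real.exp_le_one_iff.2 ?_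
    have : 0 ≤ t * ‖z‖ ^ 2 := by positivity
    linarith
  rw [← ofReal_integral_eq_lintegral_ofReal hint
    (Filter.Eventually.of_forall fun z => (Real.exp_pos _).le)]
  congr 1
  rw [integral_gaussianReal_eq_integral_smul (by norm_num : (1 : NNReal) ≠ 0)]
  have key : ∀ x : ℝ, gaussianPDFReal 0 1 x • Real.exp (-t * ‖x‖ ^ 2) =
      (√(2 * Real.pi))⁻¹ * Real.exp (-(t + 1 / 2) * x ^ 2) := by
    intro x
    rw [gaussianPDFReal, smul_eq_mul, mul_assoc, ← Real.exp_add]
    congr 2
    · simp
    · rw [Real.norm_eq_abs, sq_abs]; simp; ring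
  simp_rw [key]
  rw [integral_const_mul, integral_gaussian, neg_div, Real.rpow_neg (by linarith),
    ← Real.sqrt_eq_rpow, ← Real.sqrt_inv, ← Real.sqrt_inv, ← Real.sqrt_mul (by positivity)]
  congr 1
  have hpi := Real.pi_pos
  field_simp
  ring

end Pool.Agent.Q202.SK.TaskLapR
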