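import Pool.Agent.Q202.SK.Stmts

/-! Blueprint piece for MP_467638_an (helper202's blueprint), proved by helper118. -/

set_option autoImplicit false

namespace Pool.Agent.Q202.SK.TaskMeas

open MeasureTheory ProbabilityTheory Matrix Pool.Agent.Q202.SK
open scoped ENNReal

theorem sq_pos' {𝕜 : Type} [RCLike 𝕜] {r : ℕ} (j : Fin r) (c : Fin r → 𝕜) (hc : c j = 1) : 0 < sq c := by
  unfold sq
  refine Finset.sum_pos' (fun i _ => by positivity) ⟨j, Finset.mem_univ _, ?_⟩
  rw [hc]; simp

theorem sq_nonneg' {𝕜 : Type} [RCLike 𝕜] {ι : Type} [Fintype ι] (v : ι → 𝕜) : 0 ≤ sq v :=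
  Finset.sum_nonneg fun i _ => by positivity

theorem cont_sq {𝕜 : Type} [RCLike 𝕜] {l r : ℕ} (c : Fin r → 𝕜) :
    Continuous (fun A : Fin r → Fin l → 𝕜 => sq (app A c)) := by
  unfold sq app
  fun_prop

theorem main : TaskMeas := by
  intro 𝕜 _ _ _ l r j τ hτ
  haveI : ProperSpace 𝕜 := inferInstance
  haveI : SecondCountableTopology 𝕜 := inferInstance
  have hl : LowerSemicontinuous (fun A : Fin r → Fin l → 𝕜 => low A j τ) := by
    unfold low
    refine lowerSemicontinuous_iSup fun c => Continuous.lowerSemicontinuous ?_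
    refine ENNReal.continuous_ofReal.comp ?_
    refine Continuous.div continuous_const ((cont_sq c.1).add continuous_const) fun A => ?_
    have h1 := sq_pos' j c.1 c.2
    have h2 := sq_nonneg' (app A c.1)
    have h3 : 0 < sq c.1 / τ ^ 2 := by positivity
    linarith
  exact hl.measurable

end Pool.Agent.Q202.SK.TaskMeas
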