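import Pool.Agent.Q202.SK.Stmts

set_option autoImplicit false

/-! Second moment of the standard complex Gaussian (helper158). -/

namespace Pool.Agent.Q202.SK.TaskMomC

open MeasureTheory ProbabilityTheory

theorem main : Pool.Agent.Q202.SK.TaskMomC := by
  intro h
  have hm : Measurable (fun x : ℝ => ENNReal.ofReal (‖x‖ ^ 2)) :=
    ENNReal.measurable_ofReal.comp (measurable_norm.pow_const 2)
  have hm2 : Measurable (fun p : ℝ × ℝ => (p.1 : ℂ) + (p.2 : ℂ) * Complex.I) :=
    (Complex.measurable_ofReal.comp measurable_fst).add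
      ((Complex.measurable_ofReal.comp measurable_snd).mul_const _)
  have hm3 : Measurable (fun z : ℂ => ENNReal.ofReal (‖z‖ ^ 2)) :=
    ENNReal.measurable_ofReal.comp (measurable_norm.pow_const 2)
  have e : ∀ p : ℝ × ℝ, ENNReal.ofReal (‖(p.1 : ℂ) + (p.2 : ℂ) * Complex.I‖ ^ 2) =
      ENNReal.ofReal (‖p.1‖ ^ 2) + ENNReal.ofReal (‖p.2‖ ^ 2) := by
    intro p
    rw [← ENNReal.ofReal_add (by positivity) (by positivity)]
    congr 1
    rw [Complex.sq_norm, Complex.normSq_add_mul_I, Real.norm_eq_abs, Real.norm_eq_abs, sq_abs,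
      sq_abs]
  unfold gC
  rw [lintegral_map hm3 hm2]
  simp_rw [e]
  have hm4 : Measurable (fun p : ℝ × ℝ => ENNReal.ofReal (‖p.1‖ ^ 2)) := hm.comp measurable_fst
  rw [lintegral_add_left hm4]
  have h1 : ∫⁻ p : ℝ × ℝ, ENNReal.ofReal (‖p.1‖ ^ 2) ∂((gaussianReal 0 1).prod (gaussianReal 0 1)) =
      ENNReal.ofReal 1 := by
    rw [← h]
    exact (measurePreserving_fst (μ := gaussianReal 0 1) (ν := gaussianReal 0 1)).lintegral_comp hm
  have h2 : ∫⁻ p : ℝ × ℝ, ENNReal.ofReal (‖p.2‖ ^ 2) ∂((gaussianReal 0 1).prod (gaussianReal 0 1)) =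
      ENNReal.ofReal 1 := by
    rw [← h]
    exact (measurePreserving_snd (μ := gaussianReal 0 1) (ν := gaussianReal 0 1)).lintegral_comp hm
  rw [h1, h2, ← ENNReal.ofReal_add zero_le_one zero_le_one]
  norm_num

end Pool.Agent.Q202.SK.TaskMomC
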