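import Pool.Agent.Q202.SK.Stmts

set_option autoImplicit false

open MeasureTheory ProbabilityTheory Matrix
open scoped ENNReal

namespace Pool.Agent.Q202.SK.TaskMomR

theorem main : Pool.Agent.Q202.SK.TaskMomR := by
  show ∫⁻ z : ℝ, ENNReal.ofReal (‖z‖ ^ 2) ∂(gaussianReal 0 1) = ENNReal.ofReal 1
  have hL : MemLp (id : ℝ → ℝ) 2 (gaussianReal 0 1) := memLp_id_gaussianReal 2
  have hv : Var[(id : ℝ → ℝ); gaussianReal 0 1] = 1 := by
    have := @variance_id_gaussianReal 0 1
    simpa using this
  have h := hL.integrable_sq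
  have h2 : ∫ z : ℝ, ‖z‖ ^ 2 ∂(gaussianReal 0 1) = 1 := by
    have e := variance_eq_sub hL
    rw [hv] at e
    have m0 : ∫ x : ℝ, id x ∂(gaussianReal 0 1) = 0 := by
      have := @integral_id_gaussianReal 0 1
      simpa using this
    rw [m0] at e
    simp only [Real.norm_eq_abs, sq_abs]
    simpa using e.symm
  rw [← h2]
  refine (ofReal_integral_eq_lintegral_ofReal ?_ ?_).symm
  · simpa [Real.norm_eq_abs, sq_abs] using h
  · exact Filter.Eventually.of_forall fun z => by positivity

end Pool.Agent.Q202.SK.TaskMomR
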