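import Mathlib
import Pool.Agent.Q202.SK.Stmts

set_option autoImplicit false

namespace Pool.Agent.Q202.SK.TaskOmega

open MeasureTheory ProbabilityTheory Matrix
open scoped ENNReal InnerProductSpace

theorem main : TaskOmega := by
  intro 𝕜 _ l k Ω
  classical
  let w : Fin l → EuclideanSpace 𝕜 (Fin l ⊕ Fin k) := fun j => WithLp.toLp 2 (fun x => Ω x j)
  let W : Submodule 𝕜 (EuclideanSpace 𝕜 (Fin l ⊕ Fin k)) := Submodule.span 𝕜 (Set.range w)
  have hd : Module.finrank 𝕜 W ≤ l := by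
    have := finrank_range_le_card (R := 𝕜) w
    simpa [Set.finrank] using this
  let c : OrthonormalBasis (Fin (Module.finrank 𝕜 W)) 𝕜 W := stdOrthonormalBasis 𝕜 W
  let v : Fin l ⊕ Fin k → EuclideanSpace 𝕜 (Fin l ⊕ Fin k) := Sum.elim
    (fun i => if h : (i : ℕ) < Module.finrank 𝕜 W then
      ((c ⟨i, h⟩ : W) : EuclideanSpace 𝕜 (Fin l ⊕ Fin k)) else 0) (fun _ => 0)
  let s : Set (Fin l ⊕ Fin k) := {x | ∃ i : Fin l, x = Sum.inl i ∧ (i : ℕ) < Module.finrank 𝕜 W}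
  have hv : Orthonormal 𝕜 (s.domRestrict v) := by
    rw [orthonormal_iff_ite]
    rintro ⟨x, i, rfl, hi⟩ ⟨y, j, rfl, hj⟩
    have h1 : v (Sum.inl i) = ((c ⟨i, hi⟩ : W) : EuclideanSpace 𝕜 (Fin l ⊕ Fin k)) := by
      simp [v, hi]
    have h2 : v (Sum.inl j) = ((c ⟨j, hj⟩ : W) : EuclideanSpace 𝕜 (Fin l ⊕ Fin k)) := by
      simp [v, hj]
    show ⟪v (Sum.inl i), v (Sum.inl j)⟫_𝕜 = _
    rw [h1, h2, ← Submodule.coe_inner,
      orthonormal_iff_ite.1 c.orthonormal ⟨i, hi⟩ ⟨j, hj⟩]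
    by_cases hij : i = j
    · subst hij; simp
    · have : (⟨(i : ℕ), hi⟩ : Fin (Module.finrank 𝕜 W)) ≠ ⟨j, hj⟩ := by
        intro h; apply hij; ext; simpa using h
      rw [if_neg this, if_neg]
      intro h
      apply hij
      simpa using h
  obtain ⟨b, hb⟩ := hv.exists_orthonormalBasis_extension_of_card_eq (by simp)
  have horth : ∀ (j : Fin l) (i : Fin k), ⟪w j, b (Sum.inr i)⟫_𝕜 = 0 := by
    intro j i
    have hw : w j ∈ W := Submodule.subset_span ⟨j, rfl⟩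
    have hs := c.sum_repr' (⟨w j, hw⟩ : W)
    have hs' : w j = ∑ t, ⟪c t, (⟨w j, hw⟩ : W)⟫_𝕜 • ((c t : W) : EuclideanSpace 𝕜 (Fin l ⊕ Fin k)) := by
      have := congrArg (fun z : W => (z : EuclideanSpace 𝕜 (Fin l ⊕ Fin k))) hs
      simpa using this.symm
    rw [hs', sum_inner]
    apply Finset.sum_eq_zero
    intro t _
    rw [inner_smul_left]
    have ht : (t : ℕ) < l := lt_of_lt_of_le t.2 hd
    have h3 : ((c t : W) : EuclideanSpace 𝕜 (Fin l ⊕ Fin k)) = b (Sum.inl ⟨t, ht⟩) := by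
      rw [hb (Sum.inl ⟨t, ht⟩) ⟨⟨t, ht⟩, rfl, t.2⟩]
      simp [v]
    rw [h3, b.orthonormal.2 (by simp)]
    simp
  have hin : ∀ x y : EuclideanSpace 𝕜 (Fin l ⊕ Fin k), ⟪x, y⟫_𝕜 = ∑ t, star (x t) * y t := by
    intro x y
    simp [PiLp.inner_apply, mul_comm]
  refine ⟨Matrix.of fun i x => star (b i x), ?_, Matrix.of fun j i => ⟪w j, b (Sum.inl i)⟫_𝕜, ?_⟩
  · rw [Matrix.mem_unitaryGroup_iff]
    ext i j
    rw [Matrix.mul_apply, Matrix.one_apply]
    have := orthonormal_iff_ite.1 b.orthonormal i j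
    rw [hin] at this
    rw [← this]
    refine Finset.sum_congr rfl fun t _ => ?_
    simp [Matrix.star_apply]
  · intro v'
    ext j
    have h4 : (Ωᴴ *ᵥ v') j = ⟪w j, (WithLp.toLp 2 v' : EuclideanSpace 𝕜 (Fin l ⊕ Fin k))⟫_𝕜 := by
      rw [hin]
      simp [Matrix.mulVec, dotProduct, w, Matrix.conjTranspose_apply]
    rw [h4, ← b.sum_inner_mul_inner, Fintype.sum_sum_type]
    simp only [horth, zero_mul, Finset.sum_const_zero, add_zero]
    simp only [Matrix.mulVec, dotProduct, Matrix.of_apply]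
    refine Finset.sum_congr rfl fun t _ => ?_
    rw [hin (b (Sum.inl t))]

end Pool.Agent.Q202.SK.TaskOmega
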