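import Pool.Agent.Q202.SK.Stmts2

set_option autoImplicit false

namespace Pool.Agent.Q202.SK.TaskPen

open Matrix Pool.Agent.Q202.SK

theorem TaskPen_frob_eq {𝕜 : Type} [RCLike 𝕜] {a b : ℕ} (M : Matrix (Fin a) (Fin b) 𝕜) :
    ((frob M : ℝ) : 𝕜) = trace (Mᴴ * M) := by
  unfold frob trace
  rw [Finset.sum_comm]
  push_cast
  refine Finset.sum_congr rfl fun j _ => ?_
  rw [diag_apply, mul_apply]
  refine Finset.sum_congr rfl fun i _ => ?_
  rw [conjTranspose_apply, ← starRingEnd_apply, RCLike.conj_mul]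

theorem TaskPen_frob_nonneg {𝕜 : Type} [RCLike 𝕜] {a b : ℕ} (M : Matrix (Fin a) (Fin b) 𝕜) :
    0 ≤ frob M :=
  Finset.sum_nonneg fun _ _ => Finset.sum_nonneg fun _ _ => sq_nonneg _

theorem TaskPen_add {𝕜 : Type} [RCLike 𝕜] {a b : ℕ} (U V : Matrix (Fin a) (Fin b) 𝕜)
    (h : Vᴴ * U = 0) : frob (U + V) = frob U + frob V := by
  have h1 : Uᴴ * V = 0 := by
    have := congrArg conjTranspose h
    rwa [conjTranspose_mul, conjTranspose_conjTranspose, conjTranspose_zero] at this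
  have h2 : ((frob (U + V) : ℝ) : 𝕜) = ((frob U + frob V : ℝ) : 𝕜) := by
    rw [RCLike.ofReal_add, TaskPen_frob_eq, TaskPen_frob_eq, TaskPen_frob_eq, conjTranspose_add,
      Matrix.add_mul, Matrix.mul_add, Matrix.mul_add, h, h1, add_zero, zero_add, trace_add]
  exact RCLike.ofReal_injective h2

theorem main : Pool.Agent.Q202.SK.TaskPen := by
  intro 𝕜 _ n d p A P B hP X
  obtain ⟨h1, -, h3, -⟩ := hP
  have h4 : Aᴴ * (A * P) = Aᴴ := by
    have := congrArg conjTranspose h1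
    rw [conjTranspose_mul, h3] at this
    exact this
  have h5 : (A * (P * B - X))ᴴ * (B - A * P * B) = 0 := by
    rw [conjTranspose_mul, Matrix.mul_assoc, Matrix.mul_sub Aᴴ, ← Matrix.mul_assoc Aᴴ (A * P) B, h4,
      sub_self, Matrix.mul_zero]
  have h6 : B - A * X = (B - A * P * B) + A * (P * B - X) := by
    rw [Matrix.mul_sub, Matrix.mul_assoc A P B]
    abel
  rw [h6, TaskPen_add _ _ h5]
  have := TaskPen_frob_nonneg (A * (P * B - X))
  linarith

end Pool.Agent.Q202.SK.TaskPen
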