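import Pool.Agent.Q202.SK.Stmts2

set_option autoImplicit false

namespace Pool.Agent.Q202.SK.TaskPenEx

open Matrix
open scoped ComplexOrder

theorem herm {𝕜 : Type} [RCLike 𝕜] {d : ℕ} (H : Matrix (Fin d) (Fin d) 𝕜) (hH : H.IsHermitian) :
    ∃ Q : Matrix (Fin d) (Fin d) 𝕜, H * Q * H = H ∧ Q * H * Q = Q ∧ Qᴴ = Q ∧ (Q * H)ᴴ = Q * H := by
  set U : Matrix (Fin d) (Fin d) 𝕜 := (hH.eigenvectorUnitary : Matrix (Fin d) (Fin d) 𝕜) with hU
  have hUU : Uᴴ * U = 1 := by
    have := (Matrix.mem_unitaryGroup_iff').1 hH.eigenvectorUnitary.2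
    simpa [Matrix.star_eq_conjTranspose] using this
  set D : Fin d → 𝕜 := fun i => (hH.eigenvalues i : 𝕜) with hD
  have hs : H = U * diagonal D * Uᴴ := by
    have := hH.spectral_theorem
    simpa [Unitary.conjStarAlgAut_apply, Matrix.star_eq_conjTranspose, Function.comp_def] using this
  set E : Fin d → 𝕜 := fun i => ((hH.eigenvalues i)⁻¹ : ℝ) with hE
  have hmul : ∀ a b : Fin d → 𝕜, (U * diagonal a * Uᴴ) * (U * diagonal b * Uᴴ) =
      U * diagonal (fun i => a i * b i) * Uᴴ := by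
    intro a b
    calc (U * diagonal a * Uᴴ) * (U * diagonal b * Uᴴ)
        = U * diagonal a * (Uᴴ * U) * diagonal b * Uᴴ := by simp only [Matrix.mul_assoc]
      _ = U * (diagonal a * diagonal b) * Uᴴ := by rw [hUU]; simp only [Matrix.mul_one, Matrix.mul_assoc]
      _ = _ := by rw [Matrix.diagonal_mul_diagonal]
  have hct : ∀ a : Fin d → 𝕜, (∀ i, star (a i) = a i) → (U * diagonal a * Uᴴ)ᴴ = U * diagonal a * Uᴴ := by
    intro a ha
    have h1 : star a = a := funext ha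
    rw [Matrix.conjTranspose_mul, Matrix.conjTranspose_mul, Matrix.conjTranspose_conjTranspose,
      Matrix.diagonal_conjTranspose, h1, Matrix.mul_assoc]
  have hDE : ∀ i, D i * E i * D i = D i := by
    intro i
    simp only [hD, hE]
    by_cases h : hH.eigenvalues i = 0
    · simp [h]
    · have : (hH.eigenvalues i : 𝕜) ≠ 0 := by exact_mod_cast h
      push_cast
      field_simp
  have hED : ∀ i, E i * D i * E i = E i := by
    intro i
    simp only [hD, hE]
    by_cases h : hH.eigenvalues i = 0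
    · simp [h]
    · have : (hH.eigenvalues i : 𝕜) ≠ 0 := by exact_mod_cast h
      push_cast
      field_simp
  refine ⟨U * diagonal E * Uᴴ, ?_, ?_, ?_, ?_⟩
  · rw [hs, hmul, hmul]
    congr 2
    congr 1
    funext i
    exact hDE i
  · rw [hs, hmul, hmul]
    congr 2
    congr 1
    funext i
    exact hED i
  · apply hct
    intro i
    simp [hE]
  · rw [hs, hmul]
    apply hct
    intro i
    simp [hE, hD]

theorem main : Pool.Agent.Q202.SK.TaskPenEx := by
  intro 𝕜 _ n d A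
  obtain ⟨Q, h1, h2, h3, h4⟩ := herm (Aᴴ * A) (Matrix.isHermitian_conjTranspose_mul_self A)
  have hA : A * (Q * (Aᴴ * A)) = A := by
    have h5 : (A - A * (Q * (Aᴴ * A)))ᴴ * (A - A * (Q * (Aᴴ * A))) = 0 := by
      have h6 : Aᴴ * (A - A * (Q * (Aᴴ * A))) = 0 := by
        rw [Matrix.mul_sub, ← Matrix.mul_assoc Aᴴ A, ← Matrix.mul_assoc (Aᴴ * A) Q, h1, sub_self]
      have h7 : A - A * (Q * (Aᴴ * A)) = A * (1 - Q * (Aᴴ * A)) := by
        rw [Matrix.mul_sub, Matrix.mul_one]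
      rw [h7] at h6 ⊢
      rw [Matrix.conjTranspose_mul, Matrix.mul_assoc, h6, Matrix.mul_zero]
    have h8 := Matrix.conjTranspose_mul_self_eq_zero.1 h5
    exact (sub_eq_zero.1 h8).symm
  refine ⟨Q * Aᴴ, ?_, ?_, ?_, ?_⟩
  · rw [Matrix.mul_assoc, Matrix.mul_assoc Q]; exact hA
  · have : Q * Aᴴ * A * (Q * Aᴴ) = (Q * (Aᴴ * A) * Q) * Aᴴ := by simp only [Matrix.mul_assoc]
    rw [this, h2]
  · rw [← Matrix.mul_assoc, Matrix.conjTranspose_mul, Matrix.conjTranspose_mul,
      Matrix.conjTranspose_conjTranspose, h3, Matrix.mul_assoc]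
  · rw [Matrix.mul_assoc]; exact h4

end Pool.Agent.Q202.SK.TaskPenEx
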