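import Mathlib
import Pool.Agent.Q202.SK.Stmts

set_option autoImplicit false

namespace Pool.Agent.Q202.SK.TaskProj

open MeasureTheory ProbabilityTheory Matrix Pool.Agent.Q202.SK
open scoped ENNReal

theorem main : Pool.Agent.Q202.SK.TaskProj := by
  intro hM 𝕜 _ _ _ γ m hγ l r A x F
  let E := EuclideanSpace 𝕜 (Fin l)
  let v : Fin r → E := fun j => WithLp.toLp 2 (A j)
  let W : Submodule 𝕜 E := Submodule.span 𝕜 (Set.range v)
  let b := stdOrthonormalBasis 𝕜 Wᗮ
  let u : Fin (Module.finrank 𝕜 Wᗮ) → E := fun i => (b i : E)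
  have hu : Orthonormal 𝕜 u := b.orthonormal.comp_linearIsometry Wᗮ.subtypeₗᵢ
  let L : Matrix (Fin (Module.finrank 𝕜 Wᗮ)) (Fin l) 𝕜 := fun i j => starRingEnd 𝕜 (u i j)
  have hL : ∀ (z : Fin l → 𝕜) i, (L *ᵥ z) i = inner 𝕜 (u i) (WithLp.toLp 2 z : E) := by
    intro z i
    rw [PiLp.inner_apply]
    simp only [Matrix.mulVec, dotProduct, L]
    refine Finset.sum_congr rfl fun j _ => ?_
    rw [RCLike.inner_apply, mul_comm]
  have hA : ∀ c : Fin r → 𝕜, L *ᵥ (app A c) = 0 := by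
    intro c
    funext i
    rw [hL]
    have h1 : (WithLp.toLp 2 (app A c) : E) = ∑ j, c j • v j := by
      apply (WithLp.linearEquiv 2 𝕜 (Fin l → 𝕜)).injective
      rw [map_sum]
      funext k
      rw [Finset.sum_apply]
      rfl
    rw [h1]
    have h2 : (∑ j, c j • v j) ∈ W := Submodule.sum_mem _ fun j _ =>
      Submodule.smul_mem _ _ (Submodule.subset_span ⟨j, rfl⟩)
    exact Submodule.inner_left_of_mem_orthogonal h2 (b i).2
  have hbes : ∀ z : Fin l → 𝕜, sq (L *ᵥ z) ≤ sq z := by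
    intro z
    unfold sq
    have h1 := hu.sum_inner_products_le (WithLp.toLp 2 z : E) (s := Finset.univ)
    rw [EuclideanSpace.norm_sq_eq] at h1
    calc ∑ i, ‖(L *ᵥ z) i‖ ^ 2 = ∑ i, ‖inner 𝕜 (u i) (WithLp.toLp 2 z : E)‖ ^ 2 :=
          Finset.sum_congr rfl fun i _ => by rw [hL]
      _ ≤ _ := h1
  have hsum : ∑ i, ∑ j, ‖L i j‖ ^ 2 = (Module.finrank 𝕜 Wᗮ : ℝ) := by
    have h1 : ∀ i, ∑ j, ‖L i j‖ ^ 2 = 1 := by
      intro i
      have h2 := EuclideanSpace.norm_sq_eq (u i)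
      rw [hu.1 i, one_pow] at h2
      rw [h2]
      refine Finset.sum_congr rfl fun j _ => ?_
      simp only [L, RCLike.norm_conj]
    rw [Finset.sum_congr rfl (fun i _ => h1 i)]
    simp
  have hdim : (l : ℝ) - r ≤ (Module.finrank 𝕜 Wᗮ : ℝ) := by
    have h1 : Module.finrank 𝕜 W + Module.finrank 𝕜 Wᗮ = Module.finrank 𝕜 E :=
      W.finrank_add_finrank_orthogonal
    have h2 : Module.finrank 𝕜 E = l := by simp [E]
    have h3 : Module.finrank 𝕜 W ≤ r := by
      have := finrank_range_le_card (R := 𝕜) v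
      simpa [Set.finrank] using this
    have h4 : l ≤ r + Module.finrank 𝕜 Wᗮ := by omega
    have h5 : (l : ℝ) ≤ r + Module.finrank 𝕜 Wᗮ := by exact_mod_cast h4
    linarith
  calc ENNReal.ofReal (m * ((l : ℝ) - r)) ≤ ENNReal.ofReal (m * ∑ i, ∑ j, ‖L i j‖ ^ 2) := by
        apply ENNReal.ofReal_le_ofReal
        rw [hsum]
        exact mul_le_mul_of_nonneg_left hdim hγ.pos.le
    _ = ∫⁻ z, ENNReal.ofReal (sq (L *ᵥ z)) ∂G γ (Fin l) := (hM 𝕜 γ m hγ _ _ L).symm
    _ ≤ _ := by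
        refine lintegral_mono fun g => ENNReal.ofReal_le_ofReal ?_
        have h1 : L *ᵥ g = L *ᵥ (fun i => app A x i + g i -
            app A (F (fun i => app A x i + g i)) i) := by
          have h2 : (fun i => app A x i + g i - app A (F (fun i => app A x i + g i)) i) =
              app A x + g - app A (F (fun i => app A x i + g i)) := rfl
          rw [h2, Matrix.mulVec_sub, Matrix.mulVec_add, hA, hA]
          simp
        rw [h1]
        exact hbes _

end Pool.Agent.Q202.SK.TaskProj
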