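import Pool.Agent.Q202.SK.Stmts

/-! # MP_467638_an, task `TaskRefl` -/

set_option autoImplicit false

namespace Pool.Agent.Q202.SK.TaskRefl

open MeasureTheory ProbabilityTheory Matrix
open scoped ENNReal

theorem main : Pool.Agent.Q202.SK.TaskRefl := by
  intro hHouse hMomL 𝕜 _ _ _ γ m hγ l r A τ hτ j c hc f hf
  haveI := hγ.prob
  have hτ' : (τ : 𝕜) ≠ 0 := by
    intro h0
    exact hτ.ne' (RCLike.ofReal_eq_zero.1 h0)
  obtain ⟨w, hw⟩ : ∃ w : Fin r ⊕ Fin l → 𝕜,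
      w = Sum.elim (fun j' => c j' / (τ : 𝕜)) (fun i => -(app A c i)) := ⟨_, rfl⟩
  obtain ⟨a, ha⟩ : ∃ a : Fin r ⊕ Fin l → 𝕜,
      a = Sum.elim (fun j' => if j' = j then (τ : 𝕜) else 0) (fun _ => 0) := ⟨_, rfl⟩
  obtain ⟨Φ, hΦ⟩ : ∃ Φ : (Fin r ⊕ Fin l → 𝕜) → 𝕜, Φ = fun z =>
      f (fun i => app A (fun j' => (τ : 𝕜) * z (Sum.inl j')) i + z (Sum.inr i)) := ⟨_, rfl⟩
  have haw : ∑ i, a i * w i = 1 := by
    rw [ha, hw, Fintype.sum_sum_type]
    simp only [Sum.elim_inl, Sum.elim_inr, zero_mul, Finset.sum_const_zero, add_zero, ite_mul,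
      Finset.sum_ite_eq', Finset.mem_univ, if_true, hc]
    field_simp
  have hproj : ∀ s : Fin r ⊕ Fin l, Measurable fun z : Fin r ⊕ Fin l → 𝕜 => z s :=
    fun s => measurable_pi_apply s
  have hinner : Measurable (fun z : Fin r ⊕ Fin l → 𝕜 =>
      (fun i : Fin l => app A (fun j' => (τ : 𝕜) * z (Sum.inl j')) i + z (Sum.inr i))) := by
    refine measurable_pi_lambda _ fun i => ?_
    unfold app
    refine Measurable.add ?_ (hproj _)
    refine Finset.measurable_sum _ fun j' _ => ?_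
    exact ((hproj (Sum.inl j')).const_mul (τ : 𝕜)).mul_const (A j' i)
  have hΦm : Measurable Φ := by
    rw [hΦ]
    exact hf.comp hinner
  have hΦinv : ∀ (z : Fin r ⊕ Fin l → 𝕜) (t : 𝕜), Φ (fun i => z i + t * w i) = Φ z := by
    intro z t
    rw [hΦ, hw]
    simp only [Sum.elim_inl, Sum.elim_inr]
    congr 1
    funext i
    unfold app
    have h1 : ∑ j', (τ : 𝕜) * (z (Sum.inl j') + t * (c j' / (τ : 𝕜))) * A j' i =
        ∑ j', (τ : 𝕜) * z (Sum.inl j') * A j' i + t * ∑ j', c j' * A j' i := by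
      rw [Finset.mul_sum, ← Finset.sum_add_distrib]
      refine Finset.sum_congr rfl fun j' _ => ?_
      field_simp
    rw [h1]
    ring
  have key := hHouse hMomL 𝕜 γ m hγ (Fin r ⊕ Fin l) w a haw Φ hΦm hΦinv
  have hsq : sq w = sq (app A c) + sq c / τ ^ 2 := by
    unfold sq
    rw [hw, Fintype.sum_sum_type]
    simp only [Sum.elim_inl, Sum.elim_inr, norm_neg, norm_div, RCLike.norm_ofReal,
      abs_of_pos hτ, div_pow]
    rw [Finset.sum_div, add_comm]
  have hsum : ∀ z : Fin r ⊕ Fin l → 𝕜, ∑ i, a i * z i = (τ : 𝕜) * z (Sum.inl j) := by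
    intro z
    rw [ha, Fintype.sum_sum_type]
    simp only [Sum.elim_inl, Sum.elim_inr, zero_mul, Finset.sum_const_zero, add_zero, ite_mul,
      Finset.sum_ite_eq', Finset.mem_univ, if_true]
  rw [hsq] at key
  refine key.trans (le_of_eq ?_)
  obtain ⟨F, hF⟩ : ∃ F : (Fin r ⊕ Fin l → 𝕜) → ℝ≥0∞, F = fun z =>
      ENNReal.ofReal (‖(∑ i, a i * z i) - Φ z‖ ^ 2) := ⟨_, rfl⟩
  have hFm : Measurable F := by
    rw [hF]
    have h1 : Measurable fun z : Fin r ⊕ Fin l → 𝕜 => (∑ i, a i * z i) - Φ z := by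
      refine Measurable.sub ?_ hΦm
      exact Finset.measurable_sum _ fun i _ => (hproj i).const_mul (a i)
    exact (h1.norm.pow_const 2).ennreal_ofReal
  have hmp := measurePreserving_sumPiEquivProdPi_symm (X := fun _ : Fin r ⊕ Fin l => 𝕜)
    (fun _ => γ)
  have h1 : ∫⁻ z, F z ∂G γ (Fin r ⊕ Fin l) =
      ∫⁻ p, F ((MeasurableEquiv.sumPiEquivProdPi (fun _ : Fin r ⊕ Fin l => 𝕜)).symm p)
        ∂((G γ (Fin r)).prod (G γ (Fin l))) := by
    unfold G
    rw [← hmp.lintegral_comp hFm]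
  have h2 : ∫⁻ z, ENNReal.ofReal (‖(∑ i, a i * z i) - Φ z‖ ^ 2) ∂G γ (Fin r ⊕ Fin l) =
      ∫⁻ z, F z ∂G γ (Fin r ⊕ Fin l) := by rw [hF]
  haveI : IsProbabilityMeasure (G γ (Fin r)) := by unfold G; infer_instance
  haveI : IsProbabilityMeasure (G γ (Fin l)) := by unfold G; infer_instance
  rw [h2, h1, lintegral_prod]
  · refine lintegral_congr fun x => lintegral_congr fun g => ?_
    rw [hF]
    simp only
    rw [hsum, hΦ]
    rfl
  · exact (hFm.comp (MeasurableEquiv.measurable _)).aemeasurable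

end Pool.Agent.Q202.SK.TaskRefl
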