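import Pool.Agent.Q202.SK.Stmts

/-! Proof of `TaskRotAll` (MP_467638_an), helper240. -/

namespace Pool.Agent.Q202.SK.TaskRotAll

open MeasureTheory ProbabilityTheory Matrix Pool.Agent.Q202.SK
open scoped ENNReal

theorem main : Pool.Agent.Q202.SK.TaskRotAll := by
  intro 𝕜 _ _ _ γ m hγ ι _ _ r Q hQ Ψ hΨ
  have hp := hγ.prob
  have hpG : IsProbabilityMeasure (G γ ι) := by
    unfold G
    infer_instance
  have hpGM : IsProbabilityMeasure (GM γ r ι) := by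
    unfold GM
    infer_instance
  have hmeas : Measurable (fun z : ι → 𝕜 => Q *ᵥ z) := by
    have hc : Continuous (fun z : ι → 𝕜 => Q *ᵥ z) := by fun_prop
    exact hc.measurable
  have hT : MeasurePreserving (fun z : ι → 𝕜 => Q *ᵥ z) (G γ ι) (G γ ι) :=
    ⟨hmeas, hγ.rot ι Q hQ⟩
  have hTM : MeasurePreserving (fun (A : Fin r → ι → 𝕜) (j : Fin r) => Q *ᵥ A j)
      (GM γ r ι) (GM γ r ι) := by
    unfold GM
    exact measurePreserving_pi _ _ (fun _ => hT)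
  have h1 : ∀ A : Fin r → ι → 𝕜, ∫⁻ g, Ψ A (Q *ᵥ g) ∂G γ ι = ∫⁻ g, Ψ A g ∂G γ ι := by
    intro A
    exact hT.lintegral_comp (f := fun g => Ψ A g) (hΨ.comp (measurable_const.prodMk measurable_id))
  have h2 : Measurable (fun A : Fin r → ι → 𝕜 => ∫⁻ g, Ψ A g ∂G γ ι) :=
    hΨ.lintegral_prod_right'
  calc ∫⁻ A, ∫⁻ g, Ψ (fun j => Q *ᵥ A j) (Q *ᵥ g) ∂G γ ι ∂GM γ r ι
      = ∫⁻ A, (fun A : Fin r → ι → 𝕜 => ∫⁻ g, Ψ A g ∂G γ ι) (fun j => Q *ᵥ A j) ∂GM γ r ι := by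
        refine lintegral_congr fun A => ?_
        exact h1 _
    _ = ∫⁻ A, ∫⁻ g, Ψ A g ∂G γ ι ∂GM γ r ι := hTM.lintegral_comp h2

end Pool.Agent.Q202.SK.TaskRotAll
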