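import Pool.Agent.Q202.SK.Stmts

set_option autoImplicit false

namespace Pool.Agent.Q202.SK.TaskRotC

open MeasureTheory ProbabilityTheory Matrix
open scoped ENNReal

/-- real coordinates to complex coordinates -/
noncomputable def phi (p : ℝ × ℝ) : ℂ := (p.1 : ℂ) + (p.2 : ℂ) * Complex.I

theorem meas_phi : Measurable phi := by
  unfold phi
  fun_prop

noncomputable def Phi {ι : Type} (x : ι ⊕ ι → ℝ) : ι → ℂ := fun i => phi (x (Sum.inl i), x (Sum.inr i))

theorem meas_Phi {ι : Type} : Measurable (Phi (ι := ι)) := by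
  unfold Phi phi
  fun_prop

instance : IsProbabilityMeasure gC := by
  unfold gC
  exact Measure.isProbabilityMeasure_map (by fun_prop)

theorem mp_phi : MeasurePreserving phi ((gaussianReal 0 1).prod (gaussianReal 0 1)) gC :=
  ⟨meas_phi, rfl⟩

theorem mp_Phi (ι : Type) [Fintype ι] :
    MeasurePreserving (Phi (ι := ι)) (G (gaussianReal 0 1) (ι ⊕ ι)) (G gC ι) := by
  have a := measurePreserving_sumPiEquivProdPi (ι := ι) (ι' := ι) (X := fun _ => ℝ)
    (fun _ => gaussianReal 0 1)
  have b := (measurePreserving_arrowProdEquivProdArrow ℝ ℝ ι (fun _ => gaussianReal 0 1)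
    (fun _ => gaussianReal 0 1)).symm
  have c := measurePreserving_pi (ι := ι) (fun _ => (gaussianReal 0 1).prod (gaussianReal 0 1))
    (fun _ => gC) (fun _ => mp_phi)
  exact c.comp (b.comp a)

/-- the real form of a complex matrix -/
def re2 {ι : Type} (U : Matrix ι ι ℂ) : Matrix (ι ⊕ ι) (ι ⊕ ι) ℝ :=
  Matrix.fromBlocks (U.map Complex.re) (-(U.map Complex.im)) (U.map Complex.im) (U.map Complex.re)

theorem re2_mul {ι : Type} [Fintype ι] (U : Matrix ι ι ℂ) (x : ι ⊕ ι → ℝ) :
    U *ᵥ Phi x = Phi (re2 U *ᵥ x) := by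
  ext i
  apply Complex.ext
  · simp only [Matrix.mulVec, dotProduct, Phi, phi, re2, Complex.re_sum, Fintype.sum_sum_type,
      Matrix.fromBlocks_apply₁₁, Matrix.fromBlocks_apply₁₂, Matrix.fromBlocks_apply₂₁,
      Matrix.fromBlocks_apply₂₂, Matrix.map_apply, Matrix.neg_apply]
    simp [Finset.sum_sub_distrib, sub_eq_add_neg, Finset.sum_add_distrib]
  · simp only [Matrix.mulVec, dotProduct, Phi, phi, re2, Complex.im_sum, Fintype.sum_sum_type,
      Matrix.fromBlocks_apply₁₁, Matrix.fromBlocks_apply₁₂, Matrix.fromBlocks_apply₂₁,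
      Matrix.fromBlocks_apply₂₂, Matrix.map_apply, Matrix.neg_apply]
    simp [Finset.sum_add_distrib, add_comm]

theorem re2_unitary {ι : Type} [Fintype ι] [DecidableEq ι] (U : Matrix ι ι ℂ)
    (hU : U ∈ Matrix.unitaryGroup ι ℂ) : re2 U ∈ Matrix.unitaryGroup (ι ⊕ ι) ℝ := by
  rw [Matrix.mem_unitaryGroup_iff] at hU ⊢
  have h : ∀ i j, ∑ k, U i k * (starRingEnd ℂ) (U j k) = if i = j then 1 else 0 := by
    intro i j
    have := congrFun (congrFun hU i) j
    simpa [Matrix.mul_apply, Matrix.star_apply, Matrix.one_apply] using this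
  have hre : ∀ i j, ∑ k, ((U i k).re * (U j k).re + (U i k).im * (U j k).im) =
      if i = j then 1 else 0 := by
    intro i j
    have := congrArg Complex.re (h i j)
    rw [Complex.re_sum] at this
    rw [apply_ite Complex.re] at this
    simpa using this
  have him : ∀ i j, ∑ k, (-((U i k).re * (U j k).im) + (U i k).im * (U j k).re) = 0 := by
    intro i j
    have := congrArg Complex.im (h i j)
    rw [Complex.im_sum] at this
    rw [apply_ite Complex.im] at this
    simpa using this
  ext a b
  rw [Matrix.mul_apply, Fintype.sum_sum_type]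
  simp only [Finset.sum_add_distrib] at hre him
  rcases a with i | i <;> rcases b with j | j
  · have := hre i j
    simpa [re2, Matrix.star_apply, Matrix.one_apply] using this
  · have := him i j
    simp [re2, Matrix.star_apply, Matrix.one_apply]
    simp at this
    linarith
  · have := him i j
    simp [re2, Matrix.star_apply, Matrix.one_apply]
    simp at this
    linarith
  · have := hre i j
    simp [re2, Matrix.star_apply, Matrix.one_apply]
    linarith

theorem main : Pool.Agent.Q202.SK.TaskRotC := by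
  intro hR ι _ _ U hU
  have h1 := hR (ι ⊕ ι) (re2 U) (re2_unitary U hU)
  have hU1 : Measurable fun z : ι → ℂ => U *ᵥ z := by
    unfold Matrix.mulVec dotProduct
    fun_prop
  have hU2 : Measurable fun z : ι ⊕ ι → ℝ => re2 U *ᵥ z := by
    unfold Matrix.mulVec dotProduct
    fun_prop
  rw [← (mp_Phi ι).map_eq, Measure.map_map hU1 meas_Phi]
  have h2 : (fun z : ι → ℂ => U *ᵥ z) ∘ Phi = Phi ∘ fun z => re2 U *ᵥ z := by
    funext x
    exact re2_mul U x
  rw [h2, ← Measure.map_map meas_Phi hU2, h1]

end Pool.Agent.Q202.SK.TaskRotC
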