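import Mathlib
import Pool.Agent.Q202.SK.Stmts

set_option autoImplicit false

namespace Pool.Agent.Q202.SK.TaskRotR

open MeasureTheory ProbabilityTheory Matrix WithLp

lemma dot_pres {ι : Type} [Fintype ι] [DecidableEq ι] (U : Matrix ι ι ℝ)
    (hU : U ∈ Matrix.unitaryGroup ι ℝ) (z : ι → ℝ) : ∑ i, (U *ᵥ z) i ^ 2 = ∑ i, z i ^ 2 := by
  have h1 : Uᵀ * U = 1 := by
    have := Matrix.mem_unitaryGroup_iff'.mp hU
    rwa [Matrix.star_eq_conjTranspose, Matrix.conjTranspose_eq_transpose_of_trivial] at this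
  have h2 : (U *ᵥ z) ⬝ᵥ (U *ᵥ z) = z ⬝ᵥ z := by
    rw [Matrix.dotProduct_mulVec, Matrix.vecMul_mulVec, h1, Matrix.vecMul_one]
  simpa [dotProduct, pow_two] using h2

noncomputable def iso {ι : Type} [Fintype ι] [DecidableEq ι] (U : Matrix ι ι ℝ)
    (hU : U ∈ Matrix.unitaryGroup ι ℝ) : EuclideanSpace ℝ ι ≃ₗᵢ[ℝ] EuclideanSpace ℝ ι where
  toLinearEquiv := LinearEquiv.ofLinear (Matrix.toEuclideanLin U) (Matrix.toEuclideanLin (star U))
    (by
      apply LinearMap.ext
      intro x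
      have h := Matrix.mem_unitaryGroup_iff.mp hU
      ext i
      simp [Matrix.toLpLin_apply, Matrix.mulVec_mulVec, h])
    (by
      apply LinearMap.ext
      intro x
      have h := Matrix.mem_unitaryGroup_iff'.mp hU
      ext i
      simp [Matrix.toLpLin_apply, Matrix.mulVec_mulVec, h])
  norm_map' := by
    intro x
    have h1 : ‖(Matrix.toEuclideanLin U) x‖ ^ 2 = ‖x‖ ^ 2 := by
      rw [EuclideanSpace.real_norm_sq_eq, EuclideanSpace.real_norm_sq_eq]
      exact dot_pres U hU (ofLp x)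
    exact (pow_left_inj₀ (norm_nonneg _) (norm_nonneg _) two_ne_zero).mp h1

theorem main : Pool.Agent.Q202.SK.TaskRotR := by
  intro ι _ _ U hU
  unfold G
  set μ : Measure (ι → ℝ) := Measure.pi (fun _ => gaussianReal 0 1) with hμ
  have hU' : Measurable (fun z : ι → ℝ => U *ᵥ z) := by
    have : Continuous (fun z : ι → ℝ => U *ᵥ z) := by fun_prop
    exact this.measurable
  have hto : Measurable (toLp 2 : (ι → ℝ) → EuclideanSpace ℝ ι) := by fun_prop
  have hof : Measurable (ofLp : EuclideanSpace ℝ ι → (ι → ℝ)) := by fun_prop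
  have hstd : μ.map (toLp 2) = stdGaussian (EuclideanSpace ℝ ι) := map_pi_eq_stdGaussian
  have h1 : (μ.map (fun z => U *ᵥ z)).map (toLp 2) = μ.map (toLp 2) := by
    rw [Measure.map_map hto hU']
    have h2 : (toLp 2 : (ι → ℝ) → EuclideanSpace ℝ ι) ∘ (fun z => U *ᵥ z) = (iso U hU) ∘ (toLp 2) := by
      funext z
      rfl
    rw [h2, ← Measure.map_map (iso U hU).continuous.measurable hto, hstd]
    exact stdGaussian_map (iso U hU)
  have h3 : ∀ ν : Measure (ι → ℝ), (ν.map (toLp 2)).map (ofLp : EuclideanSpace ℝ ι → (ι → ℝ)) = ν := by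
    intro ν
    rw [Measure.map_map hof hto]
    exact Measure.map_id
  rw [← h3 (μ.map (fun z => U *ᵥ z)), h1, h3]

end Pool.Agent.Q202.SK.TaskRotR

namespace Pool.Agent.Q202.SK.TRotR

theorem main : Pool.Agent.Q202.SK.TaskRotR := Pool.Agent.Q202.SK.TaskRotR.main

end Pool.Agent.Q202.SK.TRotR
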