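import Pool.Agent.Q202.SK.Stmts

set_option autoImplicit false

namespace Pool.Agent.Q202.SK.TaskSplit

open MeasureTheory ProbabilityTheory Matrix
open scoped ENNReal

private theorem probG {𝕜 : Type} [MeasurableSpace 𝕜] (γ : Measure 𝕜) [IsProbabilityMeasure γ]
    (ι : Type) [Fintype ι] : IsProbabilityMeasure (G γ ι) := by
  unfold G
  infer_instance

private theorem probGM {𝕜 : Type} [MeasurableSpace 𝕜] (γ : Measure 𝕜) [IsProbabilityMeasure γ]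
    (r : ℕ) (ι : Type) [Fintype ι] : IsProbabilityMeasure (GM γ r ι) := by
  unfold GM
  have := probG γ ι
  infer_instance

private theorem mpE1 {𝕜 : Type} [MeasurableSpace 𝕜] (γ : Measure 𝕜) [IsProbabilityMeasure γ]
    (l k : ℕ) : MeasurePreserving (fun p : (Fin l → 𝕜) × (Fin k → 𝕜) => Sum.elim p.1 p.2)
      ((G γ (Fin l)).prod (G γ (Fin k))) (G γ (Fin l ⊕ Fin k)) := by
  have h := measurePreserving_sumPiEquivProdPi_symm (X := fun _ : Fin l ⊕ Fin k => 𝕜)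
    (fun _ => γ)
  have h2 : (fun p : (Fin l → 𝕜) × (Fin k → 𝕜) => (Sum.elim p.1 p.2 : Fin l ⊕ Fin k → 𝕜)) =
      ⇑(MeasurableEquiv.sumPiEquivProdPi (fun _ : Fin l ⊕ Fin k => 𝕜)).symm := by
    funext p i
    cases i <;> rfl
  rw [h2]
  exact h

private theorem mpE2 {𝕜 : Type} [MeasurableSpace 𝕜] (γ : Measure 𝕜) [IsProbabilityMeasure γ]
    (l k r : ℕ) : MeasurePreserving
      (fun p : (Fin r → Fin l → 𝕜) × (Fin r → Fin k → 𝕜) =>
        (fun j => Sum.elim (p.1 j) (p.2 j) : Fin r → (Fin l ⊕ Fin k) → 𝕜))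
      ((GM γ r (Fin l)).prod (GM γ r (Fin k))) (GM γ r (Fin l ⊕ Fin k)) := by
  have := probG γ (Fin l)
  have := probG γ (Fin k)
  have := probG γ (Fin l ⊕ Fin k)
  have h1 := (measurePreserving_arrowProdEquivProdArrow (Fin l → 𝕜) (Fin k → 𝕜) (Fin r)
    (fun _ => G γ (Fin l)) (fun _ => G γ (Fin k))).symm
  have h2 := measurePreserving_pi (fun _ : Fin r => (G γ (Fin l)).prod (G γ (Fin k)))
    (fun _ : Fin r => G γ (Fin l ⊕ Fin k)) (fun _ => mpE1 γ l k)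
  exact h2.comp h1

theorem main : Pool.Agent.Q202.SK.TaskSplit := by
  intro 𝕜 _ _ _ γ m hγ l k r Ψ hΨ
  have := hγ.prob
  have := probG γ (Fin l)
  have := probG γ (Fin k)
  have := probG γ (Fin l ⊕ Fin k)
  have := probGM γ r (Fin l)
  have := probGM γ r (Fin k)
  have := probGM γ r (Fin l ⊕ Fin k)
  have hm1 := (mpE1 γ l k).measurable
  have hm2 := (mpE2 γ l k r).measurable
  have h1 : ∀ φ : ((Fin l ⊕ Fin k) → 𝕜) → ℝ≥0∞, Measurable φ →
      ∫⁻ g, φ g ∂G γ (Fin l ⊕ Fin k) =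
        ∫⁻ g₁, ∫⁻ g₂, φ (Sum.elim g₁ g₂) ∂G γ (Fin k) ∂G γ (Fin l) := by
    intro φ hφ
    rw [← (mpE1 γ l k).lintegral_comp hφ]
    exact lintegral_prod _ (hφ.comp hm1).aemeasurable
  have h2 : ∀ φ : (Fin r → (Fin l ⊕ Fin k) → 𝕜) → ℝ≥0∞, Measurable φ →
      ∫⁻ A, φ A ∂GM γ r (Fin l ⊕ Fin k) =
        ∫⁻ A₁, ∫⁻ A₂, φ (fun j => Sum.elim (A₁ j) (A₂ j)) ∂GM γ r (Fin k) ∂GM γ r (Fin l) := by
    intro φ hφ
    rw [← (mpE2 γ l k r).lintegral_comp hφ]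
    exact lintegral_prod _ (hφ.comp hm2).aemeasurable
  rw [h2 _ (by exact hΨ.lintegral_prod_right')]
  refine lintegral_congr fun A₁ => ?_
  have h3 : ∀ A₂ : Fin r → Fin k → 𝕜,
      ∫⁻ g, Ψ (fun j => Sum.elim (A₁ j) (A₂ j)) g ∂G γ (Fin l ⊕ Fin k) =
      ∫⁻ g₁, ∫⁻ g₂, Ψ (fun j => Sum.elim (A₁ j) (A₂ j)) (Sum.elim g₁ g₂)
        ∂G γ (Fin k) ∂G γ (Fin l) := fun A₂ => h1 _ (hΨ.comp measurable_prodMk_left)
  rw [lintegral_congr h3]
  apply lintegral_lintegral_swap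
  have h4 : Measurable (fun q : ((Fin r → Fin k → 𝕜) × (Fin l → 𝕜)) × (Fin k → 𝕜) =>
      Function.uncurry Ψ ((fun j => Sum.elim (A₁ j) (q.1.1 j)), Sum.elim q.1.2 q.2)) := by
    apply hΨ.comp
    apply Measurable.prodMk
    · exact hm2.comp (measurable_const.prodMk (measurable_fst.comp measurable_fst))
    · exact hm1.comp ((measurable_snd.comp measurable_fst).prodMk measurable_snd)
  exact h4.lintegral_prod_right'.aemeasurable

end Pool.Agent.Q202.SK.TaskSplit
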