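import Pool.Agent.Q202.SK.Stmts

set_option autoImplicit false

namespace Pool.Agent.Q202.SK.TaskSup

open MeasureTheory ProbabilityTheory Matrix Filter Topology
open scoped ENNReal
open Pool.Agent.Q202.SK

private theorem mono_real {a b s t : ℝ} (ha : 0 ≤ a) (hb : 0 < b) (hs : 0 < s) (hst : s ≤ t) :
    1 / (a + b / s ^ 2) ≤ 1 / (a + b / t ^ 2) := by
  have ht : 0 < t := lt_of_lt_of_le hs hst
  apply one_div_le_one_div_of_le
  · positivity
  · have : b / t ^ 2 ≤ b / s ^ 2 := by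
      apply div_le_div_of_nonneg_left hb.le (by positivity)
      exact pow_le_pow_left₀ hs.le hst 2
    linarith

private theorem aux {a b : ℝ} (ha : 0 ≤ a) (hb : 0 < b) :
    ⨆ N : ℕ, ENNReal.ofReal (1 / (a + b / ((N : ℝ) + 1) ^ 2)) = (ENNReal.ofReal a)⁻¹ := by
  have mono : Monotone (fun N : ℕ => ENNReal.ofReal (1 / (a + b / ((N : ℝ) + 1) ^ 2))) := by
    intro N M h
    apply ENNReal.ofReal_le_ofReal
    refine mono_real ha hb (by positivity) ?_
    have : (N : ℝ) ≤ M := by exact_mod_cast h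
    linarith
  have h0 : Tendsto (fun N : ℕ => b / ((N : ℝ) + 1) ^ 2) atTop (𝓝 0) := by
    apply Tendsto.const_div_atTop
    exact (tendsto_pow_atTop (two_ne_zero)).comp
      (tendsto_atTop_add_const_right _ _ tendsto_natCast_atTop_atTop)
  have h1 : Tendsto (fun N : ℕ => a + b / ((N : ℝ) + 1) ^ 2) atTop (𝓝 a) := by
    have := (tendsto_const_nhds (x := a) (f := (atTop : Filter ℕ))).add h0
    rwa [add_zero] at this
  have lim : Tendsto (fun N : ℕ => ENNReal.ofReal (1 / (a + b / ((N : ℝ) + 1) ^ 2))) atTop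
      (𝓝 (ENNReal.ofReal a)⁻¹) := by
    have h2 := (ENNReal.tendsto_ofReal h1).inv
    refine h2.congr fun N => ?_
    rw [one_div, ENNReal.ofReal_inv_of_pos (by positivity)]
  exact tendsto_nhds_unique (tendsto_atTop_iSup mono) lim

private theorem sq_nonneg' {𝕜 : Type} [RCLike 𝕜] {ι : Type} [Fintype ι] (v : ι → 𝕜) : 0 ≤ sq v :=
  Finset.sum_nonneg fun _ _ => by positivity

private theorem sq_pos' {𝕜 : Type} [RCLike 𝕜] {ι : Type} [Fintype ι] (v : ι → 𝕜) (j : ι)
    (h : v j = 1) : 0 < sq v := by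
  have h1 : ‖v j‖ ^ 2 ≤ sq v :=
    Finset.single_le_sum (f := fun i => ‖v i‖ ^ 2) (fun _ _ => by positivity) (Finset.mem_univ j)
  rw [h, norm_one] at h1
  linarith

theorem main : Pool.Agent.Q202.SK.TaskSup := by
  intro 𝕜 _ l r j A
  refine ⟨?_, ?_⟩
  · intro N M h
    refine iSup_mono fun c => ENNReal.ofReal_le_ofReal ?_
    refine mono_real (sq_nonneg' _) (sq_pos' _ j c.2) (by positivity) ?_
    have : (N : ℝ) ≤ M := by exact_mod_cast h
    linarith
  · unfold low top
    rw [iSup_comm]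
    exact iSup_congr fun c => aux (sq_nonneg' _) (sq_pos' _ j c.2)

end Pool.Agent.Q202.SK.TaskSup
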