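import Pool.Agent.Q202.SK.Stmts

set_option autoImplicit false

namespace Pool.Agent.Q202.SK.TaskTop

open MeasureTheory ProbabilityTheory Matrix
open scoped ENNReal

theorem sq_dot {𝕜 : Type} [RCLike 𝕜] {ι : Type} [Fintype ι] (v : ι → 𝕜) :
    ((sq v : ℝ) : 𝕜) = star v ⬝ᵥ v := by
  unfold sq dotProduct
  push_cast
  refine Finset.sum_congr rfl fun i _ => ?_
  rw [Pi.star_apply, RCLike.star_def, RCLike.conj_mul]

theorem sq_unitary {𝕜 : Type} [RCLike 𝕜] {ι : Type} [Fintype ι] [DecidableEq ι]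
    (U : Matrix ι ι 𝕜) (hU : U ∈ Matrix.unitaryGroup ι 𝕜) (w : ι → 𝕜) : sq (U *ᵥ w) = sq w := by
  have h1 : Uᴴ * U = 1 := Matrix.mem_unitaryGroup_iff'.1 hU
  have h2 : ((sq (U *ᵥ w) : ℝ) : 𝕜) = ((sq w : ℝ) : 𝕜) := by
    rw [sq_dot, sq_dot, Matrix.star_mulVec, ← Matrix.dotProduct_mulVec, Matrix.mulVec_mulVec, h1,
      Matrix.one_mulVec]
  exact_mod_cast h2

theorem main : Pool.Agent.Q202.SK.TaskTop := by
  intro hUni hInv hInv2' 𝕜 _ _ _ γ m hG l s j S hS hm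
  have hInv2 := hInv2' hInv
  have hsl : s ≤ l := by
    by_contra h
    push Not at h
    have h1 : (l : ℝ) - s < 0 := by
      have : (l : ℝ) < s := by exact_mod_cast h
      linarith
    have h2 := mul_neg_of_pos_of_neg hG.pos h1
    linarith
  obtain ⟨U, hU, hc⟩ := hUni 𝕜 s l S hS
  have key : ∀ v : Fin l → 𝕜, (ENNReal.ofReal (∑ i : Fin l, if s ≤ (i : ℕ) then
      ‖(U *ᵥ v) i‖ ^ 2 else 0))⁻¹ ≤ top (j.insertNth v S : Fin (s + 1) → Fin l → 𝕜) j := by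
    intro v
    obtain ⟨c, hc'⟩ := hc v
    have h1 : (j.insertNth (1 : 𝕜) (fun k => -c k) : Fin (s + 1) → 𝕜) j = 1 := by simp
    unfold top
    refine le_iSup_of_le ⟨j.insertNth (1 : 𝕜) (fun k => -c k), h1⟩ (le_of_eq ?_)
    congr 2
    have h2 : app (j.insertNth v S : Fin (s + 1) → Fin l → 𝕜)
        (j.insertNth (1 : 𝕜) (fun k => -c k) : Fin (s + 1) → 𝕜) = fun i => v i - app S c i := by
      funext i
      unfold app
      rw [Fin.sum_univ_succAbove _ j]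
      simp only [Fin.insertNth_apply_same, Fin.insertNth_apply_succAbove, one_mul, neg_mul,
        Finset.sum_neg_distrib, sub_eq_add_neg]
    rw [h2, ← sq_unitary U hU]
    unfold sq
    refine Finset.sum_congr rfl fun i _ => ?_
    rw [hc' i]
    split_ifs
    · rfl
    · simp
  have hmeas : Measurable (fun z : Fin l → 𝕜 => U *ᵥ z) := by
    rw [measurable_pi_iff]
    intro i
    unfold Matrix.mulVec dotProduct
    exact Finset.measurable_sum _ fun k _ => (measurable_pi_apply k).const_mul _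
  calc ENNReal.ofReal (1 / (m * ((l : ℝ) - s) - 2))
      ≤ ∫⁻ z : Fin l → 𝕜, (ENNReal.ofReal (∑ i : Fin l, if s ≤ (i : ℕ) then ‖z i‖ ^ 2 else 0))⁻¹
          ∂G γ (Fin l) := hInv2 𝕜 γ m hG s l hsl hm
    _ = ∫⁻ z : Fin l → 𝕜, (ENNReal.ofReal (∑ i : Fin l, if s ≤ (i : ℕ) then ‖z i‖ ^ 2 else 0))⁻¹
          ∂((G γ (Fin l)).map (fun z => U *ᵥ z)) := by rw [hG.rot (Fin l) U hU]
    _ ≤ ∫⁻ v : Fin l → 𝕜, (ENNReal.ofReal (∑ i : Fin l, if s ≤ (i : ℕ) then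
          ‖(U *ᵥ v) i‖ ^ 2 else 0))⁻¹ ∂G γ (Fin l) :=
        lintegral_map_le (fun z : Fin l → 𝕜 => (ENNReal.ofReal (∑ i : Fin l, if s ≤ (i : ℕ) then
          ‖z i‖ ^ 2 else 0))⁻¹) (fun z : Fin l → 𝕜 => U *ᵥ z)
    _ ≤ ∫⁻ v, top (j.insertNth v S : Fin (s + 1) → Fin l → 𝕜) j ∂G γ (Fin l) :=
        lintegral_mono key

end Pool.Agent.Q202.SK.TaskTop
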