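import Pool.Agent.Q202.SK.Stmts

/-! `TaskUni` of the blueprint for `MP_467638_an` (helper7). -/

set_option autoImplicit false

namespace Pool.Agent.Q202.SK.TaskUni

open Matrix Pool.Agent.Q202.SK

theorem main : Pool.Agent.Q202.SK.TaskUni := by
  intro 𝕜 _ s n S hS
  set T : Fin s → EuclideanSpace 𝕜 (Fin n) := fun j => WithLp.toLp 2 (S j) with hT
  have hTi : LinearIndependent 𝕜 T := by
    have := hS.map' (WithLp.linearEquiv 2 𝕜 (Fin n → 𝕜)).symm.toLinearMap
      (LinearEquiv.ker _)
    exact this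
  set W : Submodule 𝕜 (EuclideanSpace 𝕜 (Fin n)) := Submodule.span 𝕜 (Set.range T) with hW
  have hfin : Module.finrank 𝕜 W = s := by
    rw [hW, finrank_span_eq_card hTi, Fintype.card_fin]
  set w := (stdOrthonormalBasis 𝕜 W).reindex (finCongr hfin) with hw
  set v : Fin n → EuclideanSpace 𝕜 (Fin n) :=
    fun i => if h : (i : ℕ) < s then (w ⟨i, h⟩ : EuclideanSpace 𝕜 (Fin n)) else 0 with hv
  have hvo : Orthonormal 𝕜 (({i : Fin n | (i : ℕ) < s}).domRestrict v) := by
    have h1 : Orthonormal 𝕜 (fun i : {i : Fin n | (i : ℕ) < s} =>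
        (w ⟨(i : Fin n), i.2⟩ : EuclideanSpace 𝕜 (Fin n))) := by
      have h2 : Orthonormal 𝕜 (fun i : {i : Fin n | (i : ℕ) < s} => w ⟨(i : Fin n), i.2⟩) := by
        refine w.orthonormal.comp (fun i : {i : Fin n | (i : ℕ) < s} => (⟨(i : Fin n), i.2⟩ : Fin s)) ?_
        intro a b hab
        have := congrArg Fin.val hab
        exact Subtype.ext (Fin.ext this)
      exact h2.comp_linearIsometry W.subtypeₗᵢ
    convert h1 using 1
    funext i
    have hi : ((i : Fin n) : ℕ) < s := i.2
    exact dif_pos hi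
  obtain ⟨b, hb⟩ := hvo.exists_orthonormalBasis_extension_of_card_eq (by simp) 
  have hbW : ∀ i : Fin n, (i : ℕ) < s → b i ∈ W := by
    intro i hi
    rw [hb i hi]
    simp only [hv, dif_pos hi]
    exact (w ⟨i, hi⟩).2
  set U : Matrix (Fin n) (Fin n) 𝕜 := Matrix.of fun i k => star ((b i).ofLp k) with hU
  have hUv : ∀ (x : Fin n → 𝕜) (i : Fin n), (U *ᵥ x) i = inner 𝕜 (b i) (WithLp.toLp 2 x) := by
    intro x i
    rw [EuclideanSpace.inner_eq_star_dotProduct]
    simp only [Matrix.mulVec, dotProduct, hU, Matrix.of_apply, Pi.star_apply]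
    exact Finset.sum_congr rfl fun k _ => mul_comm _ _
  refine ⟨U, ?_, fun x => ?_⟩
  · rw [Matrix.mem_unitaryGroup_iff]
    ext i j
    have h1 : (U * star U) i j = inner 𝕜 (b i) (b j) := by
      rw [EuclideanSpace.inner_eq_star_dotProduct]
      simp only [Matrix.mul_apply, dotProduct, hU, Matrix.of_apply, Pi.star_apply, Matrix.star_apply,
        star_star]
      exact Finset.sum_congr rfl fun k _ => mul_comm _ _
    rw [h1, Matrix.one_apply]
    exact (orthonormal_iff_ite.mp b.orthonormal) i j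
  · set X : EuclideanSpace 𝕜 (Fin n) := WithLp.toLp 2 x with hX
    set y : EuclideanSpace 𝕜 (Fin n) :=
      ∑ i : Fin n, (if (i : ℕ) < s then inner 𝕜 (b i) X else 0) • b i with hy
    have hyW : y ∈ W := by
      refine Submodule.sum_mem _ fun i _ => ?_
      by_cases hi : (i : ℕ) < s
      · exact W.smul_mem _ (hbW i hi)
      · rw [if_neg hi, zero_smul]; exact W.zero_mem
    obtain ⟨c, hc⟩ := (Submodule.mem_span_range_iff_exists_fun 𝕜).mp hyW
    refine ⟨c, fun i => ?_⟩
    have e1 : WithLp.toLp 2 (fun i => x i - app S c i) = X - y := by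
      rw [← hc]
      ext k
      simp [hX, hT, app]
    have e2 : inner 𝕜 (b i) y = if (i : ℕ) < s then inner 𝕜 (b i) X else 0 := by
      rw [hy, inner_sum]
      rw [Finset.sum_eq_single i]
      · rw [inner_smul_right, orthonormal_iff_ite.mp b.orthonormal i i, if_pos rfl, mul_one]
      · intro k _ hk
        rw [inner_smul_right, orthonormal_iff_ite.mp b.orthonormal i k, if_neg (Ne.symm hk), mul_zero]
      · intro h; exact absurd (Finset.mem_univ _) h
    rw [hUv, e1, inner_sub_right, e2, hUv]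
    by_cases hi : (i : ℕ) < s
    · rw [if_pos hi, if_neg (not_le.mpr hi), sub_self]
    · rw [if_neg hi, if_pos (not_lt.mp hi), sub_zero]

end Pool.Agent.Q202.SK.TaskUni
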