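import Pool.Agent.Q202.SK.Asm
import Pool.Agent.Q202.SK.Mat
import Pool.Agent.Q202.SK.TaskCol
import Pool.Agent.Q202.SK.TaskFull
import Pool.Agent.Q202.SK.TaskHouse
import Pool.Agent.Q202.SK.TaskInner
import Pool.Agent.Q202.SK.TaskInv
import Pool.Agent.Q202.SK.TaskInv2
import Pool.Agent.Q202.SK.TaskLI
import Pool.Agent.Q202.SK.TaskLapC
import Pool.Agent.Q202.SK.TaskLapR
import Pool.Agent.Q202.SK.TaskMeas
import Pool.Agent.Q202.SK.TaskMomC
import Pool.Agent.Q202.SK.TaskMomL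
import Pool.Agent.Q202.SK.TaskMomR
import Pool.Agent.Q202.SK.TaskOmega
import Pool.Agent.Q202.SK.TaskPen
import Pool.Agent.Q202.SK.TaskPenEx
import Pool.Agent.Q202.SK.TaskProj
import Pool.Agent.Q202.SK.TaskRefl
import Pool.Agent.Q202.SK.TaskRotAll
import Pool.Agent.Q202.SK.TaskRotC
import Pool.Agent.Q202.SK.TaskRotR
import Pool.Agent.Q202.SK.TaskSplit
import Pool.Agent.Q202.SK.TaskSup
import Pool.Agent.Q202.SK.TaskTop
import Pool.Agent.Q202.SK.TaskUni

/-! # MP_467638_an: gen (assembly) -/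

set_option autoImplicit false

namespace Pool.Agent.Q202.SK

open MeasureTheory ProbabilityTheory Matrix
open scoped ENNReal

/-- **Optimality of sketch-and-solve over `𝕜`** with the constant `α`: for every law `μ` of a random embedding `Ω` (an `n × l` matrix,
rank `l` almost surely) and every measurable algorithm `ALG`, which sees `Ω`, `Ωᴴ A` and `Ωᴴ B`, the supremum over the matrices `A` of
rank `r` and over `B` with `B ≠ A A⁺ B` (`P = A⁺` is the Moore-Penrose pseudoinverse of `A`) of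
`E ‖B - A ALG(Ω, Ωᴴ A, Ωᴴ B)‖² / ‖B - A A⁺ B‖²` is at least `1 + (n - l) / (n - r) * r / (l - r - α)`. -/
def Optimal (𝕜 : Type) [RCLike 𝕜] [MeasurableSpace 𝕜] (α : ℝ) : Prop :=
  ∀ (n l d p r : ℕ), 1 ≤ l → l ≤ n → 1 ≤ p → r ≤ d → (r : ℝ) + α < l →
  ∀ μ : Measure (Fin n → Fin l → 𝕜), IsProbabilityMeasure μ → (∀ᵐ Ω ∂μ, (Matrix.of Ω).rank = l) →
  ∀ ALG : (Fin n → Fin l → 𝕜) × (Fin l → Fin d → 𝕜) × (Fin l → Fin p → 𝕜) → (Fin d → Fin p → 𝕜), Measurable ALG →
    ENNReal.ofReal (1 + ((n : ℝ) - l) / (n - r) * (r / (l - r - α))) ≤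
      ⨆ (A : Matrix (Fin n) (Fin d) 𝕜) (P : Matrix (Fin d) (Fin n) 𝕜) (B : Matrix (Fin n) (Fin p) 𝕜) (_ : A.rank = r)
        (_ : IsPenrose A P) (_ : B ≠ A * P * B),
        (∫⁻ Ω, ENNReal.ofReal (frob (B - A * Matrix.of (ALG (Ω, (Matrix.of Ω)ᴴ * A, (Matrix.of Ω)ᴴ * B)))) ∂μ) /
          ENNReal.ofReal (frob (B - A * P * B))

theorem frob_pos {𝕜 : Type} [RCLike 𝕜] {a b : ℕ} (M : Matrix (Fin a) (Fin b) 𝕜) (h : M ≠ 0) : 0 < frob M := by
  unfold frob
  have h0 : 0 ≤ ∑ i, ∑ j, ‖M i j‖ ^ 2 := Finset.sum_nonneg fun i _ => Finset.sum_nonneg fun j _ => by positivity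
  rcases h0.lt_or_eq with h1 | h1
  · exact h1
  · exfalso
    apply h
    ext i j
    have h2 := (Finset.sum_eq_zero_iff_of_nonneg (fun i _ => Finset.sum_nonneg fun j _ => by positivity)).1 h1.symm i
      (Finset.mem_univ i)
    have h3 := (Finset.sum_eq_zero_iff_of_nonneg (fun j _ => by positivity)).1 h2 j (Finset.mem_univ j)
    simpa using h3

theorem algR (l k r : ℝ) (hx : 0 < l + k - r) (hy : 0 < l - r - 1) :
    1 + (l + k - l) / (l + k - r) * (r / (l - r - 1)) =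
      (1 * (l - r) + 1 * k + 1 * k * (r * (1 * (1 / (1 * (l - r + 1) - 2))))) / (1 * (l + k - r)) := by
  have h : 1 * (l - r + 1) - 2 = l - r - 1 := by ring
  rw [h]
  obtain ⟨x, hx'⟩ : ∃ x, x = l + k - r := ⟨_, rfl⟩
  obtain ⟨y, hy'⟩ : ∃ y, y = l - r - 1 := ⟨_, rfl⟩
  have h1 : l + k - l = k := by ring
  have h2 : 1 * (l - r) + 1 * k = l + k - r := by ring
  rw [h1, h2, ← hx', ← hy']
  rw [← hx'] at hx
  rw [← hy'] at hy
  have hx0 := hx.ne'
  have hy0 := hy.ne'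
  field_simp

theorem algC (l k r : ℝ) (hx : 0 < l + k - r) (hy : 0 < l - r - 0) :
    1 + (l + k - l) / (l + k - r) * (r / (l - r - 0)) =
      (2 * (l - r) + 2 * k + 2 * k * (r * (2 * (1 / (2 * (l - r + 1) - 2))))) / (2 * (l + k - r)) := by
  have h : 2 * (l - r + 1) - 2 = 2 * (l - r - 0) := by ring
  rw [h]
  have h1 : l + k - l = k := by ring
  have h2 : 2 * (l - r) + 2 * k = 2 * (l + k - r) := by ring
  rw [h1, h2]
  obtain ⟨x, hx'⟩ : ∃ x, x = l + k - r := ⟨_, rfl⟩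
  obtain ⟨y, hy'⟩ : ∃ y, y = l - r - 0 := ⟨_, rfl⟩
  rw [← hx', ← hy']
  rw [← hx'] at hx
  rw [← hy'] at hy
  have hx0 := hx.ne'
  have hy0 := hy.ne'
  field_simp

set_option maxHeartbeats 600000 in
theorem gen (hCore : TaskCore) {𝕜 : Type} [RCLike 𝕜] [MeasurableSpace 𝕜] [BorelSpace 𝕜] {γ : Measure 𝕜} {m : ℝ}
    (hG : Gau 𝕜 γ m) (α : ℝ) (hα : (m = 1 ∧ α = 1) ∨ (m = 2 ∧ α = 0)) : Optimal 𝕜 α := by
  intro n l d p r hl hln hp hrd hr μ hμ _ ALG hALG
  obtain ⟨k, rfl⟩ : ∃ k, n = l + k := ⟨n - l, by omega⟩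
  obtain ⟨q, rfl⟩ : ∃ q, d = r + q := ⟨d - r, by omega⟩
  obtain ⟨p', rfl⟩ : ∃ q, p = q + 1 := ⟨p - 1, by omega⟩
  have hm := hG.pos
  have hα0 : 0 ≤ α := by rcases hα with h | h <;> rw [h.2] <;> norm_num
  have hrl : (r : ℝ) < l := by linarith
  have hrl' : r < l := by exact_mod_cast hrl
  set C := ⨆ (A : Matrix (Fin (l + k)) (Fin (r + q)) 𝕜) (P : Matrix (Fin (r + q)) (Fin (l + k)) 𝕜)
        (B : Matrix (Fin (l + k)) (Fin (p' + 1)) 𝕜) (_ : A.rank = r)
        (_ : IsPenrose A P) (_ : B ≠ A * P * B),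
        (∫⁻ Ω, ENNReal.ofReal (frob (B - A * Matrix.of (ALG (Ω, (Matrix.of Ω)ᴴ * A, (Matrix.of Ω)ᴴ * B)))) ∂μ) /
          ENNReal.ofReal (frob (B - A * P * B)) with hC
  set e : Fin (l + k) ≃ Fin l ⊕ Fin k := finSumFinEquiv.symm with he
  -- the estimator
  set Xo : (Fin (l + k) → Fin l → 𝕜) → (Fin r → Fin l → 𝕜) → (Fin l → 𝕜) → Fin r → 𝕜 := fun Ω S y j =>
    ALG (Ω, mkA q S, mkB p' y) (Fin.castAdd q j) 0 with hXo
  have hmA : Measurable fun S : Fin r → Fin l → 𝕜 => mkA q S := by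
    refine measurable_pi_lambda _ fun i => measurable_pi_lambda _ fun j => ?_
    refine Fin.addCases (fun j => ?_) (fun j => ?_) j
    · simp only [mkA, Fin.append_left]
      fun_prop
    · simp only [mkA, Fin.append_right]
      fun_prop
  have hmB : Measurable fun y : Fin l → 𝕜 => mkB p' y := by
    refine measurable_pi_lambda _ fun i => measurable_pi_lambda _ fun j => ?_
    refine Fin.cases ?_ (fun j => ?_) j
    · simp only [mkB, Fin.cons_zero]
      fun_prop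
    · simp only [mkB, Fin.cons_succ]
      fun_prop
  have hXm : Measurable fun z : (Fin (l + k) → Fin l → 𝕜) × (Fin r → Fin l → 𝕜) × (Fin l → 𝕜) => Xo z.1 z.2.1 z.2.2 := by
    refine measurable_pi_lambda _ fun j => ?_
    simp only [hXo]
    have h1 : Measurable fun z : (Fin (l + k) → Fin l → 𝕜) × (Fin r → Fin l → 𝕜) × (Fin l → 𝕜) =>
        ALG (z.1, mkA q z.2.1, mkB p' z.2.2) :=
      hALG.comp (measurable_fst.prodMk ((hmA.comp (measurable_fst.comp measurable_snd)).prodMk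
        (hmB.comp (measurable_snd.comp measurable_snd))))
    exact (measurable_pi_apply (0 : Fin (p' + 1))).comp ((measurable_pi_apply (Fin.castAdd q j)).comp h1)
  set sk : (Fin (l + k) → Fin l → 𝕜) → (Fin l ⊕ Fin k → 𝕜) → Fin l → 𝕜 := fun Ω v =>
    ((Matrix.of Ω).submatrix e.symm id)ᴴ *ᵥ v with hsk
  have hskm : Measurable fun z : (Fin (l + k) → Fin l → 𝕜) × (Fin l ⊕ Fin k → 𝕜) => sk z.1 z.2 := by
    refine measurable_pi_lambda _ fun j => ?_
    simp only [hsk, Matrix.mulVec, dotProduct, Matrix.conjTranspose_apply, Matrix.submatrix_apply, Matrix.of_apply, id]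
    refine Finset.measurable_sum _ fun i _ => Measurable.mul ?_ (by fun_prop)
    have : Measurable fun z : (Fin (l + k) → Fin l → 𝕜) × (Fin l ⊕ Fin k → 𝕜) => z.1 (e.symm i) j := by fun_prop
    exact (continuous_star.measurable).comp this
  have hX2 : Measurable fun z : (Fin (l + k) → Fin l → 𝕜) × (Fin r → Fin l ⊕ Fin k → 𝕜) × (Fin l ⊕ Fin k → 𝕜) =>
      Xo z.1 (fun j => sk z.1 (z.2.1 j)) (sk z.1 z.2.2) := by
    refine hXm.comp (f := fun z : (Fin (l + k) → Fin l → 𝕜) × (Fin r → Fin l ⊕ Fin k → 𝕜) × (Fin l ⊕ Fin k → 𝕜) =>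
      (z.1, (fun j => sk z.1 (z.2.1 j)), sk z.1 z.2.2)) ?_
    refine measurable_fst.prodMk (Measurable.prodMk ?_ ?_)
    · refine measurable_pi_lambda _ fun j => ?_
      exact hskm.comp (f := fun z : (Fin (l + k) → Fin l → 𝕜) × (Fin r → Fin l ⊕ Fin k → 𝕜) × (Fin l ⊕ Fin k → 𝕜) =>
        (z.1, z.2.1 j)) (measurable_fst.prodMk ((measurable_pi_apply j).comp (measurable_fst.comp measurable_snd)))
    · exact hskm.comp (f := fun z : (Fin (l + k) → Fin l → 𝕜) × (Fin r → Fin l ⊕ Fin k → 𝕜) × (Fin l ⊕ Fin k → 𝕜) =>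
        (z.1, z.2.2)) (measurable_fst.prodMk (measurable_snd.comp measurable_snd))
  have hup := fun (τ : ℝ) (V : ℝ≥0∞) => upper (T := Fin (l + k) → Fin l → 𝕜) hG TaskLI.main TaskMomL.main TaskFull.main
    (ι := Fin l ⊕ Fin k) (r := r) (by simp; omega) μ (fun Ω A b => Xo Ω (fun j => sk Ω (A j)) (sk Ω b)) hX2 C (by
      intro A b hA hb
      set Am : Matrix (Fin (l + k)) (Fin (r + q)) 𝕜 := Matrix.of (mkA q (fun j i => A j (e i))) with hAm
      set Bm : Matrix (Fin (l + k)) (Fin (p' + 1)) 𝕜 := Matrix.of (mkB p' (fun i => b (e i))) with hBm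
      obtain ⟨P, hP⟩ := TaskPenEx.main 𝕜 _ _ Am
      have hne : Bm ≠ Am * P * Bm := by
        intro h
        apply hb (fun j => (P * Bm) (Fin.castAdd q j) 0)
        funext i
        have h1 := entry (q := q) (p := p') e A b (P * Bm) (e.symm i)
        rw [← hAm, ← hBm, ← Matrix.mul_assoc, ← h, sub_self, Equiv.apply_symm_apply] at h1
        exact (sub_eq_zero.1 h1.symm)
      have hpos : 0 < frob (Bm - Am * P * Bm) := frob_pos _ (sub_ne_zero.2 hne)
      have hle : (∫⁻ Ω, ENNReal.ofReal (frob (Bm - Am * Matrix.of (ALG (Ω, (Matrix.of Ω)ᴴ * Am, (Matrix.of Ω)ᴴ * Bm)))) ∂μ) /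
          ENNReal.ofReal (frob (Bm - Am * P * Bm)) ≤ C :=
        le_iSup_of_le Am (le_iSup_of_le P (le_iSup_of_le Bm (le_iSup_of_le (rankA e A hA)
          (le_iSup_of_le hP (le_iSup_of_le hne le_rfl)))))
      rw [ENNReal.div_le_iff (by simpa using hpos) ENNReal.ofReal_ne_top] at hle
      refine le_trans (lintegral_mono fun Ω => ?_) (hle.trans (mul_le_mul_right (ENNReal.ofReal_le_ofReal ?_) _))
      · apply ENNReal.ofReal_le_ofReal
        have h1 := lowerFrob (q := q) (p := p') e A b (Matrix.of (ALG (Ω, (Matrix.of Ω)ᴴ * Am, (Matrix.of Ω)ᴴ * Bm)))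
        refine le_trans (le_of_eq ?_) h1
        have e1 : (Matrix.of Ω)ᴴ * Am = mkA q (fun j => sk Ω (A j)) := sketchA e (Matrix.of Ω) A
        have e2 : (Matrix.of Ω)ᴴ * Bm = mkB p' (sk Ω b) := sketchB e (Matrix.of Ω) b
        rw [e1, e2]
        rfl
      · refine le_ciInf fun c => ?_
        rw [← eqFrob (q := q) (p := p') e A b c]
        exact TaskPen.main 𝕜 _ _ _ Am P Bm hP _) τ V
  have hcard : (Fintype.card (Fin l ⊕ Fin k) : ℝ) = (l : ℝ) + k := by simp
  have h2m : 2 < m * ((l : ℝ) - r + 1) := by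
    rcases hα with ⟨h1, h2⟩ | ⟨h1, h2⟩ <;> rw [h1] <;> rw [h2] at hr <;> linarith
  have hfin := lim hG (TaskCol.main TaskMeas.main TaskSup.main TaskUni.main TaskInv.main TaskInv2.main TaskTop.main TaskLI.main
    𝕜 γ m hG) TaskSup.main l k r hrl'.le h2m (C * ENNReal.ofReal (m * ((Fintype.card (Fin l ⊕ Fin k) : ℝ) - r))) (by
      intro N
      refine hup ((N : ℝ) + 1) _ fun Ω => ?_
      have h1 := hCore TaskOmega.main TaskRotAll.main TaskSplit.main TaskMomL.main TaskInner.main TaskProj.main TaskHouse.main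
        TaskRefl.main TaskMeas.main 𝕜 γ m hG l k r hrl'.le ((Matrix.of Ω).submatrix e.symm id) (Xo Ω)
        (hXm.comp (f := fun z : (Fin r → Fin l → 𝕜) × (Fin l → 𝕜) => (Ω, z.1, z.2)) (measurable_const.prodMk measurable_id))
        ((N : ℝ) + 1) (by positivity)
      exact h1)
  rw [hcard] at hfin
  have hD : 0 < m * ((l : ℝ) + k - r) := by
    apply mul_pos hm
    have : (0 : ℝ) ≤ k := Nat.cast_nonneg k
    linarith
  have hk : (0 : ℝ) ≤ k := Nat.cast_nonneg k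
  rw [← ENNReal.div_le_iff_le_mul (Or.inl (by simpa using hD)) (Or.inl ENNReal.ofReal_ne_top),
    ← ENNReal.ofReal_div_of_pos hD] at hfin
  refine le_trans (le_of_eq ?_) hfin
  congr 1
  have hx : (0 : ℝ) < l + k - r := by linarith
  have hy : (0 : ℝ) < l - r - α := by linarith
  push_cast
  rcases hα with ⟨h1, h2⟩ | ⟨h1, h2⟩
  · subst h1 h2
    exact algR _ _ _ hx hy
  · subst h1 h2
    exact algC _ _ _ hx hy

theorem gauR : Gau ℝ (gaussianReal 0 1) 1 where
  prob := inferInstance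
  pos := one_pos
  rot := TaskRotR.main
  mom := TaskMomR.main
  lap := TaskLapR.main
  null := fun z => by
    have := nullSingletonClass_gaussianReal (μ := 0) (v := 1) one_ne_zero
    exact measure_singleton z

theorem meas_gC : Measurable (fun p : ℝ × ℝ => (p.1 : ℂ) + (p.2 : ℂ) * Complex.I) := by fun_prop

theorem gauC : Gau ℂ gC 2 where
  prob := by
    unfold gC
    exact Measure.isProbabilityMeasure_map meas_gC.aemeasurable
  pos := two_pos
  rot := TaskRotC.main TaskRotR.main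
  mom := TaskMomC.main TaskMomR.main
  lap := TaskLapC.main TaskLapR.main
  null := fun z => by
    unfold gC
    rw [Measure.map_apply meas_gC (measurableSet_singleton z)]
    have h1 : (fun p : ℝ × ℝ => (p.1 : ℂ) + (p.2 : ℂ) * Complex.I) ⁻¹' {z} ⊆ {z.re} ×ˢ Set.univ := by
      rintro ⟨a, b⟩ h
      simp only [Set.mem_preimage, Set.mem_singleton_iff] at h
      simp [← h]
    refine measure_mono_null h1 ?_
    rw [Measure.prod_prod]
    have := nullSingletonClass_gaussianReal (μ := 0) (v := 1) one_ne_zero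
    rw [measure_singleton, zero_mul]

end Pool.Agent.Q202.SK
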