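import Pool.Agent.Q202.SK.Stmts

set_option autoImplicit false
set_option maxHeartbeats 400000

namespace Pool.Agent.Q202.SK.TaskCore

open MeasureTheory ProbabilityTheory Matrix
open scoped ENNReal

section alg
variable {𝕜 : Type} [RCLike 𝕜]

theorem sq_nn {ι : Type} [Fintype ι] (v : ι → 𝕜) : 0 ≤ sq v :=
  Finset.sum_nonneg fun i _ => by positivity

theorem sq_unitary {ι : Type} [Fintype ι] [DecidableEq ι] (Q : Matrix ι ι 𝕜)
    (hQ : Q ∈ Matrix.unitaryGroup ι 𝕜) (v : ι → 𝕜) : sq (Q *ᵥ v) = sq v := by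
  have key : ∀ w : ι → 𝕜, ((sq w : ℝ) : 𝕜) = star w ⬝ᵥ w := by
    intro w
    simp only [sq, dotProduct, Pi.star_apply, RCLike.star_def, RCLike.conj_mul]
    push_cast
    rfl
  have h : ((sq (Q *ᵥ v) : ℝ) : 𝕜) = ((sq v : ℝ) : 𝕜) := by
    rw [key, key, Matrix.star_mulVec, Matrix.dotProduct_mulVec, Matrix.vecMul_vecMul,
      ← Matrix.star_eq_conjTranspose, Matrix.mem_unitaryGroup_iff'.mp hQ, Matrix.vecMul_one]
  exact_mod_cast h

theorem mulVec_app {ι κ : Type} [Fintype ι] {r : ℕ} (Q : Matrix κ ι 𝕜)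
    (A : Fin r → ι → 𝕜) (c : Fin r → 𝕜) : Q *ᵥ (app A c) = fun i => ∑ j, c j * (Q *ᵥ A j) i := by
  funext i
  simp only [app, mulVec, dotProduct, Finset.mul_sum]
  rw [Finset.sum_comm]
  refine Finset.sum_congr rfl fun j _ => Finset.sum_congr rfl fun a _ => by ring

/-- the rotated integrand -/
noncomputable def Psi {l k r : ℕ} (R : Matrix (Fin l) (Fin l) 𝕜)
    (X : (Fin r → Fin l → 𝕜) → (Fin l → 𝕜) → Fin r → 𝕜) (τ : ℝ) (x : Fin r → 𝕜)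
    (A : Fin r → (Fin l ⊕ Fin k) → 𝕜) (g : (Fin l ⊕ Fin k) → 𝕜) : ℝ≥0∞ :=
  ENNReal.ofReal (sq (fun i => app A (fun j => (τ : 𝕜) * x j) i + g i -
    app A (X (fun j => R *ᵥ (fun i => A j (Sum.inl i)))
      (R *ᵥ (fun i => app A (fun j => (τ : 𝕜) * x j) (Sum.inl i) + g (Sum.inl i)))) i))

theorem orig_eq {l k r : ℕ} (Ω : Matrix (Fin l ⊕ Fin k) (Fin l) 𝕜)
    (X : (Fin r → Fin l → 𝕜) → (Fin l → 𝕜) → Fin r → 𝕜) (τ : ℝ)
    (Q : Matrix (Fin l ⊕ Fin k) (Fin l ⊕ Fin k) 𝕜) (hQ : Q ∈ Matrix.unitaryGroup (Fin l ⊕ Fin k) 𝕜)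
    (R : Matrix (Fin l) (Fin l) 𝕜)
    (hR : ∀ v : Fin l ⊕ Fin k → 𝕜, Ωᴴ *ᵥ v = R *ᵥ (fun i => (Q *ᵥ v) (Sum.inl i)))
    (x : Fin r → 𝕜) (A : Fin r → (Fin l ⊕ Fin k) → 𝕜) (g : (Fin l ⊕ Fin k) → 𝕜) :
    ENNReal.ofReal (sq (fun i => app A (fun j => (τ : 𝕜) * x j) i + g i - app A (X (fun j => Ωᴴ *ᵥ A j)
        (Ωᴴ *ᵥ (fun i => app A (fun j => (τ : 𝕜) * x j) i + g i))) i)) =
      Psi R X τ x (fun j => Q *ᵥ A j) (Q *ᵥ g) := by
  have e1 : (fun j => Ωᴴ *ᵥ A j) = fun j => R *ᵥ (fun i => (Q *ᵥ A j) (Sum.inl i)) := by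
    funext j; rw [hR]
  have happ : ∀ c : Fin r → 𝕜, Q *ᵥ (app A c) = app (fun j => Q *ᵥ A j) c := fun c => mulVec_app Q A c
  have e2 : Ωᴴ *ᵥ (fun i => app A (fun j => (τ : 𝕜) * x j) i + g i) =
      R *ᵥ (fun i => app (fun j => Q *ᵥ A j) (fun j => (τ : 𝕜) * x j) (Sum.inl i) +
        (Q *ᵥ g) (Sum.inl i)) := by
    rw [hR]
    congr 1
    funext i
    have : (fun i => app A (fun j => (τ : 𝕜) * x j) i + g i) =
      app A (fun j => (τ : 𝕜) * x j) + g := rfl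
    rw [this, Matrix.mulVec_add, happ]
    rfl
  rw [e1, e2]
  unfold Psi
  congr 1
  rw [← sq_unitary Q hQ]
  congr 1
  set D := X (fun j => R *ᵥ (fun i => (Q *ᵥ A j) (Sum.inl i)))
    (R *ᵥ (fun i => app (fun j => Q *ᵥ A j) (fun j => (τ : 𝕜) * x j) (Sum.inl i) +
        (Q *ᵥ g) (Sum.inl i))) with hD
  have : (fun i => app A (fun j => (τ : 𝕜) * x j) i + g i - app A D i) =
      app A (fun j => (τ : 𝕜) * x j) + g - app A D := rfl
  rw [this, Matrix.mulVec_sub, Matrix.mulVec_add, happ, happ]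
  rfl

/-- the split integrand -/
theorem Psi_split {l k r : ℕ} (R : Matrix (Fin l) (Fin l) 𝕜)
    (X : (Fin r → Fin l → 𝕜) → (Fin l → 𝕜) → Fin r → 𝕜) (τ : ℝ) (x : Fin r → 𝕜)
    (A₁ : Fin r → Fin l → 𝕜) (g₁ : Fin l → 𝕜) (A₂ : Fin r → Fin k → 𝕜) (g₂ : Fin k → 𝕜)
    (D : Fin r → 𝕜) (hD : D = X (fun j => R *ᵥ A₁ j)
      (R *ᵥ (fun i => app A₁ (fun j => (τ : 𝕜) * x j) i + g₁ i))) :
    Psi R X τ x (fun j => Sum.elim (A₁ j) (A₂ j)) (Sum.elim g₁ g₂) =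
      ENNReal.ofReal (sq (fun i => app A₁ (fun j => (τ : 𝕜) * x j) i + g₁ i - app A₁ D i)) +
      ENNReal.ofReal (sq (fun i => g₂ i + app A₂ (fun j => (τ : 𝕜) * x j - D j) i)) := by
  rw [← ENNReal.ofReal_add (sq_nn _) (sq_nn _)]
  unfold Psi
  congr 1
  have e1 : (fun j => R *ᵥ (fun i => Sum.elim (A₁ j) (A₂ j) (Sum.inl i))) = fun j => R *ᵥ A₁ j := by
    rfl
  have e2 : (fun i : Fin l => app (fun j => Sum.elim (A₁ j) (A₂ j)) (fun j => (τ : 𝕜) * x j) (Sum.inl i) +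
      (Sum.elim g₁ g₂ : Fin l ⊕ Fin k → 𝕜) (Sum.inl i)) =
      fun i => app A₁ (fun j => (τ : 𝕜) * x j) i + g₁ i := by
    rfl
  rw [e1, e2, ← hD]
  unfold sq
  rw [Fintype.sum_sum_type]
  congr 1
  refine Finset.sum_congr rfl fun i _ => ?_
  have : app (fun j => (Sum.elim (A₁ j) (A₂ j) : Fin l ⊕ Fin k → 𝕜)) (fun j => (τ : 𝕜) * x j) (Sum.inr i) +
      (Sum.elim g₁ g₂ : Fin l ⊕ Fin k → 𝕜) (Sum.inr i) -
      app (fun j => (Sum.elim (A₁ j) (A₂ j) : Fin l ⊕ Fin k → 𝕜)) D (Sum.inr i) =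
      g₂ i + app A₂ (fun j => (τ : 𝕜) * x j - D j) i := by
    simp only [app, Sum.elim_inr, sub_mul, Finset.sum_sub_distrib]
    ring
  exact congrArg (fun z : 𝕜 => ‖z‖ ^ 2) this

end alg

theorem sum_lintegral_le {α β : Type} [MeasurableSpace α] (μ : Measure α) (s : Finset β)
    (f : β → α → ℝ≥0∞) : ∑ j ∈ s, ∫⁻ a, f j a ∂μ ≤ ∫⁻ a, ∑ j ∈ s, f j a ∂μ := by
  classical
  induction s using Finset.induction_on with
  | empty => simp
  | insert a s ha ih =>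
    rw [Finset.sum_insert ha]
    simp only [Finset.sum_insert ha]
    exact (add_le_add le_rfl ih).trans (le_lintegral_add _ _)

section meas
variable {𝕜 : Type} [RCLike 𝕜] [MeasurableSpace 𝕜] [BorelSpace 𝕜]


theorem meas_sq {ι α : Type} [Fintype ι] [MeasurableSpace α] (f : α → ι → 𝕜) (hf : Measurable f) :
    Measurable fun a => sq (f a) := by
  unfold sq
  refine Finset.measurable_sum _ fun i _ => ?_
  exact ((measurable_pi_apply i).comp hf).norm.pow_const 2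

theorem meas_app {ι α : Type} [Fintype ι] [MeasurableSpace α] {r : ℕ} (f : α → Fin r → ι → 𝕜)
    (c : α → Fin r → 𝕜) (hf : Measurable f) (hc : Measurable c) :
    Measurable fun a => app (f a) (c a) := by
  unfold app
  refine measurable_pi_lambda _ fun i => ?_
  refine Finset.measurable_sum _ fun j _ => ?_
  exact ((measurable_pi_apply j).comp hc).mul ((measurable_pi_apply i).comp
    ((measurable_pi_apply j).comp hf))

theorem meas_mulVec {ι κ α : Type} [Fintype ι] [Fintype κ] [MeasurableSpace α] (R : Matrix κ ι 𝕜)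
    (f : α → ι → 𝕜) (hf : Measurable f) : Measurable fun a => R *ᵥ (f a) := by
  refine measurable_pi_lambda _ fun i => ?_
  simp only [mulVec, dotProduct]
  refine Finset.measurable_sum _ fun j _ => ?_
  exact ((measurable_pi_apply j).comp hf).const_mul _

theorem meas_Psi' {α : Type} [MeasurableSpace α] {l k r : ℕ} (R : Matrix (Fin l) (Fin l) 𝕜)
    (X : (Fin r → Fin l → 𝕜) → (Fin l → 𝕜) → Fin r → 𝕜) (hX : Measurable (Function.uncurry X)) (τ : ℝ)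
    (x : α → Fin r → 𝕜) (A : α → Fin r → (Fin l ⊕ Fin k) → 𝕜) (g : α → (Fin l ⊕ Fin k) → 𝕜)
    (hx0 : Measurable x) (hA : Measurable A) (hg : Measurable g) :
    Measurable fun a => Psi R X τ (x a) (A a) (g a) := by
  unfold Psi
  refine ENNReal.measurable_ofReal.comp (meas_sq _ ?_)
  have hx : Measurable fun p : α => (fun j => (τ : 𝕜) * x p j) :=
    measurable_pi_lambda _ fun j => ((measurable_pi_apply j).comp hx0).const_mul _
  have h1 := meas_app _ _ hA hx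
  have h2 : Measurable fun p : α => (fun j => R *ᵥ (fun i => A p j (Sum.inl i))) :=
    measurable_pi_lambda _ fun j => meas_mulVec R _ (measurable_pi_lambda _ fun i =>
      (measurable_pi_apply (Sum.inl i)).comp ((measurable_pi_apply j).comp hA))
  have h3 : Measurable fun p : α =>
      R *ᵥ (fun i => app (A p) (fun j => (τ : 𝕜) * x p j) (Sum.inl i) + g p (Sum.inl i)) :=
    meas_mulVec R _ (measurable_pi_lambda _ fun i => ((measurable_pi_apply (Sum.inl i)).comp h1).add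
      ((measurable_pi_apply (Sum.inl i)).comp hg))
  have h4 := hX.comp (h2.prodMk h3)
  have h5 := meas_app _ _ hA h4
  exact measurable_pi_lambda _ fun i => (((measurable_pi_apply i).comp h1).add
    ((measurable_pi_apply i).comp hg)).sub ((measurable_pi_apply i).comp h5)

/-- the estimator seen from the observed rows -/
noncomputable def Dd {l r : ℕ} (R : Matrix (Fin l) (Fin l) 𝕜)
    (X : (Fin r → Fin l → 𝕜) → (Fin l → 𝕜) → Fin r → 𝕜) (τ : ℝ) (x : Fin r → 𝕜)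
    (A : Fin r → Fin l → 𝕜) (g : Fin l → 𝕜) : Fin r → 𝕜 :=
  X (fun j => R *ᵥ A j) (R *ᵥ (fun i => app A (fun j => (τ : 𝕜) * x j) i + g i))

theorem meas_Dd {l r : ℕ} (R : Matrix (Fin l) (Fin l) 𝕜)
    (X : (Fin r → Fin l → 𝕜) → (Fin l → 𝕜) → Fin r → 𝕜) (hX : Measurable (Function.uncurry X)) (τ : ℝ) :
    Measurable fun p : ((Fin r → 𝕜) × (Fin r → Fin l → 𝕜)) × (Fin l → 𝕜) =>
      Dd R X τ p.1.1 p.1.2 p.2 := by
  unfold Dd
  have hx : Measurable fun p : ((Fin r → 𝕜) × (Fin r → Fin l → 𝕜)) × (Fin l → 𝕜) =>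
      (fun j => (τ : 𝕜) * p.1.1 j) :=
    measurable_pi_lambda _ fun j => ((measurable_pi_apply j).comp
      (measurable_fst.comp measurable_fst)).const_mul _
  have hA : Measurable fun p : ((Fin r → 𝕜) × (Fin r → Fin l → 𝕜)) × (Fin l → 𝕜) => p.1.2 :=
    measurable_snd.comp measurable_fst
  have hg : Measurable fun p : ((Fin r → 𝕜) × (Fin r → Fin l → 𝕜)) × (Fin l → 𝕜) => p.2 :=
    measurable_snd
  have h1 := meas_app _ _ hA hx
  have h2 : Measurable fun p : ((Fin r → 𝕜) × (Fin r → Fin l → 𝕜)) × (Fin l → 𝕜) =>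
      (fun j => R *ᵥ (p.1.2 j)) :=
    measurable_pi_lambda _ fun j => meas_mulVec R _ ((measurable_pi_apply j).comp hA)
  have h3 : Measurable fun p : ((Fin r → 𝕜) × (Fin r → Fin l → 𝕜)) × (Fin l → 𝕜) =>
      R *ᵥ (fun i => app p.1.2 (fun j => (τ : 𝕜) * p.1.1 j) i + p.2 i) :=
    meas_mulVec R _ (measurable_pi_lambda _ fun i => ((measurable_pi_apply i).comp h1).add
      ((measurable_pi_apply i).comp hg))
  exact hX.comp (h2.prodMk h3)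

/-- the closed form after integrating the unobserved rows -/
noncomputable def Cc {l r : ℕ} (m : ℝ) (k : ℕ) (R : Matrix (Fin l) (Fin l) 𝕜)
    (X : (Fin r → Fin l → 𝕜) → (Fin l → 𝕜) → Fin r → 𝕜) (τ : ℝ) (x : Fin r → 𝕜)
    (A : Fin r → Fin l → 𝕜) (g : Fin l → 𝕜) : ℝ≥0∞ :=
  ENNReal.ofReal (sq (fun i => app A (fun j => (τ : 𝕜) * x j) i + g i - app A (Dd R X τ x A g) i)) +
    (ENNReal.ofReal (m * k) + ENNReal.ofReal (m * k) *
      ∑ j, ENNReal.ofReal (‖(τ : 𝕜) * x j - Dd R X τ x A g j‖ ^ 2))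

theorem meas_Cc {l r : ℕ} (m : ℝ) (k : ℕ) (R : Matrix (Fin l) (Fin l) 𝕜)
    (X : (Fin r → Fin l → 𝕜) → (Fin l → 𝕜) → Fin r → 𝕜) (hX : Measurable (Function.uncurry X)) (τ : ℝ) :
    Measurable fun p : ((Fin r → 𝕜) × (Fin r → Fin l → 𝕜)) × (Fin l → 𝕜) =>
      Cc m k R X τ p.1.1 p.1.2 p.2 := by
  have hD := meas_Dd R X hX τ
  unfold Cc
  have hx : Measurable fun p : ((Fin r → 𝕜) × (Fin r → Fin l → 𝕜)) × (Fin l → 𝕜) =>
      (fun j => (τ : 𝕜) * p.1.1 j) :=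
    measurable_pi_lambda _ fun j => ((measurable_pi_apply j).comp
      (measurable_fst.comp measurable_fst)).const_mul _
  have hA : Measurable fun p : ((Fin r → 𝕜) × (Fin r → Fin l → 𝕜)) × (Fin l → 𝕜) => p.1.2 :=
    measurable_snd.comp measurable_fst
  have hg : Measurable fun p : ((Fin r → 𝕜) × (Fin r → Fin l → 𝕜)) × (Fin l → 𝕜) => p.2 :=
    measurable_snd
  have h1 := meas_app _ _ hA hx
  have h5 := meas_app _ _ hA hD
  refine (ENNReal.measurable_ofReal.comp (meas_sq _ ?_)).add (Measurable.const_add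
    (Measurable.const_mul ?_ _) _)
  · exact measurable_pi_lambda _ fun i => (((measurable_pi_apply i).comp h1).add
      ((measurable_pi_apply i).comp hg)).sub ((measurable_pi_apply i).comp h5)
  · refine Finset.measurable_sum _ fun j _ => ?_
    refine ENNReal.measurable_ofReal.comp ?_
    exact (((measurable_pi_apply j).comp hx).sub ((measurable_pi_apply j).comp hD)).norm.pow_const 2

end meas

section steps
variable {𝕜 : Type} [RCLike 𝕜] [MeasurableSpace 𝕜] [BorelSpace 𝕜]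

attribute [local irreducible] Psi

theorem meas_unc {l k r : ℕ} (R : Matrix (Fin l) (Fin l) 𝕜)
    (X : (Fin r → Fin l → 𝕜) → (Fin l → 𝕜) → Fin r → 𝕜) (hX : Measurable (Function.uncurry X)) (τ : ℝ)
    (x : Fin r → 𝕜) : Measurable (Function.uncurry (Psi (k := k) R X τ x)) := by
  have h := meas_Psi' R X hX τ
    (fun _ : (Fin r → (Fin l ⊕ Fin k) → 𝕜) × ((Fin l ⊕ Fin k) → 𝕜) => x)
    (fun p => p.1) (fun p => p.2) measurable_const measurable_fst measurable_snd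
  exact h

theorem probG (γ : Measure 𝕜) [IsProbabilityMeasure γ] (ι : Type) [Fintype ι] :
    IsProbabilityMeasure (G γ ι) := by
  unfold G; infer_instance

theorem probGM (γ : Measure 𝕜) [IsProbabilityMeasure γ] (r : ℕ) (ι : Type) [Fintype ι] :
    IsProbabilityMeasure (GM γ r ι) := by
  have := probG γ ι
  unfold GM; infer_instance

theorem swap1 (γ : Measure 𝕜) [IsProbabilityMeasure γ] {l k r : ℕ} (R : Matrix (Fin l) (Fin l) 𝕜)
    (Q : Matrix (Fin l ⊕ Fin k) (Fin l ⊕ Fin k) 𝕜)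
    (X : (Fin r → Fin l → 𝕜) → (Fin l → 𝕜) → Fin r → 𝕜) (hX : Measurable (Function.uncurry X)) (τ : ℝ) :
    ∫⁻ A, ∫⁻ x, ∫⁻ g, Psi R X τ x (fun j => Q *ᵥ A j) (Q *ᵥ g)
        ∂G γ (Fin l ⊕ Fin k) ∂G γ (Fin r) ∂GM γ r (Fin l ⊕ Fin k) =
    ∫⁻ x, ∫⁻ A, ∫⁻ g, Psi R X τ x (fun j => Q *ᵥ A j) (Q *ᵥ g)
        ∂G γ (Fin l ⊕ Fin k) ∂GM γ r (Fin l ⊕ Fin k) ∂G γ (Fin r) := by
  have := probG γ (Fin l ⊕ Fin k)
  have := probG γ (Fin r)
  have := probGM γ r (Fin l ⊕ Fin k)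
  have hm : Measurable fun p : ((Fin r → (Fin l ⊕ Fin k) → 𝕜) × (Fin r → 𝕜)) × ((Fin l ⊕ Fin k) → 𝕜) =>
        Psi R X τ p.1.2 (fun j => Q *ᵥ p.1.1 j) (Q *ᵥ p.2) := by
    have h1 : Measurable fun p : ((Fin r → (Fin l ⊕ Fin k) → 𝕜) × (Fin r → 𝕜)) × ((Fin l ⊕ Fin k) → 𝕜) =>
        p.1.2 := measurable_snd.comp measurable_fst
    have h2 : Measurable fun p : ((Fin r → (Fin l ⊕ Fin k) → 𝕜) × (Fin r → 𝕜)) × ((Fin l ⊕ Fin k) → 𝕜) =>
        (fun j => Q *ᵥ p.1.1 j) :=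
      measurable_pi_lambda _ fun j => meas_mulVec Q _ ((measurable_pi_apply j).comp
          (measurable_fst.comp measurable_fst))
    have h3 : Measurable fun p : ((Fin r → (Fin l ⊕ Fin k) → 𝕜) × (Fin r → 𝕜)) × ((Fin l ⊕ Fin k) → 𝕜) =>
        Q *ᵥ p.2 := meas_mulVec Q _ measurable_snd
    exact meas_Psi' R X hX τ _ _ _ h1 h2 h3
  have hm2 : Measurable (Function.uncurry fun (A : Fin r → (Fin l ⊕ Fin k) → 𝕜) (x : Fin r → 𝕜) =>
      ∫⁻ g, Psi R X τ x (fun j => Q *ᵥ A j) (Q *ᵥ g) ∂G γ (Fin l ⊕ Fin k)) := hm.lintegral_prod_right'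
  exact lintegral_lintegral_swap hm2.aemeasurable

theorem swap2 (γ : Measure 𝕜) [IsProbabilityMeasure γ] {l r : ℕ} (m : ℝ) (k : ℕ) (R : Matrix (Fin l) (Fin l) 𝕜)
    (X : (Fin r → Fin l → 𝕜) → (Fin l → 𝕜) → Fin r → 𝕜) (hX : Measurable (Function.uncurry X)) (τ : ℝ) :
    ∫⁻ x, ∫⁻ A₁, ∫⁻ g₁, Cc m k R X τ x A₁ g₁ ∂G γ (Fin l) ∂GM γ r (Fin l) ∂G γ (Fin r) =
    ∫⁻ A₁, ∫⁻ x, ∫⁻ g₁, Cc m k R X τ x A₁ g₁ ∂G γ (Fin l) ∂G γ (Fin r) ∂GM γ r (Fin l) := by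
  have := probG γ (Fin l)
  have := probG γ (Fin r)
  have := probGM γ r (Fin l)
  have hm2 : Measurable (Function.uncurry fun (x : Fin r → 𝕜) (A₁ : Fin r → Fin l → 𝕜) =>
      ∫⁻ g₁, Cc m k R X τ x A₁ g₁ ∂G γ (Fin l)) := (meas_Cc m k R X hX τ).lintegral_prod_right'
  exact lintegral_lintegral_swap hm2.aemeasurable

theorem inner (hMomL : TaskMomL) (hInner : TaskInner) (γ : Measure 𝕜) (m : ℝ) (hγ : Gau 𝕜 γ m)
    {l k r : ℕ} (R : Matrix (Fin l) (Fin l) 𝕜)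
    (X : (Fin r → Fin l → 𝕜) → (Fin l → 𝕜) → Fin r → 𝕜) (τ : ℝ) (x : Fin r → 𝕜)
    (A₁ : Fin r → Fin l → 𝕜) (g₁ : Fin l → 𝕜) :
    ∫⁻ A₂ : Fin r → Fin k → 𝕜, ∫⁻ g₂ : Fin k → 𝕜,
      Psi R X τ x (fun j => Sum.elim (A₁ j) (A₂ j)) (Sum.elim g₁ g₂) ∂G γ (Fin k) ∂GM γ r (Fin k) =
      Cc m k R X τ x A₁ g₁ := by
  have : IsProbabilityMeasure γ := hγ.prob
  have := probG γ (Fin k)
  have := probGM γ r (Fin k)
  have hm : 0 < m := hγ.pos
  have e1 : ∀ A₂ : Fin r → Fin k → 𝕜, ∫⁻ g₂ : Fin k → 𝕜,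
      Psi R X τ x (fun j => Sum.elim (A₁ j) (A₂ j)) (Sum.elim g₁ g₂) ∂G γ (Fin k) =
      ENNReal.ofReal (sq (fun i => app A₁ (fun j => (τ : 𝕜) * x j) i + g₁ i -
        app A₁ (Dd R X τ x A₁ g₁) i)) + ∫⁻ g₂, ENNReal.ofReal (sq (fun i => g₂ i +
          app A₂ (fun j => (τ : 𝕜) * x j - Dd R X τ x A₁ g₁ j) i)) ∂G γ (Fin k) := by
    intro A₂
    rw [lintegral_congr fun g₂ => Psi_split R X τ x A₁ g₁ A₂ g₂ (Dd R X τ x A₁ g₁) rfl,
      lintegral_add_left measurable_const, lintegral_const, measure_univ, mul_one]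
  rw [lintegral_congr e1, lintegral_add_left measurable_const, lintegral_const, measure_univ, mul_one,
      hInner hMomL 𝕜 γ m hγ r k (fun j => (τ : 𝕜) * x j - Dd R X τ x A₁ g₁ j)]
  unfold Cc
  congr 1
  have hmk : 0 ≤ m * k := mul_nonneg hm.le (Nat.cast_nonneg k)
  rw [mul_add, mul_one, ENNReal.ofReal_add hmk (mul_nonneg hmk (sq_nn _)),
      ENNReal.ofReal_mul hmk]
  congr 2
  unfold sq
  exact ENNReal.ofReal_sum_of_nonneg fun j _ => by positivity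

theorem s4 (hMomL : TaskMomL) (hProj : TaskProj) (hHouse : TaskHouse) (hRefl : TaskRefl)
    (γ : Measure 𝕜) (m : ℝ) (hγ : Gau 𝕜 γ m)
    {l r : ℕ} (k : ℕ) (R : Matrix (Fin l) (Fin l) 𝕜)
    (X : (Fin r → Fin l → 𝕜) → (Fin l → 𝕜) → Fin r → 𝕜) (hX : Measurable (Function.uncurry X))
    (τ : ℝ) (hτ : 0 < τ) (A₁ : Fin r → Fin l → 𝕜) :
    ENNReal.ofReal (m * ((l : ℝ) - r)) + (ENNReal.ofReal (m * k) +
      ENNReal.ofReal (m * k) * ∑ j, ENNReal.ofReal m * low A₁ j τ) ≤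
      ∫⁻ x, ∫⁻ g₁, Cc m k R X τ x A₁ g₁ ∂G γ (Fin l) ∂G γ (Fin r) := by
  have : IsProbabilityMeasure γ := hγ.prob
  have := probG γ (Fin l)
  have := probG γ (Fin r)
  have hm : 0 < m := hγ.pos
  have t1 : ENNReal.ofReal (m * ((l : ℝ) - r)) ≤ ∫⁻ x : Fin r → 𝕜, ∫⁻ g₁, ENNReal.ofReal (sq (fun i =>
        app A₁ (fun j => (τ : 𝕜) * x j) i + g₁ i - app A₁ (Dd R X τ x A₁ g₁) i))
        ∂G γ (Fin l) ∂G γ (Fin r) := by
    calc ENNReal.ofReal (m * ((l : ℝ) - r)) =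
          ∫⁻ _x : Fin r → 𝕜, ENNReal.ofReal (m * ((l : ℝ) - r)) ∂G γ (Fin r) := by
            rw [lintegral_const, measure_univ, mul_one]
        _ ≤ _ := lintegral_mono fun x => hProj hMomL 𝕜 γ m hγ l r A₁ (fun j => (τ : 𝕜) * x j)
            (fun y => X (fun j => R *ᵥ A₁ j) (R *ᵥ y))
  have t2 : ∀ j : Fin r, ENNReal.ofReal m * low A₁ j τ ≤ ∫⁻ x : Fin r → 𝕜, ∫⁻ g₁,
        ENNReal.ofReal (‖(τ : 𝕜) * x j - Dd R X τ x A₁ g₁ j‖ ^ 2) ∂G γ (Fin l) ∂G γ (Fin r) := by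
    intro j
    unfold low
    rw [ENNReal.mul_iSup]
    refine iSup_le fun c => ?_
    rw [← ENNReal.ofReal_mul hm.le, mul_one_div]
    have hy : Measurable fun y : Fin l → 𝕜 => ((fun j => R *ᵥ A₁ j, R *ᵥ y) :
          (Fin r → Fin l → 𝕜) × (Fin l → 𝕜)) :=
        Measurable.prodMk measurable_const (meas_mulVec R _ measurable_id)
    have hy2 : Measurable fun y : Fin l → 𝕜 => X (fun j => R *ᵥ A₁ j) (R *ᵥ y) j :=
      (measurable_pi_apply j).comp (hX.comp hy)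
    exact hRefl hHouse hMomL 𝕜 γ m hγ l r A₁ τ hτ j c.1 c.2
        (fun y => X (fun j => R *ᵥ A₁ j) (R *ᵥ y) j) hy2
  have u1 : ∑ j, ENNReal.ofReal m * low A₁ j τ ≤ ∫⁻ x : Fin r → 𝕜, ∫⁻ g₁,
          ∑ j, ENNReal.ofReal (‖(τ : 𝕜) * x j - Dd R X τ x A₁ g₁ j‖ ^ 2) ∂G γ (Fin l) ∂G γ (Fin r) :=
    (Finset.sum_le_sum fun j _ => t2 j).trans ((sum_lintegral_le _ _ _).trans
          (lintegral_mono fun x => sum_lintegral_le _ _ _))
  have u2 : ENNReal.ofReal (m * k) * ∑ j, ENNReal.ofReal m * low A₁ j τ ≤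
          ∫⁻ x : Fin r → 𝕜, ∫⁻ g₁, ENNReal.ofReal (m * k) *
          ∑ j, ENNReal.ofReal (‖(τ : 𝕜) * x j - Dd R X τ x A₁ g₁ j‖ ^ 2) ∂G γ (Fin l) ∂G γ (Fin r) :=
    (mul_le_mul le_rfl u1 zero_le zero_le).trans ((lintegral_const_mul_le _ _).trans
          (lintegral_mono fun x => lintegral_const_mul_le _ _))
  have u3 : ENNReal.ofReal (m * k) ≤ ∫⁻ _x : Fin r → 𝕜, ∫⁻ _g₁ : Fin l → 𝕜,
          ENNReal.ofReal (m * k) ∂G γ (Fin l) ∂G γ (Fin r) := by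
    rw [lintegral_const, lintegral_const, measure_univ, measure_univ, mul_one, mul_one]
  have t3 : ENNReal.ofReal (m * k) + ENNReal.ofReal (m * k) * ∑ j, ENNReal.ofReal m * low A₁ j τ ≤
        ∫⁻ x : Fin r → 𝕜, ∫⁻ g₁, (ENNReal.ofReal (m * k) + ENNReal.ofReal (m * k) *
      ∑ j, ENNReal.ofReal (‖(τ : 𝕜) * x j - Dd R X τ x A₁ g₁ j‖ ^ 2)) ∂G γ (Fin l) ∂G γ (Fin r) :=
    (add_le_add u3 u2).trans ((le_lintegral_add _ _).trans
        (lintegral_mono fun x => le_lintegral_add _ _))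
  exact (add_le_add t1 t3).trans ((le_lintegral_add _ _).trans
        (lintegral_mono fun x => le_lintegral_add _ _))

theorem rot (hRotAll : TaskRotAll) (hSplit : TaskSplit) (hMomL : TaskMomL) (hInner : TaskInner)
    (γ : Measure 𝕜) (m : ℝ) (hγ : Gau 𝕜 γ m)
    {l k r : ℕ} (R : Matrix (Fin l) (Fin l) 𝕜) (Q : Matrix (Fin l ⊕ Fin k) (Fin l ⊕ Fin k) 𝕜)
    (hQ : Q ∈ Matrix.unitaryGroup (Fin l ⊕ Fin k) 𝕜)
    (X : (Fin r → Fin l → 𝕜) → (Fin l → 𝕜) → Fin r → 𝕜) (hX : Measurable (Function.uncurry X))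
    (τ : ℝ) (x : Fin r → 𝕜) :
    ∫⁻ A, ∫⁻ g, Psi R X τ x (fun j => Q *ᵥ A j) (Q *ᵥ g)
        ∂G γ (Fin l ⊕ Fin k) ∂GM γ r (Fin l ⊕ Fin k) =
      ∫⁻ A₁, ∫⁻ g₁, Cc m k R X τ x A₁ g₁ ∂G γ (Fin l) ∂GM γ r (Fin l) := by
  have h1 := hRotAll 𝕜 γ m hγ (Fin l ⊕ Fin k) r Q hQ (Psi R X τ x) (meas_unc R X hX τ x)
  have h2 := hSplit 𝕜 γ m hγ l k r (Psi R X τ x) (meas_unc R X hX τ x)
  rw [h1, h2]
  exact lintegral_congr fun A₁ => lintegral_congr fun g₁ =>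
      inner hMomL hInner γ m hγ R X τ x A₁ g₁

theorem final (hRotAll : TaskRotAll) (hSplit : TaskSplit) (hMomL : TaskMomL) (hInner : TaskInner)
    (hProj : TaskProj) (hHouse : TaskHouse) (hRefl : TaskRefl)
    (γ : Measure 𝕜) (m : ℝ) (hγ : Gau 𝕜 γ m)
    {l k r : ℕ} (hrl : r ≤ l) (R : Matrix (Fin l) (Fin l) 𝕜)
    (Q : Matrix (Fin l ⊕ Fin k) (Fin l ⊕ Fin k) 𝕜) (hQ : Q ∈ Matrix.unitaryGroup (Fin l ⊕ Fin k) 𝕜)
    (X : (Fin r → Fin l → 𝕜) → (Fin l → 𝕜) → Fin r → 𝕜) (hX : Measurable (Function.uncurry X))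
    (τ : ℝ) (hτ : 0 < τ) :
    ENNReal.ofReal (m * ((l : ℝ) - r) + m * k) +
        ENNReal.ofReal (m * k) * ∑ j, ENNReal.ofReal m * ∫⁻ A : Fin r → Fin l → 𝕜, low A j τ ∂GM γ r (Fin l) ≤
    ∫⁻ A, ∫⁻ x, ∫⁻ g, Psi R X τ x (fun j => Q *ᵥ A j) (Q *ᵥ g)
        ∂G γ (Fin l ⊕ Fin k) ∂G γ (Fin r) ∂GM γ r (Fin l ⊕ Fin k) := by
  have : IsProbabilityMeasure γ := hγ.prob
  have := probGM γ r (Fin l)
  have hm : 0 < m := hγ.pos
  rw [swap1 γ R Q X hX τ, lintegral_congr (rot hRotAll hSplit hMomL hInner γ m hγ R Q hQ X hX τ),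
    swap2 γ m k R X hX τ]
  refine le_trans ?_ (lintegral_mono fun A₁ => s4 hMomL hProj hHouse hRefl γ m hγ k R X hX τ hτ A₁)
  have hmk : 0 ≤ m * k := mul_nonneg hm.le (Nat.cast_nonneg k)
  have hml : 0 ≤ m * ((l : ℝ) - r) := mul_nonneg hm.le (sub_nonneg.mpr (by exact_mod_cast hrl))
  have v1 : ∑ j, ENNReal.ofReal m * ∫⁻ A : Fin r → Fin l → 𝕜, low A j τ ∂GM γ r (Fin l) ≤
      ∫⁻ A : Fin r → Fin l → 𝕜, ∑ j, ENNReal.ofReal m * low A j τ ∂GM γ r (Fin l) :=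
    (Finset.sum_le_sum fun j _ => lintegral_const_mul_le _ _).trans (sum_lintegral_le _ _ _)
  have v2 : ENNReal.ofReal (m * k) * ∑ j, ENNReal.ofReal m * ∫⁻ A : Fin r → Fin l → 𝕜, low A j τ ∂GM γ r (Fin l) ≤
      ∫⁻ A : Fin r → Fin l → 𝕜, ENNReal.ofReal (m * k) * ∑ j, ENNReal.ofReal m * low A j τ ∂GM γ r (Fin l) :=
    (mul_le_mul le_rfl v1 zero_le zero_le).trans (lintegral_const_mul_le _ _)
  rw [ENNReal.ofReal_add hml hmk, add_assoc]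
  rw [lintegral_add_left measurable_const, lintegral_const, measure_univ, mul_one,
    lintegral_add_left measurable_const, lintegral_const, measure_univ, mul_one]
  exact add_le_add le_rfl (add_le_add le_rfl v2)

end steps

theorem main : Pool.Agent.Q202.SK.TaskCore := by
  intro hOmega hRotAll hSplit hMomL hInner hProj hHouse hRefl _ 𝕜 _ _ _ γ m hγ l k r hrl Ω X hX τ hτ
  obtain ⟨Q, hQ, R, hR⟩ := hOmega 𝕜 l k Ω
  refine (final hRotAll hSplit hMomL hInner hProj hHouse hRefl γ m hγ hrl R Q hQ X hX τ hτ).trans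
    (le_of_eq ?_)
  exact (lintegral_congr fun A => lintegral_congr fun x => lintegral_congr fun g =>
      orig_eq Ω X τ Q hQ R hR x A g).symm

end Pool.Agent.Q202.SK.TaskCore
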