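import Pool.Agent.Q202.SK.Stmts

set_option autoImplicit false

namespace Pool.Agent.Q202.SK.TaskMomL

open MeasureTheory ProbabilityTheory Matrix
open scoped ENNReal

theorem meas_sum {𝕜 : Type} [RCLike 𝕜] [MeasurableSpace 𝕜] [BorelSpace 𝕜] {ι : Type} [Fintype ι]
    (a : ι → 𝕜) (s : Finset ι) :
    Measurable (fun z : ι → 𝕜 => ENNReal.ofReal (‖∑ j ∈ s, a j * z j‖ ^ 2)) := by
  have h : Measurable (fun z : ι → 𝕜 => ∑ j ∈ s, a j * z j) := by
    apply Finset.measurable_fun_sum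
    intro j _
    have hj : Measurable (fun z : ι → 𝕜 => z j) := measurable_pi_apply j
    exact hj.const_mul (a j)
  exact ENNReal.measurable_ofReal.comp (h.norm.pow_const 2)

theorem one {𝕜 : Type} [RCLike 𝕜] [MeasurableSpace 𝕜] [BorelSpace 𝕜] (γ : Measure 𝕜) (m : ℝ)
    (hg : Gau 𝕜 γ m) {ι : Type} [Fintype ι] [DecidableEq ι] (a : 𝕜) (j : ι) :
    ∫⁻ z, ENNReal.ofReal (‖a * z j‖ ^ 2) ∂G γ ι = ENNReal.ofReal (m * ‖a‖ ^ 2) := by
  have := hg.prob
  have hmp : MeasurePreserving (Function.eval j) (G γ ι) γ := by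
    have := measurePreserving_eval (μ := fun _ : ι => γ) j
    exact this
  have hmeas : Measurable (fun z : 𝕜 => ENNReal.ofReal (‖z‖ ^ 2)) :=
    ENNReal.measurable_ofReal.comp (measurable_norm.pow_const 2)
  have h1 : ∫⁻ z, ENNReal.ofReal (‖z j‖ ^ 2) ∂G γ ι = ENNReal.ofReal m := by
    rw [← hg.mom]
    have := hmp.lintegral_comp hmeas
    simpa using this
  have h2 : ∀ z : ι → 𝕜, ENNReal.ofReal (‖a * z j‖ ^ 2)
      = ENNReal.ofReal (‖a‖ ^ 2) * ENNReal.ofReal (‖z j‖ ^ 2) := by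
    intro z
    rw [← ENNReal.ofReal_mul (by positivity), norm_mul, mul_pow]
  simp_rw [h2]
  rw [lintegral_const_mul' _ _ ENNReal.ofReal_ne_top, h1,
    ← ENNReal.ofReal_mul (by positivity), mul_comm]

theorem row {𝕜 : Type} [RCLike 𝕜] [MeasurableSpace 𝕜] [BorelSpace 𝕜] (γ : Measure 𝕜) (m : ℝ)
    (hg : Gau 𝕜 γ m) {ι : Type} [Fintype ι] [DecidableEq ι] (a : ι → 𝕜) (s : Finset ι) :
    ∫⁻ z, ENNReal.ofReal (‖∑ j ∈ s, a j * z j‖ ^ 2) ∂G γ ι
      = ENNReal.ofReal (m * ∑ j ∈ s, ‖a j‖ ^ 2) := by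
  induction s using Finset.induction_on with
  | empty => simp
  | insert j0 s hj ih =>
    have hm : 0 ≤ m := hg.pos.le
    -- the sign matrix
    set d : ι → 𝕜 := fun i => if i = j0 then -1 else 1 with hd
    set U : Matrix ι ι 𝕜 := Matrix.diagonal d with hU
    have hUu : U ∈ Matrix.unitaryGroup ι 𝕜 := by
      rw [Matrix.mem_unitaryGroup_iff, hU, Matrix.star_eq_conjTranspose,
        Matrix.diagonal_conjTranspose, Matrix.diagonal_mul_diagonal, ← Matrix.diagonal_one]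
      congr 1
      funext i
      by_cases hi : i = j0 <;> simp [hd, hi]
    have hrot := hg.rot ι U hUu
    set F : (ι → 𝕜) → ℝ≥0∞ :=
      fun z => ENNReal.ofReal (‖∑ j ∈ insert j0 s, a j * z j‖ ^ 2) with hF
    have hFm : Measurable F := meas_sum a _
    have hUz : ∀ z : ι → 𝕜, U *ᵥ z = fun i => d i * z i := by
      intro z
      funext i
      rw [hU, Matrix.mulVec_diagonal]
    have hUm : Measurable (fun z : ι → 𝕜 => U *ᵥ z) := by
      simp_rw [hUz]
      apply measurable_pi_lambda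
      intro i
      have hi : Measurable (fun z : ι → 𝕜 => z i) := measurable_pi_apply i
      exact hi.const_mul (d i)
    have hinv : ∫⁻ z, F (U *ᵥ z) ∂G γ ι = ∫⁻ z, F z ∂G γ ι := by
      conv_rhs => rw [← hrot]
      rw [lintegral_map hFm hUm]
    have hsplit : ∀ z : ι → 𝕜, F z + F (U *ᵥ z) =
        2 * (ENNReal.ofReal (‖a j0 * z j0‖ ^ 2) + ENNReal.ofReal (‖∑ j ∈ s, a j * z j‖ ^ 2)) := by
      intro z
      have e1 : ∑ j ∈ insert j0 s, a j * z j = (∑ j ∈ s, a j * z j) + a j0 * z j0 := by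
        rw [Finset.sum_insert hj, add_comm]
      have e2 : ∑ j ∈ insert j0 s, a j * (U *ᵥ z) j = (∑ j ∈ s, a j * z j) - a j0 * z j0 := by
        rw [Finset.sum_insert hj, hUz]
        have : ∑ j ∈ s, a j * (d j * z j) = ∑ j ∈ s, a j * z j := by
          apply Finset.sum_congr rfl
          intro j hjs
          have : j ≠ j0 := fun h => hj (h ▸ hjs)
          simp [hd, this]
        rw [this]
        simp [hd]
        ring
      simp only [hF]
      rw [e1, e2]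
      have hpar : ‖(∑ j ∈ s, a j * z j) + a j0 * z j0‖ ^ 2 + ‖(∑ j ∈ s, a j * z j) - a j0 * z j0‖ ^ 2
          = 2 * (‖a j0 * z j0‖ ^ 2 + ‖∑ j ∈ s, a j * z j‖ ^ 2) := by
        have := parallelogram_law_with_norm ℝ (∑ j ∈ s, a j * z j) (a j0 * z j0)
        nlinarith [this]
      rw [← ENNReal.ofReal_add (by positivity) (by positivity), hpar,
        ENNReal.ofReal_mul (by norm_num), ENNReal.ofReal_add (by positivity) (by positivity)]
      norm_num
    have h2 : 2 * ∫⁻ z, F z ∂G γ ι = 2 * ENNReal.ofReal (m * ∑ j ∈ insert j0 s, ‖a j‖ ^ 2) := by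
      calc 2 * ∫⁻ z, F z ∂G γ ι = ∫⁻ z, F z ∂G γ ι + ∫⁻ z, F (U *ᵥ z) ∂G γ ι := by
            rw [hinv, two_mul]
        _ = ∫⁻ z, (F z + F (U *ᵥ z)) ∂G γ ι := by
            rw [lintegral_add_left hFm]
        _ = ∫⁻ z, 2 * (ENNReal.ofReal (‖a j0 * z j0‖ ^ 2)
              + ENNReal.ofReal (‖∑ j ∈ s, a j * z j‖ ^ 2)) ∂G γ ι := by
            simp_rw [hsplit]
        _ = 2 * (∫⁻ z, ENNReal.ofReal (‖a j0 * z j0‖ ^ 2) ∂G γ ι
              + ∫⁻ z, ENNReal.ofReal (‖∑ j ∈ s, a j * z j‖ ^ 2) ∂G γ ι) := by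
            rw [lintegral_const_mul' _ _ (by norm_num), lintegral_add_right _ (meas_sum a s)]
        _ = _ := by
            rw [one γ m hg, ih, ← ENNReal.ofReal_add (by positivity) (by positivity),
              Finset.sum_insert hj, mul_add]
    exact (ENNReal.mul_right_inj (by norm_num) (by norm_num)).1 h2

theorem main : Pool.Agent.Q202.SK.TaskMomL := by
  intro 𝕜 _ _ _ γ m hg κ ι _ _ _ L
  have hm : 0 ≤ m := hg.pos.le
  have h1 : ∀ z : ι → 𝕜, ENNReal.ofReal (sq (L *ᵥ z))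
      = ∑ i, ENNReal.ofReal (‖∑ j ∈ Finset.univ, L i j * z j‖ ^ 2) := by
    intro z
    rw [sq, ENNReal.ofReal_sum_of_nonneg (fun i _ => by positivity)]
    rfl
  simp_rw [h1]
  rw [lintegral_finsetSum _ (fun i _ => meas_sum (L i) _)]
  simp_rw [row γ m hg]
  rw [← ENNReal.ofReal_sum_of_nonneg (fun i _ => by positivity), Finset.mul_sum]

end Pool.Agent.Q202.SK.TaskMomL
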